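import Mathlib

/-!
# Countable partial orders as orders of sets of residues

Every countable partial order is isomorphic to a family of sets of natural numbers, ordered by
inclusion, each of which is a union of residue classes modulo a power of two.
-/

namespace MHon.Anti

/-- a continuous function on the Cantor space with values in `Bool` depends on finitely many
coordinates -/
theorem exists_depth {h : (ℕ → Bool) → Bool} (hh : Continuous h) :
    ∃ k : ℕ, ∀ u v : ℕ → Bool, (∀ i < k, u i = v i) → h u = h v := by
  have h1 : ∀ u : ℕ → Bool, ∃ k : ℕ, ∀ v : ℕ → Bool, (∀ i < k, v i = u i) → h v = h u := by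
    intro u
    have h2 : IsOpen (h ⁻¹' {h u}) := (isOpen_discrete _).preimage hh
    rw [isOpen_pi_iff] at h2
    obtain ⟨I, w, hw, hsub⟩ := h2 u rfl
    refine ⟨I.sup id + 1, fun v hv => ?_⟩
    have h3 : v ∈ (I : Set ℕ).pi w := by
      intro i hi
      have h4 : i ≤ I.sup id := Finset.le_sup (f := id) hi
      rw [hv i (by omega)]
      exact (hw i hi).2
    exact hsub h3
  choose k hk using h1
  have hop : ∀ u : ℕ → Bool, IsOpen {v : ℕ → Bool | ∀ i < k u, v i = u i} := by
    intro u
    have h2 : {v : ℕ → Bool | ∀ i < k u, v i = u i} =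
        ⋂ i ∈ Finset.range (k u), (fun v : ℕ → Bool => v i) ⁻¹' {u i} := by
      ext v
      simp
    rw [h2]
    exact isOpen_biInter_finset fun i _ => (isOpen_discrete _).preimage (continuous_apply i)
  obtain ⟨t, ht⟩ := isCompact_univ.elim_finite_subcover
    (fun u : ℕ → Bool => {v : ℕ → Bool | ∀ i < k u, v i = u i}) hop
    (fun u _ => Set.mem_iUnion.2 ⟨u, fun _ _ => rfl⟩)
  refine ⟨t.sup k, fun u v huv => ?_⟩
  have h3 := ht (Set.mem_univ u)
  simp only [Set.mem_iUnion] at h3
  obtain ⟨w, hw, hu⟩ := h3
  have h4 : k w ≤ t.sup k := Finset.le_sup hw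
  have h5 : ∀ i < k w, u i = w i := hu
  rw [hk w u h5, hk w v fun i hi => ?_]
  rw [← huv i (by omega)]
  exact h5 i hi

/-- Every countable partial order embeds into the unions of residue classes modulo powers of two,
ordered by inclusion. -/
theorem exists_sets (α : Type) [PartialOrder α] [Countable α] :
    ∃ φ : α → Set ℕ, (∀ a, ∃ (N : ℕ) (S : List ℕ), ∀ m, m ∈ φ a ↔ m % N ∈ S) ∧
      ∀ a b, φ a ⊆ φ b ↔ a ≤ b := by
  obtain ⟨e, he⟩ := exists_injective_nat α
  let X : Set (ℕ → Bool) := {u | ∀ a b : α, a ≤ b → u (e a) = true → u (e b) = true}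
  have hX : IsClosed X := by
    have h1 : X = ⋂ (a : α) (b : α) (_ : a ≤ b),
        {u : ℕ → Bool | u (e a) = true → u (e b) = true} := by
      ext u
      simp [X]
    rw [h1]
    refine isClosed_iInter fun a => isClosed_iInter fun b => isClosed_iInter fun _ => ?_
    have h2 : {u : ℕ → Bool | u (e a) = true → u (e b) = true} =
        (fun u : ℕ → Bool => (u (e a), u (e b))) ⁻¹' {p | p.1 = true → p.2 = true} := rfl
    rw [h2]
    exact (isClosed_discrete _).preimage
      ((continuous_apply (e a)).prodMk (continuous_apply (e b)))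
  have hne : X.Nonempty := ⟨fun _ => false, fun _ _ _ h => absurd h (by simp)⟩
  obtain ⟨g, hg, hgX⟩ := exists_retractionCantorSet hX hne
  have h1 : ∀ a : α, Continuous (fun u : ℕ → Bool => g u (e a)) :=
    fun a => (continuous_apply (e a)).comp hg
  choose k hk using fun a => exists_depth (h1 a)
  refine ⟨fun a => {m | g (fun i => m.testBit i) (e a) = true}, fun a => ?_, fun a b => ?_⟩
  · classical
    refine ⟨2 ^ k a, (List.range (2 ^ k a)).filter
      (fun r => g (fun i => r.testBit i) (e a)), fun m => ?_⟩
    have h2 : g (fun i => (m % 2 ^ k a).testBit i) (e a) = g (fun i => m.testBit i) (e a) := by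
      refine hk a _ _ fun i hi => ?_
      rw [Nat.testBit_mod_two_pow]
      simp [hi]
    rw [List.mem_filter, h2, List.mem_range]
    simp only [Set.mem_ofPred_eq]
    constructor
    · intro h
      exact ⟨Nat.mod_lt _ (by positivity), h⟩
    · exact fun h => h.2
  · constructor
    · intro hsub
      by_contra hab
      classical
      have hu : (fun i => decide (∃ c, e c = i ∧ a ≤ c)) ∈ X := by
        intro c c' hcc' hc
        simp only [decide_eq_true_eq] at hc ⊢
        obtain ⟨c'', h2, h3⟩ := hc
        rw [he h2] at h3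
        exact ⟨c', rfl, h3.trans hcc'⟩
      rw [← hgX] at hu
      obtain ⟨v, hv⟩ := hu
      let K := max (k a) (k b)
      let m := Nat.ofBits (fun i : Fin K => v i)
      have hm : ∀ i < K, m.testBit i = v i := fun i hi => by
        have := Nat.testBit_ofBits_lt (fun i : Fin K => v i) i hi
        simpa [m] using this
      have ha : g (fun i => m.testBit i) (e a) = true := by
        rw [hk a (fun i => m.testBit i) v fun i hi => hm i (lt_of_lt_of_le hi (le_max_left _ _)),
          hv]
        simp only [decide_eq_true_eq]
        exact ⟨a, rfl, le_rfl⟩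
      have hb : ¬ g (fun i => m.testBit i) (e b) = true := by
        rw [hk b (fun i => m.testBit i) v fun i hi => hm i (lt_of_lt_of_le hi (le_max_right _ _)),
          hv]
        simp only [decide_eq_true_eq]
        rintro ⟨c, h2, h3⟩
        rw [he h2] at h3
        exact hab h3
      exact hb (hsub ha)
    · intro hab m hm
      have h2 : g (fun i => m.testBit i) ∈ X := by
        rw [← hgX]
        exact ⟨_, rfl⟩
      exact h2 a b hab hm

end MHon.Anti
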