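import Pool.Agent.Lib.MP_1a14d4_he.Base

/-!
# The bijection between words and numbers

`num [] = 0`, `num (b :: w) = 2 num w + 1 or 2`, `wordOf` is the inverse function. Both are primitive
recursive, and `wordOf` is computable in polynomial time for numbers in unary.
-/

namespace MHE

open Pool.Agent.Lib.PolyTime

private theorem num_cons (b : Bool) (w : W) :
    num (b :: w) = 2 * num w + (if b then 2 else 1) := rfl

private theorem numW_step (b : Bool) (w acc : W) :
    wstep (num (b :: w), acc) = (num w, acc ++ [b]) := by
  have h : num (b :: w) ≠ 0 := by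
    rw [num_cons]
    split_ifs <;> omega
  unfold wstep
  rw [if_neg h]
  cases b
  · have h1 : (num (false :: w) - 1) / 2 = num w := by
      rw [num_cons]; simp
    have h2 : (num (false :: w) - 1) % 2 = 0 := by
      rw [num_cons]; simp
    simp only [h1, h2]
    simp
  · have h1 : (num (true :: w) - 1) / 2 = num w := by
      rw [num_cons]
      simp only [if_true]
      omega
    have h2 : (num (true :: w) - 1) % 2 = 1 := by
      rw [num_cons]
      simp only [if_true]
      omega
    simp only [h1, h2]
    simp

private theorem numW_fix (acc : W) (n : ℕ) : wstep^[n] (0, acc) = (0, acc) := by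
  induction n with
  | zero => rfl
  | succ n ih =>
    rw [Function.iterate_succ_apply]
    exact ih

private theorem numW_iter (w : W) : ∀ (acc : W) (n : ℕ), w.length ≤ n →
    wstep^[n] (num w, acc) = (0, acc ++ w) := by
  induction w with
  | nil =>
    intro acc n _
    rw [List.append_nil]
    exact numW_fix acc n
  | cons b w ih =>
    intro acc n hn
    cases n with
    | zero => simp at hn
    | succ n =>
      rw [Function.iterate_succ_apply, numW_step, ih _ _ (by simpa using hn)]
      simp

theorem num_lt (w : W) : num w + 1 < 2 ^ (w.length + 1) := by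
  induction w with
  | nil => simp [num]
  | cons b w ih =>
    rw [num_cons, List.length_cons, pow_succ]
    split_ifs <;> omega

theorem le_num (w : W) : 2 ^ w.length ≤ num w + 1 := by
  induction w with
  | nil => simp [num]
  | cons b w ih =>
    rw [num_cons, List.length_cons, pow_succ]
    split_ifs <;> omega

private theorem length_le_num (w : W) : w.length ≤ num w := by
  induction w with
  | nil => exact Nat.zero_le _
  | cons b w ih =>
    rw [num_cons, List.length_cons]
    split_ifs <;> omega

theorem wordOf_num (w : W) : wordOf (num w) = w := by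
  unfold wordOf
  rw [numW_iter w [] _ (length_le_num w)]
  rfl

private theorem num_surj (n : ℕ) : ∃ w, num w = n := by
  induction n using Nat.strong_induction_on with
  | _ n ih =>
    cases n with
    | zero => exact ⟨[], rfl⟩
    | succ m =>
      obtain ⟨w, hw⟩ := ih (m / 2) (by omega)
      refine ⟨decide (m % 2 = 1) :: w, ?_⟩
      rw [num_cons, hw]
      by_cases h : m % 2 = 1 <;> simp [h] <;> omega

theorem num_wordOf (n : ℕ) : num (wordOf n) = n := by
  obtain ⟨w, rfl⟩ := num_surj n
  rw [wordOf_num]

theorem num_inj {v w : W} (h : num v = num w) : v = w := by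
  rw [← wordOf_num v, h, wordOf_num]

theorem length_wordOf_le (n : ℕ) : (wordOf n).length ≤ n := by
  have := length_le_num (wordOf n)
  rwa [num_wordOf] at this

theorem prim_num : Primrec num := by
  have h1 : Primrec₂ (fun (_ : W) (p : Bool × ℕ) => 2 * p.2 + (bif p.1 then 2 else 1)) := by
    exact Primrec.nat_add.comp
      (Primrec.nat_mul.comp (Primrec.const 2) (Primrec.snd.comp Primrec.snd))
      (Primrec.cond (Primrec.fst.comp Primrec.snd) (Primrec.const 2) (Primrec.const 1))
  have h2 : Primrec (fun w : W => w.foldr (fun b s => 2 * s + (bif b then 2 else 1)) 0) :=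
    Primrec.list_foldr (h := fun (_ : W) (p : Bool × ℕ) => 2 * p.2 + (bif p.1 then 2 else 1))
      Primrec.id (Primrec.const 0) h1
  refine h2.of_eq fun w => ?_
  induction w with
  | nil => rfl
  | cons b w ih =>
    rw [List.foldr_cons, ih, num_cons]
    cases b <;> rfl

theorem prim_wordOf : Primrec wordOf := by
  have hs : Primrec wstep := by
    have hc : PrimrecPred (fun p : ℕ × W => p.1 = 0) :=
      Primrec.eq.comp Primrec.fst (Primrec.const 0)
    have hm : Primrec (fun p : ℕ × W => p.1 - 1) := Primrec.pred.comp Primrec.fst
    have hd : PrimrecPred (fun p : ℕ × W => (p.1 - 1) % 2 = 1) :=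
      Primrec.eq.comp (Primrec.nat_mod.comp hm (Primrec.const 2)) (Primrec.const 1)
    refine Primrec.ite hc Primrec.id (Primrec.pair
      (Primrec.nat_div.comp hm (Primrec.const 2))
      (Primrec.list_concat.comp Primrec.snd hd.decide))
  have h1 : Primrec (fun n : ℕ => wstep^[n] (n, [])) :=
    Primrec.nat_iterate Primrec.id (Primrec.pair Primrec.id (Primrec.const []))
      (hs.comp Primrec.snd)
  exact Primrec.snd.comp h1

private theorem wstep_size (p : ℕ × W) : sz (wstep p) ≤ sz p + 2 := by
  unfold wstep
  split_ifs with h
  · omega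
  · rw [sz_prod, sz_prod, sz_append]
    have h1 : sz [decide ((p.1 - 1) % 2 = 1)] ≤ 2 := by
      rw [sz_cons]
      have := sz_bool_le (decide ((p.1 - 1) % 2 = 1))
      simp only [sz_nil]
      omega
    have h2 : sz ((p.1 - 1) / 2) ≤ sz p.1 := by
      rw [sz_nat, sz_nat]
      omega
    dsimp only
    omega

theorem polyF_wordOf : PolyF wordOf := by
  have hs : PolyF wstep := by
    have hm : PolyF (fun p : ℕ × W => p.1 - 1) := PolyF.fst'.natSub (PolyF.const 1)
    refine PolyF.ite (p := fun p : ℕ × W => p.1 = 0) PolyF.fst'.natIsZero PolyF.id ?_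
    refine PolyF.pair (hm.natDiv (PolyF.const 2)) (PolyF.snd'.append (PolyF.singleton ?_))
    exact (hm.natMod (PolyF.const 2)).natEq (PolyF.const 1)
  have h1 : PolyF (fun n : ℕ => wstep^[n] (n, [])) := by
    refine PolyF.natIterate (n := fun n : ℕ => n) (f := fun _ p => wstep p)
      (g := fun n => (n, [])) PolyF.id (hs.comp PolyF.snd') (PolyF.id.pair (PolyF.const [])) ?_
    refine ⟨Polynomial.C 3 * Polynomial.X + 1, fun n i hi => ?_⟩
    have h2 : ∀ i, sz (wstep^[i] (n, ([] : W))) ≤ sz (n, ([] : W)) + 2 * i := by
      intro i
      induction i with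
      | zero => exact le_rfl
      | succ i ih =>
        rw [Function.iterate_succ_apply']
        have := wstep_size (wstep^[i] (n, []))
        omega
    have h3 := h2 i
    have h4 : sz (n, ([] : W)) = 1 + n := by
      rw [sz_prod, sz_nat]
      simp
    simp only [Polynomial.eval_add, Polynomial.eval_mul, Polynomial.eval_C, Polynomial.eval_X,
      Polynomial.eval_one, sz_nat]
    have hi' : i ≤ n := hi
    show sz (wstep^[i] (n, ([] : W))) ≤ _
    omega
  exact h1.snd

end MHE
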