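import Pool.Agent.Lib.MP_1a14d4_he.TPrim

/-!
# The parser is primitive recursive
-/

namespace MHE

open Pool.Agent.Lib.PolyTime

private theorem parsePrim_step : Primrec₂ MHon.parseStep := by
  have h0 : Primrec (fun p : Bool × List T => T.nil :: p.2) :=
    Primrec.list_cons.comp (Primrec.const _) Primrec.snd
  have h1 : Primrec (fun p : Bool × List T =>
      (T.node (p.2.headD T.nil) (p.2.tail.headD T.nil)) :: p.2.tail.tail) := by
    have hh : Primrec (fun l : List T => l.headD T.nil) := by
      refine (Primrec.option_getD.comp Primrec.list_head? (Primrec.const T.nil)).of_eq fun l => ?_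
      cases l <;> rfl
    exact Primrec.list_cons.comp
      (prim_node.comp (hh.comp Primrec.snd) (hh.comp (Primrec.list_tail.comp Primrec.snd)))
      (Primrec.list_tail.comp (Primrec.list_tail.comp Primrec.snd))
  have hc : PrimrecPred (fun p : Bool × List T => 2 ≤ p.2.length) :=
    Primrec.nat_le.comp (Primrec.const 2) (Primrec.list_length.comp Primrec.snd)
  refine (Primrec.cond Primrec.fst (Primrec.ite hc h1 Primrec.snd) h0).of_eq ?_
  rintro ⟨b, s⟩
  cases b with
  | false => rfl
  | true =>
    match s with
    | [] => rfl
    | [x] => rfl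
    | l :: r :: s => simp [MHon.parseStep]

theorem prim_parseT : Primrec MHon.parseT := by
  have h : Primrec (fun z : W => z.foldr MHon.parseStep []) :=
    Primrec.list_foldr (h := fun (_ : W) (p : Bool × List T) => MHon.parseStep p.1 p.2)
      Primrec.id (Primrec.const _)
      (parsePrim_step.comp (Primrec.fst.comp Primrec.snd) (Primrec.snd.comp Primrec.snd))
  refine (Primrec.option_getD.comp (Primrec.list_head?.comp h) (Primrec.const T.nil)).of_eq
    fun z => ?_
  unfold MHon.parseT
  cases z.foldr MHon.parseStep [] <;> rfl

end MHE
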