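import Pool.Agent.Lib.MP_1a14d4_he.Base

/-!
# The words `st i w = 1 ^ i 0 w`

The number and the argument of such a word are primitive recursive and computable in polynomial time.
-/

namespace MHE

open Pool.Agent.Lib.PolyTime

private theorem stOps_takeWhile : Primrec (fun l : List Bool => l.takeWhile (fun b => b)) := by
  have h : Primrec (fun l : List Bool =>
      l.foldr (fun b (s : List Bool) => bif b then b :: s else []) []) := by
    refine Primrec.list_foldr (f := fun l : List Bool => l) (g := fun _ => ([] : List Bool))
      (h := fun (_ : List Bool) (p : Bool × List Bool) => bif p.1 then p.1 :: p.2 else [])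
      Primrec.id (Primrec.const _) ?_
    exact Primrec.cond (Primrec.fst.comp Primrec.snd)
      (Primrec.list_cons.comp (Primrec.fst.comp Primrec.snd) (Primrec.snd.comp Primrec.snd))
      (Primrec.const _)
  refine h.of_eq fun l => ?_
  induction l with
  | nil => rfl
  | cons b l ih =>
    cases b
    · rfl
    · simp only [List.foldr_cons, cond_true, ih, List.takeWhile_cons, if_true]

private theorem stOps_dropWhile : Primrec (fun l : List Bool => l.dropWhile (fun b => b)) := by
  have h : Primrec (fun l : List Bool =>
      @List.recOn Bool (fun _ => List Bool) l []
        (fun b t s => bif b then s else b :: t)) := by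
    refine Primrec.list_rec (f := fun l : List Bool => l) (g := fun _ => ([] : List Bool))
      (h := fun (_ : List Bool) (p : Bool × List Bool × List Bool) =>
        bif p.1 then p.2.2 else p.1 :: p.2.1)
      Primrec.id (Primrec.const _) ?_
    exact Primrec.cond (Primrec.fst.comp Primrec.snd)
      (Primrec.snd.comp (Primrec.snd.comp Primrec.snd))
      (Primrec.list_cons.comp (Primrec.fst.comp Primrec.snd)
        (Primrec.fst.comp (Primrec.snd.comp Primrec.snd)))
  refine h.of_eq fun l => ?_
  induction l with
  | nil => rfl
  | cons b l ih =>
    cases b
    · rfl
    · show (List.rec (motive := fun _ => List Bool) [] (fun b t s => bif b then s else b :: t) l) = _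
      rw [List.dropWhile_cons_of_pos rfl]
      exact ih

theorem idx_st (i : ℕ) (w : W) : idx (st i w) = i := by
  unfold idx st
  induction i with
  | zero => rfl
  | succ i ih =>
    rw [List.replicate_succ, List.cons_append, List.takeWhile_cons_of_pos rfl, List.length_cons, ih]

theorem arg_st (i : ℕ) (w : W) : arg (st i w) = w := by
  unfold arg st
  induction i with
  | zero => rfl
  | succ i ih =>
    rw [List.replicate_succ, List.cons_append, List.dropWhile_cons_of_pos rfl]
    exact ih

theorem st_inj {i j : ℕ} {v w : W} (h : st i v = st j w) : i = j ∧ v = w := by
  refine ⟨?_, ?_⟩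
  · rw [← idx_st i v, h, idx_st]
  · rw [← arg_st i v, h, arg_st]

theorem length_st (i : ℕ) (w : W) : (st i w).length = i + w.length + 1 := by
  unfold st
  rw [List.length_append, List.length_replicate, List.length_cons]
  omega

theorem idx_add_arg_le (x : W) : idx x + (arg x).length ≤ x.length := by
  unfold idx arg
  have h := congrArg List.length (List.takeWhile_append_dropWhile (p := fun b : Bool => b) (l := x))
  rw [List.length_append] at h
  rw [List.length_tail]
  omega

theorem prim_st : Primrec₂ st := by
  have h1 : Primrec (fun p : ℕ × W => (List.range p.1).map fun _ => true) :=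
    Primrec.list_map (Primrec.list_range.comp Primrec.fst) (Primrec.const true).to₂
  have h2 : Primrec (fun p : ℕ × W => ((List.range p.1).map fun _ => true) ++ false :: p.2) :=
    Primrec.list_append.comp h1 (Primrec.list_cons.comp (Primrec.const false) Primrec.snd)
  refine h2.of_eq fun p => ?_
  rw [st, List.map_const', List.length_range]

theorem prim_idx : Primrec idx := by
  exact Primrec.list_length.comp stOps_takeWhile

theorem prim_arg : Primrec arg := by
  exact Primrec.list_tail.comp stOps_dropWhile

theorem polyF_st : PolyF (fun p : ℕ × W => st p.1 p.2) := by
  have h1 : PolyF (fun p : ℕ × W => (List.range p.1).map fun _ => true) :=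
    PolyF.map (PolyF.range PolyF.fst') (h := fun _ _ => true) (PolyF.const _)
  refine (PolyF.append h1 (PolyF.cons (PolyF.const false) PolyF.snd')).congr fun p => ?_
  rw [st, List.map_const', List.length_range]

theorem polyF_idx : PolyF idx := by
  exact PolyF.length (PolyF.takeWhile PolyF.id (p := fun _ b => b) PolyF.snd')

theorem polyF_arg : PolyF arg := by
  exact PolyF.tail (PolyF.dropWhile PolyF.id (p := fun _ b => b) PolyF.snd')

end MHE
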