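import Pool.Agent.Lib.MP_1a14d4_he.UnivPrim
import Pool.Agent.Lib.MP_1a14d4_he.ParsePrim
import Pool.Agent.Lib.MP_1a14d4_he.NumW
import Pool.Agent.Lib.MP_1a14d4_he.StOps

/-!
# The enumeration `F` and the values `yv` are primitive recursive
-/

namespace MHE

theorem prim_pow : Primrec₂ (fun a b : ℕ => a ^ b) := by
  have h : Primrec (fun p : ℕ × ℕ =>
      (p.2.rec (motive := fun _ => ℕ) 1 fun _ ih => ih * p.1 : ℕ)) :=
    Primrec.nat_rec' (f := fun p : ℕ × ℕ => p.2) (g := fun _ => 1)
      (h := fun (p : ℕ × ℕ) (q : ℕ × ℕ) => q.2 * p.1) Primrec.snd (Primrec.const 1)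
      (Primrec.nat_mul.comp (Primrec.snd.comp Primrec.snd) (Primrec.fst.comp Primrec.fst))
  have h' : ∀ a b : ℕ, (b.rec (motive := fun _ => ℕ) 1 fun _ ih => ih * a : ℕ) = a ^ b := by
    intro a b
    induction b with
    | zero => rfl
    | succ b ih =>
      rw [pow_succ, ← ih]
  exact h.of_eq fun p => h' p.1 p.2

theorem prim_F : Primrec₂ F := by
  have h1 : Primrec (fun p : ℕ × W => MHon.parseT (wordOf p.1.unpair.1)) :=
    prim_parseT.comp (prim_wordOf.comp (Primrec.fst.comp (Primrec.unpair.comp Primrec.fst)))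
  have h2 : Primrec (fun p : ℕ × W => p.2.map (some : Bool → Option Bool)) :=
    Primrec.list_map Primrec.snd (Primrec.option_some.comp Primrec.snd)
  have h3 : Primrec (fun p : ℕ × W => (p.2.length + 2) ^ p.1.unpair.2) :=
    prim_pow.comp (Primrec.nat_add.comp (Primrec.list_length.comp Primrec.snd) (Primrec.const 2))
      (Primrec.snd.comp (Primrec.unpair.comp Primrec.fst))
  exact prim_univ.comp (h1.pair (h2.pair h3))

theorem prim_yv : Primrec₂ yv := by
  exact prim_F.comp Primrec.fst (prim_st.comp Primrec.fst Primrec.snd)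

end MHE
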