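import Pool.Agent.Lib.MP_1a14d4_he.FPoly
import Pool.Agent.Lib.MP_1a14d4_he.StOps

/-!
# A universal recursively enumerable set

`K = {z | the partial recursive function with the code number idx z is defined at (the code of)
arg z}`; every recursively enumerable set is reducible to `K` by one-to-one functions of FP with
long values.
-/

namespace MHE

open Pool.Agent.Lib.PolyTime

theorem fp_st (i : ℕ) : FP (st i) :=
  fp_iff.2 (polyF_st.comp (PolyF.pair (PolyF.const i) PolyF.id))

theorem exists_universal : ∃ K : Set W, RE K ∧ ∀ B, RE B → Padded B K := by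
  let K : Set W := {z | (Nat.Partrec.Code.eval (Denumerable.ofNat Nat.Partrec.Code (idx z))
    (Encodable.encode (arg z))).Dom}
  have hK : RE K := by
    have h1 : Computable (fun z : W => Denumerable.ofNat Nat.Partrec.Code (idx z)) :=
      (Computable.ofNat Nat.Partrec.Code).comp prim_idx.to_comp
    have h2 : Computable (fun z : W => Encodable.encode (arg z)) :=
      Computable.encode.comp prim_arg.to_comp
    have h3 : Partrec (fun z : W => Nat.Partrec.Code.eval
        (Denumerable.ofNat Nat.Partrec.Code (idx z)) (Encodable.encode (arg z))) :=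
      Nat.Partrec.Code.eval_part.comp h1 h2
    exact h3.dom_re
  refine ⟨K, hK, fun B hB m => ?_⟩
  -- `B' = {x | arg x ∈ B}`
  have hB' : REPred (fun x : W => arg x ∈ B) := by
    have hB1 : Partrec (fun x : W => Part.assert (x ∈ B) fun _ => Part.some ()) := hB
    exact hB1.comp prim_arg.to_comp
  obtain ⟨c, hc⟩ := Nat.Partrec.Code.exists_code.1 hB'
  have key : ∀ y : W, st (Encodable.encode c) y ∈ K ↔ arg y ∈ B := by
    intro y
    show (Nat.Partrec.Code.eval (Denumerable.ofNat Nat.Partrec.Code
      (idx (st (Encodable.encode c) y))) (Encodable.encode (arg (st (Encodable.encode c) y)))).Dom ↔ _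
    rw [idx_st, arg_st, Denumerable.ofNat_encode, hc]
    simp only [Encodable.encodek, Part.coe_some, Part.bind_some, Part.map_Dom]
    exact ⟨fun h => h.1, fun h => ⟨h, trivial⟩⟩
  refine ⟨fun x => st (Encodable.encode c) (st ((x.length + m) ^ m) x), ?_, ?_, ?_, ?_⟩
  · refine fp_iff.2 ?_
    have h1 : PolyF (fun x : W => (x.length + m) ^ m) :=
      PolyF.natPow (PolyF.natAdd (PolyF.length PolyF.id) (PolyF.const m)) m
    have h2 : PolyF (fun x : W => st ((x.length + m) ^ m) x) :=
      polyF_st.comp (PolyF.pair h1 PolyF.id)
    exact polyF_st.comp (PolyF.pair (PolyF.const _) h2)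
  · intro x y h
    exact (st_inj (st_inj h).2).2
  · intro x
    rw [length_st, length_st]
    omega
  · intro x
    rw [key, arg_st]

end MHE
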