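import Pool.Agent.Lib.MP_1a14d4_he.AntiSets
import Pool.Agent.Lib.MP_1a14d4_he.AntiOrder
import Pool.Agent.Lib.MP_1a14d4_he.FPrim
import Pool.Agent.Lib.MP_1a14d4_he.Univ0

/-!
# Every countable partial order embeds into the honest degrees of complete sets

If for some exponentially honest one-to-one `f` the range of `f` contains the range of no honest
one-to-one function of FP, then every countable partial order embeds into the m-honest degrees of
the sets in the complete m-degree of RE.
-/

namespace MHE

open Pool.Agent.Lib.PolyTime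

/-- the facts on FP used in the abstract construction -/
theorem fp_enum : MHon.Anti.Enum FP F where
  comp := fun _ _ hf hg => FP.comp hf hg
  mem := fp_F
  surj := fun _ hf => exists_F hf
  computable := prim_F.to_comp
  cons := fun b => fp_iff.2 ((PolyF.const b).cons PolyF.id)
  tail := fp_iff.2 PolyF.id.tail
  len := by
    intro f hf
    obtain ⟨i, rfl⟩ := exists_F hf
    refine ⟨i.unpair.2 + 1, fun x => (length_F i x).trans ?_⟩
    rw [pow_succ]
    have h1 : 1 ≤ (x.length + 2) ^ i.unpair.2 := Nat.one_le_pow _ _ (by omega)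
    nlinarith

/-- the test for the tags -/
private theorem anti_tag (N : ℕ) (S : List ℕ) :
    PolyF (fun w : W => decide (w.head? = some true ∨ idx w.tail % N ∈ S)) := by
  have h1 : PolyF (fun w : W => decide (w.head? = some true)) := PolyF.id.head?.eqConst _
  have h2 : PolyF (fun w : W => idx w.tail % N) :=
    (polyF_idx.comp PolyF.id.tail).natMod (PolyF.const N)
  have h3 : PolyF (fun w : W => decide (idx w.tail % N ∈ S)) := h2.mem (PolyF.const S)
  exact PolyF.decide_or h1 h3

private theorem anti_list (S : List ℕ) : Computable (fun m : ℕ => decide (m ∈ S)) := by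
  induction S with
  | nil => exact (Computable.const false).of_eq fun m => by simp
  | cons a S ih =>
    have ceq : Computable₂ (fun a b : ℕ => decide (a = b)) := Primrec.eq.decide.to_comp
    have h1 : Computable (fun m : ℕ => (decide (m = a) || decide (m ∈ S) : Bool)) :=
      (Primrec.or.to_comp).comp (ceq.comp Computable.id (Computable.const a)) ih
    refine h1.of_eq fun m => ?_
    simp

/-- the positive part: an honest reduction if `P ⊆ Q` -/
theorem anti_red {f : W → W} (w : MHon.Anti.Windows F f) (K : Set W) {P Q : Set ℕ} (hPQ : P ⊆ Q)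
    {N : ℕ} {S : List ℕ} (hP : ∀ m, m ∈ P ↔ m % N ∈ S) :
    HonestRed (MHon.Anti.AS w K P) (MHon.Anti.AS w K Q) := by
  refine ⟨fun x => if x.head? = some true ∨ idx x.tail % N ∈ S then x else
    false :: x.map (fun _ => true), ?_, ⟨Polynomial.X, fun x => ?_⟩, fun x => ?_⟩
  · rw [fp_iff]
    refine PolyF.ite (anti_tag N S) PolyF.id ((PolyF.const false).cons ?_)
    exact PolyF.id.map (h := fun _ _ => true) (PolyF.const true)
  · dsimp only
    split_ifs
    · simp
    · simp
  · dsimp only
    have hst : ∀ (m : ℕ) (y : W), idx (MHon.Anti.st m y) = m := fun m y => idx_st m y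
    split_ifs with h
    · constructor
      · rintro (⟨q, hq, h1, h2⟩ | h1)
        · exact Or.inl ⟨q, hq, hPQ h1, h2⟩
        · exact Or.inr h1
      · rintro (⟨q, hq, _, h2⟩ | h1)
        · refine Or.inl ⟨q, hq, ?_, h2⟩
          rw [hq] at h
          simp only [List.head?_cons, Option.some.injEq, Bool.false_eq_true, List.tail_cons,
            false_or] at h
          rw [hst] at h
          exact (hP _).2 h
        · exact Or.inr h1
    · constructor
      · rintro (⟨q, hq, h1, _⟩ | ⟨y, hy, _⟩)
        · exfalso
          apply h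
          right
          rw [hq, List.tail_cons, hst]
          exact (hP _).1 h1
        · exact absurd (Or.inl (by rw [hy]; rfl)) h
      · rintro (⟨q, hq, _⟩ | ⟨y, hy, _⟩)
        · exfalso
          have h1 : x.map (fun _ => true) = MHon.Anti.st q.1 q.2 := (List.cons.inj hq).2
          have h2 : false ∈ x.map (fun _ => true) := by
            rw [h1, MHon.Anti.st]
            simp
          simp at h2
        · exact absurd (List.cons.inj hy).1 (by decide)

/-- If (S_e) fails then every countable partial order embeds into the honest degrees of the complete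
sets for RE. -/
theorem exists_embedding (hS : ∃ f, FP f ∧ Function.Injective f ∧
      (∀ x : W, x.length < 2 ^ (f x).length) ∧ ¬ HasHonest f) :
    ∀ (α : Type) [PartialOrder α] [Countable α], ∃ A : α → Set W,
      (∀ a, Complete RE (A a)) ∧ ∀ a b, HonestRed (A a) (A b) ↔ a ≤ b := by
  intro α _ _
  obtain ⟨f, hf, hinj, hexp, hno⟩ := hS
  obtain ⟨w⟩ := MHon.Anti.exists_windows fp_enum hf hexp (by
    rintro h hh hhinj ⟨d, hd⟩ hr
    refine hno ⟨h, hh, hhinj, ⟨(Polynomial.X + 2) ^ d, fun x => ?_⟩, hr⟩
    simpa using hd x)
  obtain ⟨K, hK, hKc⟩ := exists_universal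
  obtain ⟨φ, hφ, hφ2⟩ := MHon.Anti.exists_sets α
  refine ⟨fun a => MHon.Anti.AS w K (φ a), fun a => ⟨?_, fun B hB => ?_⟩, fun a b => ?_⟩
  · obtain ⟨N, S, hS⟩ := hφ a
    have h1 : Computable (fun m : ℕ => decide (m % N ∈ S)) :=
      (anti_list S).comp ((Primrec.nat_mod.to_comp).comp Computable.id (Computable.const N))
    exact MHon.Anti.re_AS fp_enum hf w hK h1 fun m => by rw [hS]; simp
  · obtain ⟨g, hg, _, _, hgB⟩ := hKc B hB 0
    refine ⟨fun x => true :: f (false :: g x), ?_, fun x => ?_⟩
    · exact FP.comp (f := fun x => true :: x) (fp_enum.cons true) (FP.comp (f := f) hf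
        (FP.comp (f := fun x => false :: x) (fp_enum.cons false) hg))
    · rw [hgB]
      exact MHon.Anti.hard_AS hinj w (φ a) (g x)
  · constructor
    · rintro ⟨g, hg, ⟨q, hq⟩, hgA⟩
      by_contra hab
      rw [← hφ2, Set.not_subset] at hab
      obtain ⟨n, hn, hnb⟩ := hab
      obtain ⟨j, rfl⟩ := exists_F hg
      obtain ⟨e, he⟩ := fp_enum.len _ hg
      obtain ⟨d, hd⟩ := MHon.poly_le q
      exact MHon.Anti.no_reduction w K hn hnb j hgA d e (fun x => (hq x).trans (hd _)) he
    · intro hab
      obtain ⟨N, S, hS⟩ := hφ a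
      exact anti_red w K ((hφ2 a b).2 hab) hS

end MHE
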