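import Pool.Agent.Lib.MP_1a14d4_lc.ReEx

/-!
# Bounded search and recursively enumerable sets

Small facts on computable functions: bounded quantifiers over numbers and words, a normal form of
recursively enumerable predicates.
-/

namespace MHon

open Encodable

section

variable {α : Type*} [Primcodable α]

/-- bounded search over the numbers -/
theorem computable_bex {p : α → ℕ → Bool} (hp : Computable₂ p) {b : α → ℕ} (hb : Computable b) :
    ∃ r : α → Bool, Computable r ∧ ∀ a, r a = true ↔ ∃ m, m < b a ∧ p a m = true := by
  refine ⟨fun a => Nat.rec (motive := fun _ => Bool) false (fun m ih => ih || p a m) (b a), ?_, ?_⟩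
  · have h1 : Computable₂ (fun (a : α) (q : ℕ × Bool) => q.2 || p a q.1) := by
      have h2 : Computable (fun x : α × (ℕ × Bool) => p x.1 x.2.1) :=
        hp.comp Computable.fst (Computable.fst.comp Computable.snd)
      exact (Primrec.or.to_comp).comp (Computable.snd.comp Computable.snd) h2
    exact Computable.nat_rec hb (Computable.const false) h1
  · intro a
    show Nat.rec (motive := fun _ => Bool) false (fun m ih => ih || p a m) (b a) = true ↔ _
    induction b a with
    | zero => simp
    | succ n ih =>
      show (Nat.rec (motive := fun _ => Bool) false (fun m ih => ih || p a m) n || p a n) = true ↔ _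
      rw [Bool.or_eq_true, ih]
      constructor
      · rintro (⟨m, hm, h⟩ | h)
        · exact ⟨m, by omega, h⟩
        · exact ⟨n, by omega, h⟩
      · rintro ⟨m, hm, h⟩
        rcases Nat.lt_succ_iff_lt_or_eq.1 hm with h' | h'
        · exact Or.inl ⟨m, h', h⟩
        · subst h'
          exact Or.inr h

/-- every code of a word of length at most `n` is less than `cBound n` -/
def cBound : ℕ → ℕ
  | 0 => 1
  | n + 1 => cBound n + Nat.pair 1 (cBound n) + 1

theorem cBound_primrec : Primrec cBound := by
  have h : Primrec₂ (fun (_ : ℕ) (p : ℕ × ℕ) => p.2 + Nat.pair 1 p.2 + 1) := by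
    have h2 : Primrec (fun x : ℕ × (ℕ × ℕ) => x.2.2) := Primrec.snd.comp Primrec.snd
    exact Primrec.succ.comp (Primrec.nat_add.comp h2
      (Primrec₂.natPair.comp (Primrec.const 1) h2))
  refine (Primrec.nat_rec (Primrec.const 1) h |>.comp Primrec.id Primrec.id).of_eq fun n => ?_
  show Nat.rec (motive := fun _ => ℕ) 1 (fun _ ih => ih + Nat.pair 1 ih + 1) n = cBound n
  induction n with
  | zero => rfl
  | succ n ih =>
    show _ + Nat.pair 1 _ + 1 = cBound n + Nat.pair 1 (cBound n) + 1
    rw [ih]

theorem encode_lt_cBound : ∀ (n : ℕ) (v : List Bool), v.length ≤ n → encode v < cBound n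
  | 0, [], _ => by simp [cBound]
  | 0, _ :: _, h => by simp at h
  | n + 1, [], _ => by simp [cBound]
  | n + 1, b :: v, h => by
    have ih := encode_lt_cBound n v (by simpa using h)
    have hb : encode b ≤ 1 := by cases b <;> decide
    have h1 : encode (b :: v) = Nat.succ (Nat.pair (encode b) (encode v)) :=
      Encodable.encode_list_cons b v
    rw [h1]
    have h2 : Nat.pair (encode b) (encode v) ≤ Nat.pair 1 (cBound n) := by
      rcases Nat.lt_or_ge (encode b) 1 with h3 | h3
      · exact (Nat.pair_lt_pair_left _ h3).le.trans (Nat.pair_lt_pair_right _ ih).le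
      · have h4 : encode b = 1 := by omega
        rw [h4]
        exact (Nat.pair_lt_pair_right _ ih).le
    have h5 : 1 ≤ cBound n := by
      have := encode_lt_cBound n [] (Nat.zero_le _)
      omega
    show _ < cBound n + Nat.pair 1 (cBound n) + 1
    omega

/-- bounded search over the words of length at most `b a` -/
theorem computable_wex {p : α → List Bool → Bool} (hp : Computable₂ p) {b : α → ℕ}
    (hb : Computable b) :
    ∃ r : α → Bool, Computable r ∧ ∀ a, r a = true ↔ ∃ v : List Bool, v.length ≤ b a ∧ p a v = true := by
  have h1 : Computable₂ (fun (a : α) (m : ℕ) =>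
      ((decode m : Option (List Bool)).elim false fun v => decide (v.length ≤ b a) && p a v)) := by
    have h2 : Computable₂ (fun (x : α × ℕ) (v : List Bool) =>
        decide (v.length ≤ b x.1) && p x.1 v) := by
      have h3 : Computable (fun y : (α × ℕ) × List Bool => decide (y.2.length ≤ b y.1.1)) := by
        have h4 : Computable₂ (fun m n : ℕ => decide (m ≤ n)) := Primrec.nat_le.decide.to_comp
        exact h4.comp (Computable.list_length.comp Computable.snd)
          (hb.comp (Computable.fst.comp Computable.fst))
      exact (Primrec.and.to_comp).comp h3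
        (hp.comp (Computable.fst.comp Computable.fst) Computable.snd)
    have h5 := Computable.option_casesOn (o := fun x : α × ℕ => (decode x.2 : Option (List Bool)))
      (f := fun _ => false) (Computable.decode.comp Computable.snd) (Computable.const false) h2
    refine h5.of_eq fun x => ?_
    dsimp only
    cases (decode x.2 : Option (List Bool)) <;> rfl
  obtain ⟨r, hr, hr2⟩ := computable_bex h1 (cBound_primrec.to_comp.comp hb)
  refine ⟨r, hr, fun a => ?_⟩
  rw [hr2]
  constructor
  · rintro ⟨m, _, h⟩
    cases hd : (decode m : Option (List Bool)) with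
    | none => rw [hd] at h; simp at h
    | some v =>
      rw [hd] at h
      simp only [Option.elim_some, Bool.and_eq_true, decide_eq_true_eq] at h
      exact ⟨v, h⟩
  · rintro ⟨v, h1, h2⟩
    refine ⟨encode v, encode_lt_cBound _ _ h1, ?_⟩
    simp [encodek, h1, h2]

/-- search over the words with a smaller code -/
theorem computable_below {p : α → List Bool → Bool} (hp : Computable₂ p) {z : α → List Bool}
    (hz : Computable z) :
    ∃ r : α → Bool, Computable r ∧ ∀ a, r a = true ↔
      ∃ v : List Bool, encode v < encode (z a) ∧ p a v = true := by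
  have h1 : Computable₂ (fun (a : α) (m : ℕ) =>
      ((decode m : Option (List Bool)).elim false fun v => decide (encode v = m) && p a v)) := by
    have h2 : Computable₂ (fun (x : α × ℕ) (v : List Bool) =>
        decide (encode v = x.2) && p x.1 v) := by
      have h3 : Computable (fun y : (α × ℕ) × List Bool => decide (encode y.2 = y.1.2)) := by
        have h4 : Computable₂ (fun m n : ℕ => decide (m = n)) := Primrec.eq.decide.to_comp
        exact h4.comp (Computable.encode.comp Computable.snd)
          (Computable.snd.comp Computable.fst)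
      exact (Primrec.and.to_comp).comp h3
        (hp.comp (Computable.fst.comp Computable.fst) Computable.snd)
    have h5 := Computable.option_casesOn (o := fun x : α × ℕ => (decode x.2 : Option (List Bool)))
      (f := fun _ => false) (Computable.decode.comp Computable.snd) (Computable.const false) h2
    refine h5.of_eq fun x => ?_
    dsimp only
    cases (decode x.2 : Option (List Bool)) <;> rfl
  obtain ⟨r, hr, hr2⟩ := computable_bex h1 (Computable.encode.comp hz)
  refine ⟨r, hr, fun a => ?_⟩
  rw [hr2]
  constructor
  · rintro ⟨m, hm, h⟩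
    cases hd : (decode m : Option (List Bool)) with
    | none => rw [hd] at h; simp at h
    | some v =>
      rw [hd] at h
      simp only [Option.elim_some, Bool.and_eq_true, decide_eq_true_eq] at h
      refine ⟨v, ?_, h.2⟩
      rw [h.1]; exact hm
  · rintro ⟨v, h1, h2⟩
    refine ⟨encode v, h1, ?_⟩
    simp [encodek, h2]

/-- the normal form of recursively enumerable predicates -/
theorem re_normal {p : α → Prop} (h : REPred p) :
    ∃ q : α → ℕ → Bool, Computable₂ q ∧ ∀ a, p a ↔ ∃ m, q a m = true := by
  obtain ⟨c, hc⟩ := Nat.Partrec.Code.exists_code.1 h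
  have hR : ∀ a : α, p a ↔ (Nat.Partrec.Code.eval c (encode a)).Dom := by
    intro a
    rw [hc]
    simp only [Encodable.encodek, Part.coe_some, Part.bind_some, Part.map_Dom]
    exact ⟨fun h => ⟨h, trivial⟩, fun h => h.1⟩
  refine ⟨fun a m => (Nat.Partrec.Code.evaln m c (encode a)).isSome, ?_, ?_⟩
  · have e7 : Computable (fun x : α × ℕ => ((x.2, c), encode x.1)) :=
      Computable.pair (Computable.pair Computable.snd (Computable.const c))
        (Computable.encode.comp Computable.fst)
    have e8 := Nat.Partrec.Code.primrec_evaln.to_comp.comp e7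
    exact (Primrec.option_isSome.to_comp).comp e8
  · intro a
    rw [hR]
    constructor
    · intro h
      obtain ⟨x, hx⟩ := Part.dom_iff_mem.1 h
      obtain ⟨k, hk⟩ := Nat.Partrec.Code.evaln_complete.1 hx
      exact ⟨k, Option.isSome_iff_exists.2 ⟨x, hk⟩⟩
    · rintro ⟨m, hm⟩
      obtain ⟨x, hx⟩ := Option.isSome_iff_exists.1 hm
      exact Part.dom_iff_mem.2 ⟨x, Nat.Partrec.Code.evaln_sound hx⟩

/-- the normal form gives a recursively enumerable predicate -/
theorem re_of_normal {p : α → Prop} {q : α → ℕ → Bool} (hq : Computable₂ q)
    (h : ∀ a, p a ↔ ∃ m, q a m = true) : REPred p := by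
  have h1 : Partrec (fun a => Nat.rfind fun m => (Part.some (q a m) : Part Bool)) :=
    Partrec.rfind hq.partrec₂
  refine h1.dom_re.of_eq fun a => ?_
  rw [h, Nat.rfind_dom]
  constructor
  · rintro ⟨m, hm, _⟩
    exact ⟨m, (Part.mem_some_iff.1 hm).symm⟩
  · rintro ⟨m, hm⟩
    exact ⟨m, by rw [hm]; exact Part.mem_some _, fun _ => trivial⟩

/-- a total search is computable -/
theorem computable_find {q : α → ℕ → Bool} (hq : Computable₂ q) (h : ∀ a, ∃ m, q a m = true) :
    ∃ g : α → ℕ, Computable g ∧ ∀ a, q a (g a) = true := by
  refine ⟨fun a => Nat.find (h a), ?_, fun a => Nat.find_spec (h a)⟩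
  have h1 : Partrec (fun a => Nat.rfind fun m => (Part.some (q a m) : Part Bool)) :=
    Partrec.rfind hq.partrec₂
  refine h1.of_eq fun a => ?_
  refine Part.eq_some_iff.2 (Nat.mem_rfind.2 ⟨?_, ?_⟩)
  · rw [Nat.find_spec (h a)]
    exact Part.mem_some _
  · intro m hm
    have := Nat.find_min (h a) hm
    rw [Bool.not_eq_true] at this
    rw [this]
    exact Part.mem_some _

end

end MHon
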