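import Pool.Agent.Lib.MP_1a14d4_he.AntiWin

/-!
# The family of complete sets
-/

namespace MHon.Anti

open Encodable

section re

variable {α : Type*} [Primcodable α]

theorem re_or {p q : α → Prop} (hp : REPred p) (hq : REPred q) : REPred (fun a => p a ∨ q a) := by
  obtain ⟨r, hr, hr2⟩ := re_normal hp
  obtain ⟨s, hs, hs2⟩ := re_normal hq
  have h1 : Computable₂ (fun (a : α) (m : ℕ) => r a m || s a m) :=
    (Primrec.or.to_comp).comp (hr.comp Computable.fst Computable.snd)
      (hs.comp Computable.fst Computable.snd)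
  refine re_of_normal h1 fun a => ?_
  rw [hr2, hs2]
  constructor
  · rintro (⟨m, h⟩ | ⟨m, h⟩)
    · exact ⟨m, by rw [h]; rfl⟩
    · exact ⟨m, by rw [h, Bool.or_true]⟩
  · rintro ⟨m, h⟩
    rw [Bool.or_eq_true] at h
    exact h.imp (fun h => ⟨m, h⟩) (fun h => ⟨m, h⟩)

theorem re_bool {p : α → Prop} {r : α → Bool} (hr : Computable r) (h : ∀ a, p a ↔ r a = true) :
    REPred p := by
  have h1 : Computable₂ (fun (a : α) (_ : ℕ) => r a) := hr.comp Computable.fst
  refine re_of_normal h1 fun a => ?_
  rw [h]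
  exact ⟨fun h => ⟨0, h⟩, fun ⟨_, h⟩ => h⟩

end re

variable {FP : (W → W) → Prop} {F : ℕ → W → W} {f : W → W}

/-- A word with a smaller code in the same column, with its length in the windows, has the same
value. -/
def Dup (w : Windows F f) (k : ℕ) (z : W) : Prop :=
  ∃ z', encode z' < encode z ∧ (w.X k.unpair.2 (ln k z') = true ∧
    F k.unpair.1 (cw k z') = F k.unpair.1 (cw k z))

/-- the complete set with the columns -/
def KS (w : Windows F f) (K0 : Set W) : Set W :=
  {x | (∃ z, x = false :: z ∧ z ∈ K0) ∨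
    ∃ p : ℕ × W, x = true :: st p.1 p.2 ∧ ¬ Dup w p.1 p.2}

/-- the sets of the family, one for each set `P` of numbers -/
def AS (w : Windows F f) (K0 : Set W) (P : Set ℕ) : Set W :=
  {x | (∃ q : ℕ × W, x = false :: st q.1 q.2 ∧
      (q.1 ∈ P ∧ (q.1 ≤ q.2.length ∧ (q.2 ∈ KS w K0 ∧ w.X q.1 q.2.length = true)))) ∨
    ∃ y, x = true :: f y ∧ y ∈ KS w K0}

theorem re_KS (E : Enum FP F) (w : Windows F f) {K0 : Set W} (hK : REPred (fun x => x ∈ K0)) :
    REPred (fun x => x ∈ KS w K0) := by
  have ceq : Computable₂ (fun a b : W => decide (a = b)) := Primrec.eq.decide.to_comp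
  have ccons : Computable₂ (fun (b : Bool) (x : W) => b :: x) := Primrec.list_cons.to_comp
  refine re_or ?_ ?_
  · refine re_exists (R := fun q : W × W => q.1 = false :: q.2 ∧ q.2 ∈ K0)
      (re_and ?_ (re_comp hK Computable.snd))
    exact re_bool (ceq.comp Computable.fst (ccons.comp (Computable.const false) Computable.snd))
      fun a => by simp
  · refine re_exists (R := fun q : W × (ℕ × W) => q.1 = true :: st q.2.1 q.2.2 ∧
      ¬ Dup w q.2.1 q.2.2) (re_and ?_ ?_)
    · exact re_bool (ceq.comp Computable.fst (ccons.comp (Computable.const true)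
        (computable_st.comp (Computable.fst.comp Computable.snd)
          (Computable.snd.comp Computable.snd)))) fun a => by simp
    · have h1 : Computable₂ (fun (a : ℕ × W) (z' : W) => (w.X a.1.unpair.2 (ln a.1 z') &&
          decide (F a.1.unpair.1 (cw a.1 z') = F a.1.unpair.1 (cw a.1 a.2)) : Bool)) := by
        have cand : Computable₂ (fun a b : Bool => a && b) := Primrec.and.to_comp
        have ck : Computable (fun x : (ℕ × W) × W => x.1.1) := Computable.fst.comp Computable.fst
        have cz : Computable (fun x : (ℕ × W) × W => x.1.2) := Computable.snd.comp Computable.fst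
        have cz' : Computable (fun x : (ℕ × W) × W => x.2) := Computable.snd
        have cu : Computable (fun x : (ℕ × W) × W => x.1.1.unpair) :=
          Primrec.unpair.to_comp.comp ck
        have c1 : Computable (fun x : (ℕ × W) × W => w.X x.1.1.unpair.2 (ln x.1.1 x.2)) :=
          w.hX.comp (Computable.snd.comp cu) (computable_ln.comp ck cz')
        have c2 : Computable (fun x : (ℕ × W) × W => F x.1.1.unpair.1 (cw x.1.1 x.2)) :=
          E.computable.comp (Computable.fst.comp cu) (computable_cw.comp ck cz')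
        have c3 : Computable (fun x : (ℕ × W) × W => F x.1.1.unpair.1 (cw x.1.1 x.1.2)) :=
          E.computable.comp (Computable.fst.comp cu) (computable_cw.comp ck cz)
        exact cand.comp c1 (ceq.comp c2 c3)
      obtain ⟨r, hr, hr2⟩ := computable_below h1 (z := fun a : ℕ × W => a.2) Computable.snd
      refine re_bool (r := fun q : W × (ℕ × W) => !(r q.2))
        ((Primrec.not.to_comp).comp (hr.comp Computable.snd)) fun q => ?_
      have h2 := hr2 q.2
      simp only [Bool.and_eq_true, decide_eq_true_eq] at h2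
      rw [Bool.not_eq_true', ← Bool.not_eq_true, h2]
      rfl

theorem re_AS (E : Enum FP F) (hf : FP f) (w : Windows F f) {K0 : Set W}
    (hK : REPred (fun x => x ∈ K0)) {P : Set ℕ} {t : ℕ → Bool} (ht : Computable t)
    (hP : ∀ n, n ∈ P ↔ t n = true) : REPred (fun x => x ∈ AS w K0 P) := by
  have ceq : Computable₂ (fun a b : W => decide (a = b)) := Primrec.eq.decide.to_comp
  have cle : Computable₂ (fun a b : ℕ => decide (a ≤ b)) := Primrec.nat_le.decide.to_comp
  have ccons : Computable₂ (fun (b : Bool) (x : W) => b :: x) := Primrec.list_cons.to_comp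
  have hKS := re_KS E w hK
  have c1 : Computable (fun x : W × (ℕ × W) => x.2.1) := Computable.fst.comp Computable.snd
  have c2 : Computable (fun x : W × (ℕ × W) => x.2.2) := Computable.snd.comp Computable.snd
  have c3 : Computable (fun x : W × (ℕ × W) => x.2.2.length) := Computable.list_length.comp c2
  refine re_or ?_ ?_
  · refine re_exists (R := fun q : W × (ℕ × W) => q.1 = false :: st q.2.1 q.2.2 ∧
      (q.2.1 ∈ P ∧ (q.2.1 ≤ q.2.2.length ∧ (q.2.2 ∈ KS w K0 ∧ w.X q.2.1 q.2.2.length = true))))
      (re_and ?_ (re_and ?_ (re_and ?_ (re_and (re_comp hKS c2) ?_))))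
    · exact re_bool (ceq.comp Computable.fst (ccons.comp (Computable.const false)
        (computable_st.comp c1 c2))) fun a => by simp
    · exact re_bool (ht.comp c1) fun a => hP _
    · exact re_bool (cle.comp c1 c3) fun a => by simp
    · exact re_bool (w.hX.comp c1 c3) fun a => Iff.rfl
  · refine re_exists (R := fun q : W × W => q.1 = true :: f q.2 ∧ q.2 ∈ KS w K0)
      (re_and ?_ (re_comp hKS Computable.snd))
    exact re_bool (ceq.comp Computable.fst (ccons.comp (Computable.const true)
      ((E.comp_mem hf).comp Computable.snd))) fun a => by simp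

/-- reductions to the sets of the family -/
theorem hard_AS (hinj : Function.Injective f) (w : Windows F f) {K0 : Set W} (P : Set ℕ) (z : W) :
    z ∈ K0 ↔ true :: f (false :: z) ∈ AS w K0 P := by
  constructor
  · intro h
    exact Or.inr ⟨false :: z, rfl, Or.inl ⟨z, rfl, h⟩⟩
  · rintro (⟨y, hy, _⟩ | ⟨y, hy, h⟩)
    · exact absurd (List.cons.inj hy).1 (by decide)
    · have h1 : y = false :: z := hinj (List.cons.inj hy).2.symm
      subst h1
      rcases h with ⟨z', hz', h'⟩ | ⟨p, hp, _⟩
      · rw [(List.cons.inj hz').2]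
        exact h'
      · exact absurd (List.cons.inj hp).1 (by decide)

theorem cw_mem_iff (w : Windows F f) (K0 : Set W) {P : Set ℕ} {n k : ℕ} (hn : n ∈ P)
    (hk : k.unpair.2 = n) (z : W) (hz : w.X n (ln k z) = true) :
    cw k z ∈ AS w K0 P ↔ ¬ Dup w k z := by
  constructor
  · rintro (⟨q, hq, _, _, hq2, _⟩ | ⟨y, hy, _⟩)
    · have h1 : q.2 = true :: st k z := (st_inj (List.cons.inj hq).2).2.symm
      rw [h1] at hq2
      rcases hq2 with ⟨z', hz', _⟩ | ⟨p, hp, hp2⟩
      · exact absurd (List.cons.inj hz').1 (by decide)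
      · obtain ⟨h2, h3⟩ := st_inj (List.cons.inj hp).2
        rw [h2, h3]
        exact hp2
    · exact absurd (List.cons.inj hy).1 (by decide)
  · intro h
    refine Or.inl ⟨(n, true :: st k z), ?_, hn, ?_, Or.inr ⟨(k, z), rfl, h⟩, ?_⟩
    · rw [cw, hk]
    · show n ≤ (true :: st k z).length
      rw [true_st_length, ← hk]
      exact unpair_le_ln k z
    · show w.X n (true :: st k z).length = true
      rw [true_st_length]
      exact hz

/-- Claim B -/
theorem no_reduction (w : Windows F f) (K0 : Set W) {P Q : Set ℕ} {n : ℕ} (hn : n ∈ P)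
    (hnQ : n ∉ Q) (j : ℕ)
    (hred : ∀ x, x ∈ AS w K0 P ↔ F j x ∈ AS w K0 Q) (d e : ℕ)
    (hhon : ∀ x : W, x.length ≤ ((F j x).length + 2) ^ d)
    (hlen : ∀ x : W, (F j x).length ≤ (x.length + 2) ^ e) : False := by
  set k := Nat.pair j n with hk
  have hk1 : k.unpair.1 = j := by rw [hk, Nat.unpair_pair]
  have hk2 : k.unpair.2 = n := by rw [hk, Nat.unpair_pair]
  -- no duplicates in the windows
  have hdup : ∀ z, w.X n (ln k z) = true → ¬ Dup w k z := by
    intro z hz hD
    obtain ⟨z0, hz0, hmin⟩ : ∃ z0, (w.X n (ln k z0) = true ∧ F j (cw k z0) = F j (cw k z)) ∧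
        ∀ z', (w.X n (ln k z') = true ∧ F j (cw k z') = F j (cw k z)) → encode z0 ≤ encode z' := by
      have hS : {z' : W | w.X n (ln k z') = true ∧ F j (cw k z') = F j (cw k z)}.Nonempty :=
        ⟨z, hz, rfl⟩
      refine ⟨Function.argminOn (fun z' : W => encode z') _ hS,
        Function.argminOn_mem (fun z' : W => encode z') _ hS, fun z' hz' => ?_⟩
      exact Function.argminOn_le (fun z' : W => encode z') _ hz'
    have h1 : ¬ Dup w k z0 := by
      rintro ⟨z', hlt, hX, hF⟩
      rw [hk2] at hX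
      rw [hk1] at hF
      have := hmin z' ⟨hX, hF.trans hz0.2⟩
      omega
    have h2 := (cw_mem_iff w K0 hn hk2 z0 hz0.1).2 h1
    have h3 : ¬ cw k z ∈ AS w K0 P := fun h => (cw_mem_iff w K0 hn hk2 z hz).1 h hD
    rw [hred, ← hz0.2] at h3
    exact h3 ((hred _).1 h2)
  have hone : ∀ z z', w.X n (ln k z) = true → w.X n (ln k z') = true →
      F j (cw k z') = F j (cw k z) → z' = z := by
    intro z z' hz hz' hF
    by_contra hne
    have h1 : encode z' ≠ encode z := fun h => hne (encode_injective h)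
    rcases lt_or_gt_of_ne h1 with h2 | h2
    · exact hdup z hz ⟨z', h2, by rw [hk2]; exact hz', by rw [hk1]; exact hF⟩
    · exact hdup z' hz' ⟨z, h2, by rw [hk2]; exact hz, by rw [hk1]; exact hF.symm⟩
  -- a late stage
  obtain ⟨N, hN⟩ : ∃ N, ∀ b ≥ N, (2 * b + 4) ^ d < 2 ^ b ∧ (2 * b + 4) ^ e < 2 ^ b := by
    have h1 := subexp_poly (2 * Polynomial.X + 4)
    have h2 := (h1 d).and (h1 e)
    obtain ⟨N, hN⟩ := Filter.eventually_atTop.1 h2
    refine ⟨N, fun b hb => ?_⟩
    have h3 := hN b hb
    simpa using h3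
  obtain ⟨s, hs, hreq⟩ := req_often (j, d, n) (N + 1)
  obtain ⟨s', rfl⟩ : ∃ s', s = s' + 1 := ⟨s - 1, by omega⟩
  have hbs' : N ≤ w.b s' := by
    have h1 := w.le_a s'
    have h2 := w.le s'
    omega
  have hbs : N ≤ w.b (s' + 1) := hbs'.trans (w.b_mono (Nat.le_succ s'))
  have hval : ∀ y, w.a (s' + 1) ≤ ln k y → ln k y ≤ w.b (s' + 1) →
      w.X n (ln k y) = true ∧ ∃ v, F j (cw k y) = true :: f v := by
    intro y h1 h2
    have hX : w.X n (ln k y) = true := (w.iff _ _).2 ⟨s' + 1, by rw [hreq], h1, h2⟩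
    refine ⟨hX, ?_⟩
    have h3 : F j (cw k y) ∈ AS w K0 Q :=
      (hred _).1 ((cw_mem_iff w K0 hn hk2 y hX).2 (hdup y hX))
    rcases h3 with ⟨⟨m, x⟩, hx, hmQ, hmx, _, hXm⟩ | ⟨v, hv, _⟩
    · exfalso
      simp only at hx hmQ hmx hXm
      obtain ⟨t, ht, ht1, ht2⟩ := (w.iff _ _).1 hXm
      have hnk : n ≤ ln k y := hk2 ▸ unpair_le_ln k y
      have hFl : (F j (cw k y)).length = x.length + m + 2 := by
        rw [hx, List.length_cons, st_length]
      have hlow : ln k y ≤ (2 * x.length + 4) ^ d := by
        have h4 := hhon (cw k y)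
        rw [cw_length, hFl] at h4
        have h5 : (x.length + m + 2 + 2) ^ d ≤ (2 * x.length + 4) ^ d :=
          Nat.pow_le_pow_left (by omega) _
        omega
      have hupp : x.length ≤ (2 * ln k y + 4) ^ e := by
        have h4 := hlen (cw k y)
        rw [cw_length, hFl, hk2] at h4
        have h5 : (ln k y + n + 2 + 2) ^ e ≤ (2 * ln k y + 4) ^ e :=
          Nat.pow_le_pow_left (by omega) _
        omega
      rcases lt_trichotomy t (s' + 1) with h4 | h4 | h4
      · have h5 : x.length ≤ w.b s' := ht2.trans (w.b_mono (by omega))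
        have h6 : (2 * x.length + 4) ^ d ≤ (2 * w.b s' + 4) ^ d :=
          Nat.pow_le_pow_left (by omega) _
        have h7 := (hN (w.b s') hbs').1
        have h8 := w.succ s'
        omega
      · subst h4
        rw [hreq] at ht
        have h5 : n = m := ht
        rw [h5] at hnQ
        exact hnQ hmQ
      · have h5 : w.a (s' + 1 + 1) ≤ x.length := (w.a_mono (by omega)).trans ht1
        have h6 : (2 * ln k y + 4) ^ e ≤ (2 * w.b (s' + 1) + 4) ^ e :=
          Nat.pow_le_pow_left (by omega) _
        have h7 := (hN (w.b (s' + 1)) hbs).2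
        have h8 := w.succ (s' + 1)
        omega
    · exact ⟨v, hv⟩
  obtain ⟨z, z', hv, hz, hz'⟩ := w.viol (s' + 1)
  rw [hreq] at hv hz hz'
  simp only at hv hz hz'
  obtain ⟨hza, hv⟩ := hv
  obtain ⟨hX, hv1⟩ := hval z hza hz
  rcases hv with ⟨hne, hza', hF⟩ | hv | hv
  · obtain ⟨hX', _⟩ := hval z' hza' hz'
    exact hne (hone z z' hX hX' hF)
  · have h1 := hhon (cw k z)
    have h2 : z.length ≤ (cw k z).length := by
      rw [cw_length, ln]
      omega
    exact hv (h2.trans h1)
  · exact hv hv1

end MHon.Anti
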