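import Pool.Agent.Lib.MP_1a14d4_he.AntiComp
import Pool.Agent.Lib.MP_1a14d4_lc.Codes

/-!
# An infinite antichain of complete sets: the windows

Abstract setting: a class `FP` of functions on words, a computable enumeration `F` of it, and a
one-one function `f` with `|x| < 2 ^ |f x|` such that no one-one honest function of the class has its
range inside the range of `f`.  Every failure has a computable witness, and the lengths of witnesses
give sparse computable windows.
-/

namespace MHon.Anti

open Encodable

/-- the word `1^k 0 z` -/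
def st (k : ℕ) (z : W) : W := List.replicate k true ++ false :: z

theorem st_zero (z : W) : st 0 z = false :: z := rfl

theorem st_succ (k : ℕ) (z : W) : st (k + 1) z = true :: st k z := rfl

theorem st_length (k : ℕ) (z : W) : (st k z).length = z.length + k + 1 := by
  simp [st]
  omega

theorem st_inj : ∀ {k k' : ℕ} {z z' : W}, st k z = st k' z' → k = k' ∧ z = z'
  | 0, 0, z, z', h => by
    rw [st_zero, st_zero] at h
    exact ⟨rfl, (List.cons.inj h).2⟩
  | 0, k' + 1, z, z', h => by
    rw [st_zero, st_succ] at h
    exact absurd (List.cons.inj h).1 (by decide)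
  | k + 1, 0, z, z', h => by
    rw [st_zero, st_succ] at h
    exact absurd (List.cons.inj h).1 (by decide)
  | k + 1, k' + 1, z, z', h => by
    rw [st_succ, st_succ] at h
    obtain ⟨h1, h2⟩ := st_inj (List.cons.inj h).2
    exact ⟨by rw [h1], h2⟩

/-- the facts on the class of functions which are used -/
structure Enum (FP : (W → W) → Prop) (F : ℕ → W → W) : Prop where
  comp : ∀ f g, FP f → FP g → FP (fun x => f (g x))
  mem : ∀ j, FP (F j)
  surj : ∀ f, FP f → ∃ j, F j = f
  computable : Computable₂ F
  cons : ∀ b : Bool, FP (fun x => b :: x)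
  tail : FP List.tail
  len : ∀ f, FP f → ∃ e : ℕ, ∀ x : W, (f x).length ≤ (x.length + 2) ^ e

/-- the word `0 1^n 0 1 1^k 0 z`, where `k = ⟨j, n⟩` -/
def cw (k : ℕ) (z : W) : W := false :: st k.unpair.2 (true :: st k z)

/-- the length of `1 1^k 0 z` -/
def ln (k : ℕ) (z : W) : ℕ := z.length + k + 2

theorem cw_length (k : ℕ) (z : W) : (cw k z).length = ln k z + k.unpair.2 + 2 := by
  simp only [cw, ln, List.length_cons, st_length]

theorem unpair_le_ln (k : ℕ) (z : W) : k.unpair.2 ≤ ln k z := by
  have := Nat.unpair_right_le k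
  rw [ln]
  omega

theorem true_st_length (k : ℕ) (z : W) : (true :: st k z).length = ln k z := by
  simp only [ln, List.length_cons, st_length]

theorem Enum.st_mem {FP : (W → W) → Prop} {F : ℕ → W → W} (E : Enum FP F) (k : ℕ) :
    FP (st k) := by
  induction k with
  | zero => exact E.cons false
  | succ k ih => exact E.comp (fun x => true :: x) (st k) (E.cons true) ih

theorem Enum.cw_mem {FP : (W → W) → Prop} {F : ℕ → W → W} (E : Enum FP F) (k : ℕ) :
    FP (cw k) :=
  E.comp (fun x => false :: x) (fun x => st k.unpair.2 (true :: st k x)) (E.cons false)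
    (E.comp (st k.unpair.2) (fun x => true :: st k x) (E.st_mem _)
      (E.comp (fun x => true :: x) (st k) (E.cons true) (E.st_mem k)))

theorem Enum.comp_mem {FP : (W → W) → Prop} {F : ℕ → W → W} (E : Enum FP F) {f : W → W}
    (hf : FP f) : Computable f := by
  obtain ⟨j, rfl⟩ := E.surj f hf
  exact E.computable.comp (Computable.const j) Computable.id

/-! ### computability of the coding functions -/

theorem computable_pow : Computable₂ (fun a b : ℕ => a ^ b) :=
  (show Primrec₂ (fun a b : ℕ => a ^ b) from Primrec₂.unpaired'.1 Nat.Primrec.pow).to_comp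

theorem computable_st : Computable₂ st := by
  have h1 : Computable₂ (fun (_ : ℕ × W) (p : ℕ × W) => true :: p.2) :=
    Primrec.list_cons.to_comp.comp (Computable.const true) (Computable.snd.comp Computable.snd)
  have h2 : Computable (fun p : ℕ × W => false :: p.2) :=
    Primrec.list_cons.to_comp.comp (Computable.const false) Computable.snd
  refine (Computable.nat_rec (f := fun p : ℕ × W => p.1) Computable.fst h2 h1).of_eq fun p => ?_
  obtain ⟨k, z⟩ := p
  show Nat.rec (motive := fun _ => W) (false :: z) (fun _ ih => true :: ih) k = st k z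
  induction k with
  | zero => rfl
  | succ k ih =>
    show true :: _ = true :: st k z
    rw [ih]

theorem computable_cw : Computable₂ cw := by
  have h1 : Computable (fun p : ℕ × W => p.1.unpair.2) :=
    Computable.snd.comp (Primrec.unpair.to_comp.comp Computable.fst)
  have h2 : Computable (fun p : ℕ × W => true :: st p.1 p.2) :=
    Primrec.list_cons.to_comp.comp (Computable.const true) computable_st
  exact Primrec.list_cons.to_comp.comp (Computable.const false) (computable_st.comp h1 h2)

theorem computable_ln : Computable₂ ln := by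
  have h1 : Computable (fun p : ℕ × W => p.2.length) := Computable.list_length.comp Computable.snd
  have h2 : Computable₂ (fun a b : ℕ => a + b) := Primrec.nat_add.to_comp
  exact h2.comp (h2.comp h1 Computable.fst) (Computable.const 2)

/-! ### violations -/

/-- The pair `(z, z')` shows that on the lengths from `a` on the function `z ↦ F j (0 1^n 0 1 1^k 0 z)`,
`k = ⟨j, n⟩`, is not one-one, not honest with exponent `d`, or has not all its values in
`1 (range f)`. -/
def Viol (F : ℕ → W → W) (f : W → W) (j d n a : ℕ) (z z' : W) : Prop :=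
  a ≤ ln (Nat.pair j n) z ∧
    ((z' ≠ z ∧ a ≤ ln (Nat.pair j n) z' ∧
        F j (cw (Nat.pair j n) z') = F j (cw (Nat.pair j n) z)) ∨
      ¬ z.length ≤ ((F j (cw (Nat.pair j n) z)).length + 2) ^ d ∨
      ¬ ∃ v, F j (cw (Nat.pair j n) z) = true :: f v)

variable {FP : (W → W) → Prop} {F : ℕ → W → W} {f : W → W}

/-- Claim A: there are violations beyond every length -/
theorem exists_viol (E : Enum FP F)
    (hno : ∀ h, FP h → Function.Injective h →
      (∃ d : ℕ, ∀ x : W, x.length ≤ ((h x).length + 2) ^ d) → ¬ Set.range h ⊆ Set.range f)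
    (j d n a : ℕ) : ∃ z z', Viol F f j d n a z z' := by
  by_contra hcon
  push Not at hcon
  set k := Nat.pair j n with hk
  have hln : ∀ z, a ≤ ln k (st a z) := fun z => by rw [ln, st_length]; omega
  have h1 : ∀ z : W, ∃ v, F j (cw k (st a z)) = true :: f v := by
    intro z
    by_contra hv
    exact hcon (st a z) (st a z) ⟨hln z, Or.inr (Or.inr hv)⟩
  have h2 : ∀ z : W, (st a z).length ≤ ((F j (cw k (st a z))).length + 2) ^ d := by
    intro z
    by_contra hv
    exact hcon (st a z) (st a z) ⟨hln z, Or.inr (Or.inl hv)⟩
  have h3 : ∀ z z' : W, F j (cw k (st a z')) = F j (cw k (st a z)) → z' = z := by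
    intro z z' he
    by_contra hv
    refine hcon (st a z) (st a z') ⟨hln z, Or.inl ⟨fun h => hv (st_inj h).2, hln z', he⟩⟩
  refine hno (fun z => (F j (cw k (st a z))).tail) ?_ ?_ ⟨2 * d, ?_⟩ ?_
  · exact E.comp _ _ E.tail (E.comp _ _ (E.mem j) (E.comp _ _ (E.cw_mem k) (E.st_mem a)))
  · intro z z' h
    obtain ⟨v, hv⟩ := h1 z
    obtain ⟨v', hv'⟩ := h1 z'
    refine (h3 z' z ?_)
    simp only [hv, hv', List.tail_cons] at h
    rw [hv, hv', h]
  · intro z
    obtain ⟨v, hv⟩ := h1 z
    have h4 := h2 z
    simp only [hv, List.tail_cons, List.length_cons, st_length] at h4 ⊢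
    have h5 : ((f v).length + 1 + 2) ^ d ≤ ((f v).length + 2) ^ (2 * d) := by
      rw [pow_mul]
      refine Nat.pow_le_pow_left ?_ _
      nlinarith
    omega
  · rintro _ ⟨z, rfl⟩
    obtain ⟨v, hv⟩ := h1 z
    exact ⟨v, by simp only [hv, List.tail_cons]⟩

/-- the range of `f` is decidable -/
theorem exists_rangeTest (hfc : Computable f) (hexp : ∀ x : W, x.length < 2 ^ (f x).length) :
    ∃ R : W → Bool, Computable R ∧ ∀ y, R y = true ↔ ∃ v, y = true :: f v := by
  have h1 : Computable₂ (fun y v : W => decide (y = true :: f v)) := by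
    have h2 : Computable₂ (fun a b : W => decide (a = b)) := Primrec.eq.decide.to_comp
    exact h2.comp Computable.fst (Primrec.list_cons.to_comp.comp (Computable.const true)
      (hfc.comp Computable.snd))
  have h3 : Computable (fun y : W => 2 ^ y.length) := by
    have h4 : Computable₂ (fun a b : ℕ => a ^ b) := computable_pow
    exact h4.comp (Computable.const 2) Computable.list_length
  obtain ⟨R, hR, hR2⟩ := computable_wex h1 h3
  refine ⟨R, hR, fun y => ?_⟩
  rw [hR2]
  constructor
  · rintro ⟨v, _, hv⟩
    exact ⟨v, by simpa using hv⟩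
  · rintro ⟨v, rfl⟩
    refine ⟨v, ?_, by simp⟩
    have := hexp v
    have h4 : 2 ^ (f v).length ≤ 2 ^ (true :: f v).length :=
      Nat.pow_le_pow_right (by norm_num) (by simp)
    omega

/-- violations are decidable -/
theorem exists_violTest (E : Enum FP F) (hf : FP f) (hexp : ∀ x : W, x.length < 2 ^ (f x).length) :
    ∃ V : (ℕ × ℕ × ℕ × ℕ) × (W × W) → Bool, Computable V ∧
      ∀ j d n a z z', V ((j, d, n, a), (z, z')) = true ↔ Viol F f j d n a z z' := by
  obtain ⟨R, hR, hR2⟩ := exists_rangeTest (E.comp_mem hf) hexp
  let α := (ℕ × ℕ × ℕ × ℕ) × (W × W)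
  have cj : Computable (fun p : α => p.1.1) := Computable.fst.comp Computable.fst
  have cd : Computable (fun p : α => p.1.2.1) :=
    Computable.fst.comp (Computable.snd.comp Computable.fst)
  have cn : Computable (fun p : α => p.1.2.2.1) :=
    Computable.fst.comp (Computable.snd.comp (Computable.snd.comp Computable.fst))
  have ca : Computable (fun p : α => p.1.2.2.2) :=
    Computable.snd.comp (Computable.snd.comp (Computable.snd.comp Computable.fst))
  have cz : Computable (fun p : α => p.2.1) := Computable.fst.comp Computable.snd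
  have cz' : Computable (fun p : α => p.2.2) := Computable.snd.comp Computable.snd
  have ck : Computable (fun p : α => Nat.pair p.1.1 p.1.2.2.1) :=
    Primrec₂.natPair.to_comp.comp cj cn
  have cl : Computable (fun p : α => ln (Nat.pair p.1.1 p.1.2.2.1) p.2.1) :=
    computable_ln.comp ck cz
  have cl' : Computable (fun p : α => ln (Nat.pair p.1.1 p.1.2.2.1) p.2.2) :=
    computable_ln.comp ck cz'
  have cF : Computable (fun p : α => F p.1.1 (cw (Nat.pair p.1.1 p.1.2.2.1) p.2.1)) :=
    E.computable.comp cj (computable_cw.comp ck cz)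
  have cF' : Computable (fun p : α => F p.1.1 (cw (Nat.pair p.1.1 p.1.2.2.1) p.2.2)) :=
    E.computable.comp cj (computable_cw.comp ck cz')
  have ceq : Computable₂ (fun a b : W => decide (a = b)) := Primrec.eq.decide.to_comp
  have cle : Computable₂ (fun a b : ℕ => decide (a ≤ b)) := Primrec.nat_le.decide.to_comp
  have cpow : Computable₂ (fun a b : ℕ => a ^ b) := computable_pow
  have cnot : Computable (fun b : Bool => !b) := Primrec.not.to_comp
  have cand : Computable₂ (fun a b : Bool => a && b) := Primrec.and.to_comp
  have cor : Computable₂ (fun a b : Bool => a || b) := Primrec.or.to_comp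
  have t1 := cle.comp ca cl
  have t2 := cnot.comp (ceq.comp cz' cz)
  have t3 := cle.comp ca cl'
  have t4 := ceq.comp cF' cF
  have t5 := cle.comp (Computable.list_length.comp cz)
    (cpow.comp (Computable.succ.comp (Computable.succ.comp (Computable.list_length.comp cF))) cd)
  have t6 := cnot.comp t5
  have t7 := cnot.comp (hR.comp cF)
  refine ⟨_, cand.comp t1 (cor.comp (cand.comp t2 (cand.comp t3 t4)) (cor.comp t6 t7)), ?_⟩
  intro j d n a z z'
  have hR3 := hR2 (F j (cw (Nat.pair j n) z))
  simp only [Bool.and_eq_true, Bool.or_eq_true, decide_eq_true_eq, Bool.not_eq_true',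
    decide_eq_false_iff_not, Viol, ne_eq, Nat.succ_eq_add_one]
  rw [← Bool.not_eq_true, hR3]

end MHon.Anti
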