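import Pool.Agent.Lib.MP_1a14d4_he.AntiStage

/-!
# Sparse computable windows, each with a violation
-/

namespace MHon.Anti

open Encodable

variable {FP : (W → W) → Prop} {F : ℕ → W → W} {f : W → W}

/-- a computable bound for the lengths of a violation -/
theorem exists_bound (E : Enum FP F) (hf : FP f) (hexp : ∀ x : W, x.length < 2 ^ (f x).length)
    (hno : ∀ h, FP h → Function.Injective h →
      (∃ d : ℕ, ∀ x : W, x.length ≤ ((h x).length + 2) ^ d) → ¬ Set.range h ⊆ Set.range f) :
    ∃ B : ℕ × ℕ × ℕ × ℕ → ℕ, Computable B ∧ ∀ j d n a, ∃ z z', Viol F f j d n a z z' ∧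
      ln (Nat.pair j n) z ≤ B (j, d, n, a) ∧ ln (Nat.pair j n) z' ≤ B (j, d, n, a) := by
  obtain ⟨V, hV, hV2⟩ := exists_violTest E hf hexp
  have h1 : Computable₂ (fun (q : ℕ × ℕ × ℕ × ℕ) (m : ℕ) =>
      ((decode m : Option (W × W)).elim false fun p => V (q, p))) := by
    have h2 : Computable₂ (fun (x : (ℕ × ℕ × ℕ × ℕ) × ℕ) (p : W × W) => V (x.1, p)) :=
      hV.comp (Computable.pair (Computable.fst.comp Computable.fst) Computable.snd)
    have h5 := Computable.option_casesOn
      (o := fun x : (ℕ × ℕ × ℕ × ℕ) × ℕ => (decode x.2 : Option (W × W)))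
      (f := fun _ => false) (Computable.decode.comp Computable.snd) (Computable.const false) h2
    refine h5.of_eq fun x => ?_
    dsimp only
    cases (decode x.2 : Option (W × W)) <;> rfl
  have h3 : ∀ q : ℕ × ℕ × ℕ × ℕ, ∃ m,
      ((decode m : Option (W × W)).elim false fun p => V (q, p)) = true := by
    rintro ⟨j, d, n, a⟩
    obtain ⟨z, z', hz⟩ := exists_viol E hno j d n a
    exact ⟨encode (z, z'), by rw [encodek]; exact (hV2 j d n a z z').2 hz⟩
  obtain ⟨g, hg, hg2⟩ := computable_find h1 h3
  have hp : Computable (fun q : ℕ × ℕ × ℕ × ℕ => ((decode (g q) : Option (W × W))).getD ([], [])) := by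
    have h4 : Computable (fun o : Option (W × W) => o.getD ([], [])) := by
      have := (Primrec.option_getD (α := W × W)).to_comp.comp
        (Computable.id (α := Option (W × W))) (Computable.const (([], []) : W × W))
      exact this
    exact h4.comp (Computable.decode.comp hg)
  have ck : Computable (fun q : ℕ × ℕ × ℕ × ℕ => Nat.pair q.1 q.2.2.1) :=
    Primrec₂.natPair.to_comp.comp Computable.fst
      (Computable.fst.comp (Computable.snd.comp Computable.snd))
  refine ⟨fun q => max (ln (Nat.pair q.1 q.2.2.1) (((decode (g q) : Option (W × W))).getD ([], [])).1)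
    (ln (Nat.pair q.1 q.2.2.1) (((decode (g q) : Option (W × W))).getD ([], [])).2), ?_, ?_⟩
  · exact Primrec.nat_max.to_comp.comp (computable_ln.comp ck (Computable.fst.comp hp))
      (computable_ln.comp ck (Computable.snd.comp hp))
  · intro j d n a
    have h5 := hg2 (j, d, n, a)
    cases hd : (decode (g (j, d, n, a)) : Option (W × W)) with
    | none => rw [hd] at h5; simp at h5
    | some p =>
      rw [hd] at h5
      refine ⟨p.1, p.2, (hV2 j d n a p.1 p.2).1 h5, ?_, ?_⟩
      · simp only [hd, Option.getD_some]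
        exact le_max_left _ _
      · simp only [hd, Option.getD_some]
        exact le_max_right _ _

/-- the requirement of the stage `s` -/
def req (s : ℕ) : ℕ × ℕ × ℕ :=
  (s.unpair.1.unpair.1, s.unpair.1.unpair.2.unpair.1, s.unpair.1.unpair.2.unpair.2)

theorem req_often (q : ℕ × ℕ × ℕ) (N : ℕ) : ∃ s, N ≤ s ∧ req s = q := by
  refine ⟨Nat.pair (Nat.pair q.1 (Nat.pair q.2.1 q.2.2)) N, Nat.right_le_pair _ _, ?_⟩
  simp [req]

theorem computable_req : Computable req := by
  have hu : Computable Nat.unpair := Primrec.unpair.to_comp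
  have h1 : Computable (fun s : ℕ => s.unpair.1) := Computable.fst.comp hu
  have h2 : Computable (fun s : ℕ => s.unpair.1.unpair) := hu.comp h1
  have h3 : Computable (fun s : ℕ => s.unpair.1.unpair.2.unpair) :=
    hu.comp (Computable.snd.comp h2)
  exact Computable.pair (Computable.fst.comp h2)
    (Computable.pair (Computable.fst.comp h3) (Computable.snd.comp h3))

/-- the windows -/
structure Windows (F : ℕ → W → W) (f : W → W) where
  /-- the left ends -/
  a : ℕ → ℕ
  /-- the right ends -/
  b : ℕ → ℕ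
  /-- the lengths in the windows of the number `n` -/
  X : ℕ → ℕ → Bool
  hX : Computable₂ X
  le : ∀ s, a s ≤ b s
  succ : ∀ s, a (s + 1) = b s + 2 ^ b s
  iff : ∀ n l, X n l = true ↔ ∃ s, (req s).2.2 = n ∧ a s ≤ l ∧ l ≤ b s
  viol : ∀ s, ∃ z z', Viol F f (req s).1 (req s).2.1 (req s).2.2 (a s) z z' ∧
    ln (Nat.pair (req s).1 (req s).2.2) z ≤ b s ∧ ln (Nat.pair (req s).1 (req s).2.2) z' ≤ b s

theorem exists_windows (E : Enum FP F) (hf : FP f) (hexp : ∀ x : W, x.length < 2 ^ (f x).length)
    (hno : ∀ h, FP h → Function.Injective h →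
      (∃ d : ℕ, ∀ x : W, x.length ≤ ((h x).length + 2) ^ d) → ¬ Set.range h ⊆ Set.range f) :
    Nonempty (Windows F f) := by
  obtain ⟨B, hB, hB2⟩ := exists_bound E hf hexp hno
  let bnd : ℕ → ℕ → ℕ := fun s a => B ((req s).1, (req s).2.1, (req s).2.2, a)
  have hbnd : Computable₂ bnd := by
    have h1 : Computable (fun p : ℕ × ℕ => req p.1) := computable_req.comp Computable.fst
    exact hB.comp (Computable.pair (Computable.fst.comp h1)
      (Computable.pair (Computable.fst.comp (Computable.snd.comp h1))
        (Computable.pair (Computable.snd.comp (Computable.snd.comp h1)) Computable.snd)))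
  have cadd : Computable₂ (fun x y : ℕ => x + y) := Primrec.nat_add.to_comp
  obtain ⟨a, ha, hsucc⟩ : ∃ a : ℕ → ℕ, Computable a ∧
      ∀ s, a (s + 1) = bnd s (a s) + 2 ^ bnd s (a s) := by
    refine ⟨fun s => Nat.rec (motive := fun _ => ℕ) 0
      (fun s ih => bnd s ih + 2 ^ bnd s ih) s, ?_, fun s => rfl⟩
    have h1 : Computable₂ (fun (_ : ℕ) (p : ℕ × ℕ) => bnd p.1 p.2 + 2 ^ bnd p.1 p.2) := by
      have h2 : Computable (fun x : ℕ × (ℕ × ℕ) => bnd x.2.1 x.2.2) :=
        hbnd.comp (Computable.fst.comp Computable.snd) (Computable.snd.comp Computable.snd)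
      exact cadd.comp h2 (computable_pow.comp (Computable.const 2) h2)
    exact Computable.nat_rec Computable.id (Computable.const 0) h1
  have hb : Computable (fun s => bnd s (a s)) := hbnd.comp Computable.id ha
  have hle : ∀ s, a s ≤ bnd s (a s) := by
    intro s
    obtain ⟨z, z', hv, hz, _⟩ := hB2 (req s).1 (req s).2.1 (req s).2.2 (a s)
    exact hv.1.trans hz
  have hs : ∀ s, s ≤ a s := by
    intro s
    induction s with
    | zero => exact Nat.zero_le _
    | succ s ih =>
      rw [hsucc]
      have h1 := hle s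
      have h2 : 1 ≤ 2 ^ bnd s (a s) := Nat.one_le_two_pow
      omega
  have h1 : Computable₂ (fun (p : ℕ × ℕ) (s : ℕ) => (decide ((req s).2.2 = p.1) &&
      (decide (a s ≤ p.2) && decide (p.2 ≤ bnd s (a s))) : Bool)) := by
    have ceq : Computable₂ (fun a b : ℕ => decide (a = b)) := Primrec.eq.decide.to_comp
    have cle : Computable₂ (fun a b : ℕ => decide (a ≤ b)) := Primrec.nat_le.decide.to_comp
    have cand : Computable₂ (fun a b : Bool => a && b) := Primrec.and.to_comp
    have c1 : Computable (fun x : (ℕ × ℕ) × ℕ => x.1.1) := Computable.fst.comp Computable.fst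
    have c2 : Computable (fun x : (ℕ × ℕ) × ℕ => x.1.2) := Computable.snd.comp Computable.fst
    have c3 : Computable (fun x : (ℕ × ℕ) × ℕ => x.2) := Computable.snd
    have c4 : Computable (fun x : (ℕ × ℕ) × ℕ => a x.2) := ha.comp c3
    have c5 : Computable (fun x : (ℕ × ℕ) × ℕ => bnd x.2 (a x.2)) := hb.comp c3
    have c6 : Computable (fun x : (ℕ × ℕ) × ℕ => (req x.2).2.2) :=
      Computable.snd.comp (Computable.snd.comp (computable_req.comp c3))
    have d1 := ceq.comp c6 c1
    have d2 := cle.comp c4 c2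
    have d3 := cle.comp c2 c5
    exact cand.comp d1 (cand.comp d2 d3)
  obtain ⟨r, hr, hr2⟩ := computable_bex h1 (b := fun p : ℕ × ℕ => p.2 + 1)
    (Computable.succ.comp Computable.snd)
  refine ⟨⟨a, fun s => bnd s (a s), fun n l => r (n, l), hr, hle, hsucc, ?_, ?_⟩⟩
  · intro n l
    rw [hr2]
    constructor
    · rintro ⟨s, _, h⟩
      simp only [Bool.and_eq_true, decide_eq_true_eq] at h
      exact ⟨s, h⟩
    · rintro ⟨s, h⟩
      refine ⟨s, ?_, ?_⟩
      · have := hs s
        show s < l + 1
        omega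
      · simp only [Bool.and_eq_true, decide_eq_true_eq]
        exact h
  · intro s
    exact hB2 (req s).1 (req s).2.1 (req s).2.2 (a s)

namespace Windows

variable (w : Windows F f)

theorem lt_succ (s : ℕ) : w.b s < w.a (s + 1) := by
  rw [w.succ]
  have : 1 ≤ 2 ^ w.b s := Nat.one_le_two_pow
  omega

theorem le_a (s : ℕ) : s ≤ w.a s := by
  induction s with
  | zero => exact Nat.zero_le _
  | succ s ih =>
    have h1 := w.le s
    have h2 := w.lt_succ s
    omega

theorem a_mono : Monotone w.a := by
  refine monotone_nat_of_le_succ fun s => ?_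
  have h1 := w.le s
  have h2 := w.lt_succ s
  omega

theorem b_mono : Monotone w.b := by
  refine monotone_nat_of_le_succ fun s => ?_
  have h1 := w.le (s + 1)
  have h2 := w.lt_succ s
  omega

end Windows

end MHon.Anti
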