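import Pool.Agent.Lib.MP_1a14d4_he.Defs
import Pool.Agent.Lib.MP_1a14d4_lc.Univ
import Pool.Agent.Lib.MP_1a14d4_lc.Parse

/-!
# Words and numbers, the enumeration of FP, the column of an index, the sets `D`
(definitions of the proof)
-/

namespace MHE

/-! ### Words and numbers -/

/-- the number of a word: a bijection from the words onto the natural numbers, and a shorter word has
a smaller number -/
def num : W → ℕ
  | [] => 0
  | b :: w => 2 * num w + (if b then 2 else 1)

/-- one step of the inverse of `num` -/
def wstep (p : ℕ × W) : ℕ × W :=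
  if p.1 = 0 then p else ((p.1 - 1) / 2, p.2 ++ [decide ((p.1 - 1) % 2 = 1)])

/-- the word with the number `n` -/
def wordOf (n : ℕ) : W := (wstep^[n] (n, [])).2

/-! ### The column of an index -/

/-- the word number `w` of the column `i` -/
def st (i : ℕ) (w : W) : W := List.replicate i true ++ false :: w

/-- the number of the column of `x` -/
def idx (x : W) : ℕ := (x.takeWhile (fun b => b)).length

/-- `x = st (idx x) (arg x)` if `x` is not of the form `1 ^ n` -/
def arg (x : W) : W := (x.dropWhile (fun b => b)).tail

/-! ### The enumeration of FP -/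

/-- the enumeration of FP: the table of a word is run for `(|x| + 2) ^ κ` steps -/
def F (i : ℕ) (x : W) : W :=
  MHon.univ (MHon.parseT (wordOf i.unpair.1)) (x.map some) ((x.length + 2) ^ i.unpair.2)

/-- the truncated version: at most `N` steps -/
def FT (i : ℕ) (x : W) (N : ℕ) : W :=
  MHon.univ (MHon.parseT (wordOf i.unpair.1)) (x.map some) (min ((x.length + 2) ^ i.unpair.2) N)

/-- the value of the reduction number `i` on the column `i` -/
def yv (i : ℕ) (w : W) : W := F i (st i w)

/-- the word with the smallest number which has the same value as `w` on the column `i` -/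
def w0 (i : ℕ) (w : W) : W :=
  wordOf (((List.range (num w)).find? fun m => decide (yv i (wordOf m) = yv i w)).getD (num w))

/-- the first number `c ≤ 2|v| + 2` such that the value at `st c v` has length `> log |v|` -/
def uc (i : ℕ) (v : W) : ℕ :=
  ((List.range (2 * v.length + 3)).find? fun c =>
    decide (v.length < 2 ^ (yv i (st c v)).length)).getD 0

/-- a function with its range in the range of `yv i`; if `yv i` is one-to-one, then so is `G i`, and
`|v| < 2 ^ |G i v|` -/
def G (i : ℕ) (v : W) : W := yv i (st (uc i v) v)

/-- The candidate `k` for a honest injection into the range of `G i` is refuted at stage `n`. -/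
def Bad (i k n : ℕ) : Prop :=
  (∃ a < 2 ^ n, ∃ b < 2 ^ n, a ≠ b ∧ F k.unpair.1 (wordOf a) = F k.unpair.1 (wordOf b)) ∨
  (∃ a < 2 ^ n, ((F k.unpair.1 (wordOf a)).length + 2) ^ k.unpair.2 < (wordOf a).length) ∨
  (∃ a < 2 ^ n, ∀ v < 2 ^ 2 ^ (F k.unpair.1 (wordOf a)).length,
    G i (wordOf v) ≠ F k.unpair.1 (wordOf a))

open Classical in
/-- the first candidate `k ≤ n` which is not refuted at stage `n` -/
noncomputable def kk (i n : ℕ) : ℕ :=
  ((List.range (n + 1)).find? fun k => decide (¬ Bad i k n)).getD 0

/-! ### The diagonal set for RE -/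

/-- The default clause: `x` is decoded by the current candidate. -/
def DefR (K : Set W) (i : ℕ) (w : W) : Prop := ∃ z ∈ K, F (kk i w.length).unpair.1 z = yv i w

/-- membership of `st i w` in the diagonal set -/
def PR (K : Set W) (i : ℕ) (w : W) : Prop :=
  w0 i w = w ∧ ((∃ v, v ≠ w ∧ yv i v = yv i w) ∨ DefR K i w)

/-- the diagonal set for RE -/
def DR (K : Set W) : Set W := {x | PR K (idx x) (arg x)}

/-- `B` is one-to-one reducible to `K` by functions of FP with long values (padding) -/
def Padded (B K : Set W) : Prop :=
  ∀ m : ℕ, ∃ g, FP g ∧ Function.Injective g ∧ (∀ x : W, (x.length + m) ^ m < (g x).length) ∧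
    ∀ x, x ∈ B ↔ g x ∈ K

end MHE
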