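import Pool.Agent.Lib.MP_1a14d4_he.Base
import Pool.Agent.Lib.MP_1a14d4_lc.DefsU

/-!
# The universal set and the diagonal set for NEXP (definitions of the proof)
-/

namespace MHE

open Pool.Agent.Lib.PolyTime

/-! ### The universal set -/

/-- The universal predicate: `z` is the word of a tree `(e, x, s, n)`, and the automaton with the
table `e` accepts `x # g` after `2 ^ n ≤ N` steps, where `|g| ≤ 2 ^ s`. -/
def UK (z g : W) (N : ℕ) : Bool :=
  (List.range (N + 1)).any fun m =>
    decide (m = 2 ^ MHon.decN (MHon.parseT z).right.right.right) &&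
    (decide (g.length ≤ 2 ^ MHon.decN (MHon.parseT z).right.right.left) &&
      decide (MHon.univ (MHon.parseT z).left
        (pairWord (MHon.decW (MHon.parseT z).right.left, g)) m = [true]))

/-- the universal set for NEXP -/
def KU : Set W := {z | ∃ g : W, g.length ≤ 2 ^ z.length ∧ UK z g (2 ^ z.length) = true}

/-! ### The diagonal set -/

/-- the word `1 ^ ((|z| + 2) ^ r) 0 z` -/
def pad (r : ℕ) (z : W) : W := st ((z.length + 2) ^ r) z

/-- the exponent of the padding -/
def rr (i k : ℕ) : ℕ := 2 * (i + 2) * (k + 1) + 1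

/-- The word `g` shows that `st i w` belongs to the diagonal set, if `w` is the least word of its
class: either `g` is another word with the same value, or `g` is a witness for a word `z` of `KU`
which is decoded by the current candidate `k`. -/
def EV (ks : ℕ → ℕ → ℕ) (i : ℕ) (w g : W) : Prop :=
  g.length ≤ 2 ^ w.length ∧
    ((g ≠ w ∧ yv i g = yv i w) ∨
      ∃ z : W, z.length ≤ w.length ∧
        F (ks i w.length).unpair.1 (pad (rr i (ks i w.length)) z) = yv i w ∧
        g.length ≤ 2 ^ z.length ∧ UK z g (2 ^ z.length) = true)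

/-- membership of `st i w` in the diagonal set -/
def PN (ks : ℕ → ℕ → ℕ) (i : ℕ) (w : W) : Prop :=
  (w0 i w = w ∧ ∃ g, EV ks i w g) ∨
    (w0 i w ≠ w ∧ 2 ^ (w0 i w).length < w.length ∧ ¬ ∃ g, EV ks i (w0 i w) g)

/-- the diagonal set for NEXP -/
def DN (ks : ℕ → ℕ → ℕ) : Set W := {x | PN ks (idx x) (arg x)}

/-! ### Truncated versions, computable in polynomial time in `N` -/

/-- the truncated value on the column `i` -/
def yT (i : ℕ) (w : W) (N : ℕ) : W := FT i (st i w) N

/-- truncated version of `w0` -/
def w0T (i : ℕ) (w : W) (N : ℕ) : W :=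
  (((List.range N).find? fun m => decide (yT i (wordOf m) N = yT i w N)).map wordOf).getD w

/-- truncated version of `EV` -/
def EVT (ks : ℕ → ℕ → ℕ) (i : ℕ) (w g : W) (N : ℕ) : Bool :=
  decide (g.length ≤ 2 ^ w.length) &&
    ((decide (g ≠ w) && decide (yT i g N = yT i w N)) ||
      (List.range N).any fun m =>
        decide ((wordOf m).length ≤ w.length) &&
        (decide (FT (ks i w.length).unpair.1
            (st (min (((wordOf m).length + 2) ^ rr i (ks i w.length)) N) (wordOf m)) N = yT i w N) &&
          (decide (g.length ≤ 2 ^ (wordOf m).length) && UK (wordOf m) g N)))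

/-- truncated version of `PN` -/
def PNT (ks : ℕ → ℕ → ℕ) (i : ℕ) (w g : W) (N : ℕ) : Bool :=
  if w0T i w N = w then EVT ks i w g N
  else decide (2 ^ (w0T i w N).length < w.length) &&
    (List.range N).all fun m => !EVT ks i (w0T i w N) (wordOf m) N

end MHE
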