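import Pool.Agent.Lib.MP_1a14d4_he.TSpec

/-!
# `N = 2 ^ p(n)` is large

Elementary inequalities: the number `2 ^ ((n + 4) ^ 6)` is large in the sense of `Big`.
-/

namespace MHE

theorem big_pow (n : ℕ) : Big n (2 ^ ((n + 4) ^ 6)) := by
  have hpos : 0 < (2 : ℕ) := by norm_num
  have hn4 : 1 ≤ n + 4 := by omega
  have hmono : ∀ {a b : ℕ}, a ≤ b → 2 ^ a ≤ 2 ^ b := fun h => Nat.pow_le_pow_right hpos h
  have hlt : ∀ m : ℕ, m + 1 ≤ 2 ^ m := fun m => Nat.lt_two_pow_self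
  -- powers of `n + 4`
  have hpw : ∀ {a b : ℕ}, a ≤ b → (n + 4) ^ a ≤ (n + 4) ^ b := fun h => Nat.pow_le_pow_right hn4 h
  have hrr : rr n n ≤ (n + 4) ^ 3 := by
    unfold rr
    have e : (n + 4) ^ 3 = n ^ 3 + 12 * n ^ 2 + 48 * n + 64 := by ring
    have e2 : 2 * (n + 2) * (n + 1) + 1 = 2 * n ^ 2 + 6 * n + 5 := by ring
    rw [e, e2]
    have h1 : 2 * n ^ 2 ≤ 12 * n ^ 2 := Nat.mul_le_mul_right _ (by norm_num)
    have h2 : 0 ≤ n ^ 3 := Nat.zero_le _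
    omega
  have h3' : (n + 2) ^ rr n n ≤ 2 ^ ((n + 4) ^ 4) := by
    calc (n + 2) ^ rr n n ≤ (2 ^ (n + 2)) ^ rr n n :=
          Nat.pow_le_pow_left ((Nat.le_succ _).trans (hlt (n + 2))) _
      _ = 2 ^ ((n + 2) * rr n n) := by rw [← pow_mul]
      _ ≤ 2 ^ ((n + 4) ^ 4) := by
          apply hmono
          calc (n + 2) * rr n n ≤ (n + 4) * (n + 4) ^ 3 := Nat.mul_le_mul (by omega) hrr
            _ = (n + 4) ^ 4 := by ring
  have hA : (n + 4) ^ 4 + (n + 3) ≤ (n + 4) ^ 5 := by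
    have e : (n + 4) ^ 5 = (n + 4) ^ 4 + (n + 3) * (n + 4) ^ 4 := by ring
    rw [e]
    have h1 : 1 ≤ (n + 4) ^ 4 := Nat.one_le_pow _ _ hn4
    have h2 : (n + 3) * 1 ≤ (n + 3) * (n + 4) ^ 4 := Nat.mul_le_mul_left _ h1
    omega
  refine ⟨hmono ?_, ?_, h3'.trans (hmono (hpw (by norm_num))), ?_⟩
  · calc n + 1 ≤ (n + 4) ^ 1 := by rw [pow_one]; omega
      _ ≤ (n + 4) ^ 6 := hpw (by norm_num)
  · have h1 : n + 2 ^ n + 3 ≤ 2 ^ (n + 3) := by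
      have e : (2 : ℕ) ^ (n + 3) = 8 * 2 ^ n := by rw [pow_add]; ring
      have := hlt n
      rw [e]; omega
    calc (n + 2 ^ n + 3) ^ n ≤ (2 ^ (n + 3)) ^ n := Nat.pow_le_pow_left h1 _
      _ = 2 ^ ((n + 3) * n) := by rw [← pow_mul]
      _ ≤ 2 ^ ((n + 4) ^ 6) := by
          apply hmono
          calc (n + 3) * n ≤ (n + 4) * (n + 4) := Nat.mul_le_mul (by omega) (by omega)
            _ = (n + 4) ^ 2 := by ring
            _ ≤ (n + 4) ^ 6 := hpw (by norm_num)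
  · have h1 : (n + 2) ^ rr n n + n + 3 ≤ 2 ^ ((n + 4) ^ 4 + (n + 3)) := by
      have hX : 1 ≤ 2 ^ ((n + 4) ^ 4) := Nat.one_le_pow _ _ hpos
      have hY := hlt (n + 3)
      generalize hXe : (2 : ℕ) ^ ((n + 4) ^ 4) = X at *
      have h5 : X * (n + 3 + 1) ≤ X * 2 ^ (n + 3) := Nat.mul_le_mul_left _ hY
      have h6 : (n + 3) * 1 ≤ (n + 3) * X := Nat.mul_le_mul_left _ hX
      have h7 : X * (n + 3 + 1) = X + (n + 3) * X := by ring
      rw [pow_add, hXe]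
      omega
    calc ((n + 2) ^ rr n n + n + 3) ^ n ≤ (2 ^ ((n + 4) ^ 4 + (n + 3))) ^ n :=
          Nat.pow_le_pow_left h1 _
      _ = 2 ^ (((n + 4) ^ 4 + (n + 3)) * n) := by rw [← pow_mul]
      _ ≤ 2 ^ ((n + 4) ^ 6) := by
          apply hmono
          calc ((n + 4) ^ 4 + (n + 3)) * n ≤ (n + 4) ^ 5 * (n + 4) :=
                Nat.mul_le_mul hA (by omega)
            _ = (n + 4) ^ 6 := by ring

end MHE
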