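import Pool.Agent.Lib.MP_1a14d4_he.NumW
import Pool.Agent.Lib.MP_4d246d_lc.EB.Rev
import Pool.Agent.Lib.MP_1a14d4_lc.Codes

/-!
# FP is the class of the functions `PolyF` of the library; the enumeration of FP

A Turing machine is simulated by a table, and conversely `PolyF.tm2`. Every function of FP is `F i`
for some `i`.
-/

namespace MHE

open Pool.Agent.Lib.PolyTime

private theorem fpoly_run (e : T) {n : W → ℕ} (hn : PolyF n) :
    PolyF (fun x : W => MHon.univ e (x.map some) (n x)) := by
  have h2 : PolyF (fun x : W => x.map some) :=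
    PolyF.id.map (h := fun _ b => some b) PolyF.snd'.some
  exact MHon.polyF_univ.comp ((PolyF.const e).pair (h2.pair hn))

theorem fp_iff {f : W → W} : FP f ↔ PolyF f := by
  constructor
  · intro hf
    obtain ⟨e, P, hP⟩ := Pool.Agent.Simplex.EB.exists_table_bool hf
    have h1 : PolyF (fun x : W => P.eval x.length) :=
      Pool.Agent.Simplex.EB.polyF_peval P PolyF.id.length
    exact (fpoly_run e h1).congr fun x => hP x _ le_rfl
  · intro hf
    exact hf.tm2 (ea := fun x : W => x) (eb := fun y : W => y) (fun _ => rfl)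

theorem fp_F (i : ℕ) : FP (F i) := by
  rw [fp_iff]
  exact fpoly_run _ ((PolyF.id.length.natAdd (PolyF.const 2)).natPow _)

theorem exists_F {f : W → W} (hf : FP f) : ∃ i, F i = f := by
  obtain ⟨e, P, hP⟩ := Pool.Agent.Simplex.EB.exists_table_bool hf
  obtain ⟨κ, hκ⟩ := MHon.poly_le P
  refine ⟨Nat.pair (num (wd false true e)) κ, ?_⟩
  funext x
  have h1 : MHon.parseT (wordOf (Nat.pair (num (wd false true e)) κ).unpair.1) = e := by
    rw [Nat.unpair_pair, wordOf_num]
    exact MHon.parseT_wd e
  have h2 : (Nat.pair (num (wd false true e)) κ).unpair.2 = κ := by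
    rw [Nat.unpair_pair]
  unfold F
  rw [h1, h2]
  exact hP x _ (hκ x.length)

theorem length_F (i : ℕ) (x : W) :
    (F i x).length ≤ x.length + (x.length + 2) ^ i.unpair.2 + 1 := by
  have h := MHon.univ_length (MHon.parseT (wordOf i.unpair.1)) (x.map some)
    ((x.length + 2) ^ i.unpair.2)
  rw [List.length_map] at h
  exact h

/-- the truncated version is correct if `N` is not smaller than the time -/
theorem FT_eq {i N : ℕ} {x : W} (h : (x.length + 2) ^ i.unpair.2 ≤ N) : FT i x N = F i x := by
  unfold FT F
  rw [min_eq_left h]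

theorem FP.comp {f g : W → W} (hf : FP f) (hg : FP g) : FP (fun x => f (g x)) := by
  rw [fp_iff] at hf hg ⊢
  exact PolyF.comp hf hg

end MHE
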