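import Pool.Agent.Lib.MP_1a14d4_he.BaseN
import Pool.Agent.Lib.MP_1a14d4_he.FPoly
import Pool.Agent.Lib.MP_1a14d4_lc.KNComplete

/-!
# Each set of NEXP is reducible to `KU` (with padding)

The reduction writes down the table of the automaton, the input, and bounds for the length of the
witness and for the time; the bound for the time can be made as long as we like.
-/

namespace MHE

open Pool.Agent.Lib.PolyTime

private theorem kuEval (p : Polynomial ℕ) {f : W → ℕ} (hf : PolyF f) :
    PolyF (fun x => p.eval (f x)) := by
  induction p using Polynomial.induction_on' with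
  | add p q hp hq =>
    exact (hp.natAdd hq).congr fun x => by rw [Polynomial.eval_add]
  | monomial n a =>
    exact ((PolyF.const a).natMul (hf.natPow n)).congr fun x => by rw [Polynomial.eval_monomial]

/-- the word of `(e, x, s, n)` is longer than `n` and `s` -/
private theorem kuLength (e : T) (x : W) (s n : ℕ) :
    s < (wd false true (e, x, s, n) : W).length ∧
      n < (wd false true (e, x, s, n) : W).length := by
  have h2 : (wd false true (e, x, s, n) : W).length = 2 * sz (e, x, s, n) + 1 :=
    T.length_word _ _ _
  have h3 : s ≤ sz s := by rw [sz_nat]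
  have h4 : n ≤ sz n := by rw [sz_nat]
  rw [h2, sz_prod, sz_prod, sz_prod]
  simp only
  omega

theorem padded_KU {B : Set W} (hB : NEXP B) : Padded B KU := by
  obtain ⟨p, V, hV, hB⟩ := hB
  obtain ⟨e, P, hP⟩ := MHon.exists_table hV
  obtain ⟨κ, hκ⟩ := MHon.poly_le P
  intro m
  have hl : PolyF (fun x : W => x.length) := PolyF.length PolyF.id
  have hs : PolyF (fun x : W => p.eval x.length) := kuEval p hl
  have hn : PolyF (fun x : W => κ * (p.eval x.length + x.length + 2) + (x.length + m) ^ m) :=
    ((PolyF.const κ).natMul ((hs.natAdd hl).natAdd (PolyF.const 2))).natAdd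
      ((hl.natAdd (PolyF.const m)).natPow m)
  have hparse : ∀ x : W, MHon.parseT (wd false true (e, x, p.eval x.length,
      κ * (p.eval x.length + x.length + 2) + (x.length + m) ^ m)) =
        enc (e, x, p.eval x.length,
          κ * (p.eval x.length + x.length + 2) + (x.length + m) ^ m) := fun x =>
    MHon.parseT_wd _
  refine ⟨fun x => wd false true (e, x, p.eval x.length,
      κ * (p.eval x.length + x.length + 2) + (x.length + m) ^ m),
    fp_iff.2 (MHon.polyF_wd e hs hn), ?_, ?_, ?_⟩
  · intro x y hxy
    have h := congrArg (fun z => MHon.decW (MHon.parseT z).right.left) hxy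
    simp only at h
    rw [hparse, hparse] at h
    have e1 := MHon.decW_enc x
    have e2 := MHon.decW_enc y
    exact (e1.symm.trans h).trans e2
  · intro x
    have := (kuLength e x (p.eval x.length)
      (κ * (p.eval x.length + x.length + 2) + (x.length + m) ^ m)).2
    exact lt_of_le_of_lt (Nat.le_add_left _ _) this
  · intro x
    obtain ⟨hs1, hn1⟩ := kuLength e x (p.eval x.length)
      (κ * (p.eval x.length + x.length + 2) + (x.length + m) ^ m)
    have hpx := hparse x
    simp only
    set s := p.eval x.length with hsdef
    set n := κ * (s + x.length + 2) + (x.length + m) ^ m with hndef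
    set z : W := wd false true (e, x, s, n) with hz
    have h1 : (MHon.parseT z).left = e := by rw [hpx]; rfl
    have h2 : MHon.decW (MHon.parseT z).right.left = x := by rw [hpx]; exact MHon.decW_enc x
    have h3 : MHon.decN (MHon.parseT z).right.right.left = s := by
      rw [hpx]; exact MHon.decN_enc _
    have h4 : MHon.decN (MHon.parseT z).right.right.right = n := by
      rw [hpx]; exact MHon.decN_enc _
    have huniv : ∀ w : W, w.length ≤ 2 ^ s →
        MHon.univ e (pairWord (x, w)) (2 ^ n) = Computability.encodeBool (V (x, w)) := by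
      intro w hw
      apply hP
      refine (hκ _).trans ?_
      have hlen : (pairWord (x, w)).length = x.length + w.length + 1 := by
        simp only [pairWord, List.length_append, List.length_cons, List.length_map]
        omega
      have hx2 : x.length + 1 ≤ 2 ^ x.length := Nat.lt_two_pow_self
      have hs2 : 1 ≤ 2 ^ s := Nat.one_le_two_pow
      have hb : (pairWord (x, w)).length + 2 ≤ 2 ^ (s + x.length + 2) := by
        rw [hlen, pow_add, pow_add]
        nlinarith
      calc ((pairWord (x, w)).length + 2) ^ κ ≤ (2 ^ (s + x.length + 2)) ^ κ :=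
            Nat.pow_le_pow_left hb _
        _ = 2 ^ (κ * (s + x.length + 2)) := by rw [← pow_mul, mul_comm]
        _ ≤ 2 ^ n := Nat.pow_le_pow_right (by norm_num) (Nat.le_add_right _ _)
    have henc : ∀ b : Bool, Computability.encodeBool b = [true] ↔ b = true := by
      intro b; cases b <;> decide
    have hUK : ∀ g : W, UK z g (2 ^ z.length) = true ↔ g.length ≤ 2 ^ s ∧ V (x, g) = true := by
      intro g
      unfold UK
      rw [List.any_eq_true]
      simp only [Bool.and_eq_true, decide_eq_true_eq, List.mem_range]
      rw [h1, h2, h3, h4]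
      constructor
      · rintro ⟨k, _, rfl, hg, hu⟩
        rw [huniv g hg, henc] at hu
        exact ⟨hg, hu⟩
      · rintro ⟨hg, hv⟩
        refine ⟨2 ^ n, ?_, rfl, hg, ?_⟩
        · exact Nat.lt_succ_of_le (Nat.pow_le_pow_right (by norm_num) hn1.le)
        · rw [huniv g hg, henc]; exact hv
    rw [hB]
    constructor
    · rintro ⟨w, hw, hv⟩
      exact ⟨w, hw.trans (Nat.pow_le_pow_right (by norm_num) hs1.le), (hUK w).2 ⟨hw, hv⟩⟩
    · rintro ⟨g, _, hg⟩
      exact ⟨g, (hUK g).1 hg⟩

end MHE
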