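import Pool.Agent.Lib.MP_1a14d4_he.TPrim

/-!
# The universal function is primitive recursive

`univ e u n = ((stepRow e)^[n] (row0 e u (|u| + n))).filterMap (fun s => decOB (tb e (enc (3, s))))`
with `row0`, `stepRow` defined by `List.map` over `List.range`: `Primrec.list_range`,
`Primrec.list_map`, `Primrec.list_getElem?`, `Primrec.list_getD`, `Primrec.nat_iterate`,
`Primrec.listFilterMap`, `Primrec.list_append`. `enc (a, b) = T.node (enc a) (enc b)` and
`enc (some a) = T.node (enc a) T.nil`, `enc none = T.nil`, `enc true = T.node T.nil T.nil`,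
`enc false = T.nil`, `enc (s : T) = s` (see Pool/Agent/Lib/PolyTime/Enc.lean).
`parseT` : `Primrec.list_foldr` with `parseStep` (case distinction on the list: `Primrec.list_casesOn`
or by `head?`, `tail`), then `List.headD`.
The definitions are in Pool/Agent/Lib/MP_1a14d4_lc/DefsU.lean.
-/

/-!
# The universal function is primitive recursive
-/

namespace MHE

open Pool.Agent.Lib.PolyTime

private theorem univPrim_tb {α : Type*} [Primcodable α] {e k : α → T} (he : Primrec e)
    (hk : Primrec k) : Primrec (fun a => MHon.tb (e a) (k a)) := prim_tb.comp he hk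

private theorem univPrim_node {α : Type*} [Primcodable α] {l r : α → T} (hl : Primrec l)
    (hr : Primrec r) : Primrec (fun a => T.node (l a) (r a)) := prim_node.comp hl hr

private theorem univPrim_getD {α : Type*} [Primcodable α] {l : α → List T} {n : α → ℕ}
    (hl : Primrec l) (hn : Primrec n) : Primrec (fun a => (l a).getD (n a) T.nil) :=
  (Primrec.list_getD T.nil).comp hl hn

private theorem univPrim_stepRow :
    Primrec₂ (fun (e : T) (row : List T) => MHon.stepRow e row) := by
  unfold MHon.stepRow
  have hlen : Primrec (fun p : T × List T => p.2.length - 1) :=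
    Primrec.nat_sub.comp (Primrec.list_length.comp Primrec.snd) (Primrec.const 1)
  have hcell : Primrec₂ (fun (p : T × List T) (i : ℕ) =>
      if i = 0 then MHon.tb p.1 (enc ((0 : ℕ), p.2.getD 0 T.nil, p.2.getD 1 T.nil))
      else MHon.tb p.1 (enc ((1 : ℕ), p.2.getD 0 T.nil, p.2.getD (i - 1) T.nil,
        p.2.getD i T.nil, p.2.getD (i + 1) T.nil))) := by
    have he : Primrec (fun q : (T × List T) × ℕ => q.1.1) := Primrec.fst.comp Primrec.fst
    have hrow : Primrec (fun q : (T × List T) × ℕ => q.1.2) := Primrec.snd.comp Primrec.fst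
    have hi : Primrec (fun q : (T × List T) × ℕ => q.2) := Primrec.snd
    refine Primrec.ite (Primrec.eq.comp hi (Primrec.const 0)) ?_ ?_
    · exact univPrim_tb he (univPrim_node (Primrec.const _)
        (univPrim_node (univPrim_getD hrow (Primrec.const 0))
          (univPrim_getD hrow (Primrec.const 1))))
    · exact univPrim_tb he (univPrim_node (Primrec.const _)
        (univPrim_node (univPrim_getD hrow (Primrec.const 0))
          (univPrim_node (univPrim_getD hrow (Primrec.nat_sub.comp hi (Primrec.const 1)))
            (univPrim_node (univPrim_getD hrow hi)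
              (univPrim_getD hrow (Primrec.nat_add.comp hi (Primrec.const 1)))))))
  exact Primrec.list_append.comp
    (Primrec.list_map (Primrec.list_range.comp hlen) hcell)
    (Primrec.list_cons.comp (univPrim_getD Primrec.snd hlen) (Primrec.const []))

private theorem univPrim_row0 :
    Primrec (fun p : T × List (Option Bool) × ℕ =>
      MHon.row0 p.1 p.2.1 (p.2.1.length + p.2.2)) := by
  unfold MHon.row0
  have hlen : Primrec (fun p : T × List (Option Bool) × ℕ => p.2.1.length + p.2.2 + 1) :=
    Primrec.succ.comp (Primrec.nat_add.comp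
      (Primrec.list_length.comp (Primrec.fst.comp Primrec.snd)) (Primrec.snd.comp Primrec.snd))
  have hcell : Primrec₂ (fun (p : T × List (Option Bool) × ℕ) (i : ℕ) =>
      MHon.tb p.1 (enc ((2 : ℕ), decide (i = 0), p.2.1[i]?))) := by
    have he : Primrec (fun q : (T × List (Option Bool) × ℕ) × ℕ => q.1.1) :=
      Primrec.fst.comp Primrec.fst
    have hu : Primrec (fun q : (T × List (Option Bool) × ℕ) × ℕ => q.1.2.1) :=
      Primrec.fst.comp (Primrec.snd.comp Primrec.fst)
    have hi : Primrec (fun q : (T × List (Option Bool) × ℕ) × ℕ => q.2) := Primrec.snd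
    have h1 : Primrec (fun q : (T × List (Option Bool) × ℕ) × ℕ => enc (decide (q.2 = 0))) :=
      (Primrec.dom_finite (fun b : Bool => enc b)).comp
        (PrimrecPred.decide (Primrec.eq.comp hi (Primrec.const 0)))
    have h2 : Primrec (fun q : (T × List (Option Bool) × ℕ) × ℕ => enc (q.1.2.1[q.2]?)) :=
      (Primrec.dom_finite (fun b : Option (Option Bool) => enc b)).comp
        (Primrec.list_getElem?.comp hu hi)
    exact univPrim_tb he (univPrim_node (Primrec.const _) (univPrim_node h1 h2))
  exact Primrec.list_map (Primrec.list_range.comp hlen) hcell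

theorem prim_univ :
    Primrec (fun p : T × List (Option Bool) × ℕ => MHon.univ p.1 p.2.1 p.2.2) := by
  unfold MHon.univ
  have hiter : Primrec (fun p : T × List (Option Bool) × ℕ =>
      (MHon.stepRow p.1)^[p.2.2] (MHon.row0 p.1 p.2.1 (p.2.1.length + p.2.2))) :=
    Primrec.nat_iterate (Primrec.snd.comp Primrec.snd) univPrim_row0
      (univPrim_stepRow.comp (Primrec.fst.comp Primrec.fst) Primrec.snd)
  have hout : Primrec₂ (fun (p : T × List (Option Bool) × ℕ) (s : T) =>
      MHon.decOB (MHon.tb p.1 (enc ((3 : ℕ), s)))) :=
    prim_decOB.comp (univPrim_tb (Primrec.fst.comp Primrec.fst)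
      (univPrim_node (Primrec.const _) Primrec.snd))
  exact Primrec.listFilterMap hiter hout

end MHE
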