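import Pool.Agent.Lib.MP_1a14d4_he.BaseN
import Pool.Agent.Lib.MP_1a14d4_he.UnivPrim
import Pool.Agent.Lib.MP_1a14d4_he.ParsePrim
import Pool.Agent.Lib.MP_1a14d4_he.FPrim
import Pool.Agent.Lib.MP_1a14d4_he.NumW
import Pool.Agent.Lib.MP_1a14d4_he.KUComplete

/-!
# The sets of NEXP are primitive recursive

The universal predicate `UK` is primitive recursive, and membership in `KU` is a bounded search for a
witness. A set of NEXP is reducible to `KU` by a function of FP, which is primitive recursive.
-/

namespace MHE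

open Pool.Agent.Lib.PolyTime

private theorem dkuEx {α : Type} [Primcodable α] {R : α → ℕ → Prop} {N : α → ℕ} (hN : Primrec N)
    (hR : PrimrecPred (fun q : α × ℕ => R q.1 q.2)) :
    PrimrecPred (fun a => ∃ x < N a, R a x) := by
  have h1 : PrimrecRel (fun (x : ℕ) (a : α) => R a x) :=
    hR.comp (Primrec.pair Primrec.snd Primrec.fst)
  have h2 := PrimrecRel.comp h1.exists_mem_list (Primrec.list_range.comp hN) Primrec.id
  exact h2.of_eq fun a => by simp

private theorem dkuDecW : Primrec MHon.decW := by
  have h1 : Primrec₂ (fun (_ : T) (s : T) => decide (s ≠ T.nil)) :=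
    PrimrecPred.decide (PrimrecPred.not (Primrec.eq.comp Primrec.snd (Primrec.const T.nil)))
  exact Primrec.list_map prim_toL h1

private theorem dkuDecN : Primrec MHon.decN := Primrec.list_length.comp prim_toL

private theorem dkuPair : Primrec pairWord := by
  have h1 : Primrec (fun p : W × W => p.1.map (some : Bool → Option Bool)) :=
    Primrec.list_map Primrec.fst (Primrec.option_some.comp Primrec.snd)
  have h2 : Primrec (fun p : W × W => p.2.map (some : Bool → Option Bool)) :=
    Primrec.list_map Primrec.snd (Primrec.option_some.comp Primrec.snd)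
  exact Primrec.list_append.comp h1 (Primrec.list_cons.comp (Primrec.const none) h2)

private theorem dkuUK : PrimrecPred (fun p : W × W × ℕ => UK p.1 p.2.1 p.2.2 = true) := by
  have hz : Primrec (fun q : (W × W × ℕ) × ℕ => MHon.parseT q.1.1) :=
    prim_parseT.comp (Primrec.fst.comp Primrec.fst)
  have hg : Primrec (fun q : (W × W × ℕ) × ℕ => q.1.2.1) :=
    Primrec.fst.comp (Primrec.snd.comp Primrec.fst)
  have h := dkuEx (N := fun p : W × W × ℕ => p.2.2 + 1)
    (R := fun (p : W × W × ℕ) (m : ℕ) =>
      m = 2 ^ MHon.decN (MHon.parseT p.1).right.right.right ∧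
      (p.2.1.length ≤ 2 ^ MHon.decN (MHon.parseT p.1).right.right.left ∧
        MHon.univ (MHon.parseT p.1).left
          (pairWord (MHon.decW (MHon.parseT p.1).right.left, p.2.1)) m = [true]))
    (Primrec.succ.comp (Primrec.snd.comp Primrec.snd)) ?_
  · refine h.of_eq fun p => ?_
    unfold UK
    rw [List.any_eq_true]
    simp only [Bool.and_eq_true, decide_eq_true_eq, List.mem_range]
  · refine PrimrecPred.and ?_ (PrimrecPred.and ?_ ?_)
    · exact Primrec.eq.comp Primrec.snd (prim_pow.comp (Primrec.const 2)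
        (dkuDecN.comp (prim_right.comp (prim_right.comp (prim_right.comp hz)))))
    · exact Primrec.nat_le.comp (Primrec.list_length.comp hg) (prim_pow.comp (Primrec.const 2)
        (dkuDecN.comp (prim_left.comp (prim_right.comp (prim_right.comp hz)))))
    · refine Primrec.eq.comp ?_ (Primrec.const [true])
      exact prim_univ.comp (Primrec.pair (prim_left.comp hz)
        (Primrec.pair (dkuPair.comp (Primrec.pair
          (dkuDecW.comp (prim_left.comp (prim_right.comp hz))) hg)) Primrec.snd))

theorem prim_KU : ∃ c : W → Bool, Primrec c ∧ ∀ z, c z = true ↔ z ∈ KU := by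
  classical
  have h := dkuEx (N := fun z : W => 2 ^ (2 ^ z.length + 1))
    (R := fun (z : W) (m : ℕ) => (wordOf m).length ≤ 2 ^ z.length ∧
      UK z (wordOf m) (2 ^ z.length) = true) ?_ ?_
  · obtain ⟨hd, hp⟩ := h
    refine ⟨_, hp, fun z => ?_⟩
    rw [decide_eq_true_iff]
    constructor
    · rintro ⟨m, -, h1, h2⟩
      exact ⟨wordOf m, h1, h2⟩
    · rintro ⟨g, h1, h2⟩
      refine ⟨num g, ?_, ?_, ?_⟩
      · have h3 := num_lt g
        have h4 : 2 ^ (g.length + 1) ≤ 2 ^ (2 ^ z.length + 1) :=
          Nat.pow_le_pow_right (by norm_num) (Nat.succ_le_succ h1)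
        omega
      · rw [wordOf_num]
        exact h1
      · rw [wordOf_num]
        exact h2
  · exact prim_pow.comp (Primrec.const 2) (Primrec.succ.comp
      (prim_pow.comp (Primrec.const 2) Primrec.list_length))
  · have hl : Primrec (fun q : W × ℕ => 2 ^ q.1.length) :=
      prim_pow.comp (Primrec.const 2) (Primrec.list_length.comp Primrec.fst)
    have hw : Primrec (fun q : W × ℕ => wordOf q.2) := prim_wordOf.comp Primrec.snd
    refine PrimrecPred.and ?_ ?_
    · exact Primrec.nat_le.comp (Primrec.list_length.comp hw) hl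
    · exact dkuUK.comp (Primrec.pair Primrec.fst (Primrec.pair hw hl))

theorem NEXP.prim {A : Set W} (hA : NEXP A) : ∃ c : W → Bool, Primrec c ∧ ∀ x, c x = true ↔ x ∈ A := by
  obtain ⟨c, hc, h1⟩ := prim_KU
  obtain ⟨g, hg, -, -, h2⟩ := padded_KU hA 0
  obtain ⟨i, rfl⟩ := exists_F hg
  refine ⟨fun x => c (F i x), hc.comp (prim_F.comp (Primrec.const i) Primrec.id), fun x => ?_⟩
  rw [h1]
  exact (h2 x).symm

end MHE
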