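import Pool.Agent.Lib.MP_1a14d4_he.DGap
import Pool.Agent.Lib.MP_1a14d4_he.DKU
import Pool.Agent.Lib.MP_1a14d4_he.AntiOrder

/-!
# First case: an honest function of FP with values outside the complete set
-/

namespace MHE

open Pool.Agent.Lib.PolyTime

/-- the value of the reduction on the column `n`: `y` for a value `1y`, and `u x` otherwise -/
def rv (u : W → W) (j n : ℕ) (x : W) : W :=
  if (F j (false :: st n x)).head? = some true then (F j (false :: st n x)).tail else u x

/-- the violations of the first case -/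
def V1 (cK cA : W → Bool) (u : W → W) (q : ℕ × ℕ × ℕ) (x : W) : Bool :=
  decide (q.2.2 ≤ x.length) &&
    (decide (((F q.1 (false :: st q.2.2 x)).length + 2) ^ q.2.1 < x.length) ||
      (cK x != cA (rv u q.1 q.2.2 x)))

private theorem prim_val : Primrec (fun p : (ℕ × ℕ × ℕ) × W => F p.1.1 (false :: st p.1.2.2 p.2)) :=
  prim_F.comp (Primrec.fst.comp Primrec.fst)
    (Primrec.list_cons.comp (Primrec.const false)
      (prim_st.comp (Primrec.snd.comp (Primrec.snd.comp Primrec.fst)) Primrec.snd))

theorem prim_V1 {cK cA : W → Bool} (hK : Primrec cK) (hA : Primrec cA) {u : W → W}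
    (hu : Primrec u) : Primrec₂ (V1 cK cA u) := by
  have h0 : Primrec (fun p : (ℕ × ℕ × ℕ) × W => F p.1.1 (false :: st p.1.2.2 p.2)) := prim_val
  have h1 : Primrec (fun p : (ℕ × ℕ × ℕ) × W => decide (p.1.2.2 ≤ p.2.length)) :=
    (Primrec.nat_le.comp (Primrec.snd.comp (Primrec.snd.comp Primrec.fst))
      (Primrec.list_length.comp Primrec.snd)).decide
  have h2 : Primrec (fun p : (ℕ × ℕ × ℕ) × W =>
      ((F p.1.1 (false :: st p.1.2.2 p.2)).length + 2) ^ p.1.2.1) :=
    prim_pow.comp (Primrec.nat_add.comp (Primrec.list_length.comp h0) (Primrec.const 2))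
      (Primrec.fst.comp (Primrec.snd.comp Primrec.fst))
  have h3 : Primrec (fun p : (ℕ × ℕ × ℕ) × W =>
      decide (((F p.1.1 (false :: st p.1.2.2 p.2)).length + 2) ^ p.1.2.1 < p.2.length)) :=
    (Primrec.nat_lt.comp h2 (Primrec.list_length.comp Primrec.snd)).decide
  have h4 : Primrec (fun p : (ℕ × ℕ × ℕ) × W => rv u p.1.1 p.1.2.2 p.2) := by
    refine Primrec.ite ?_ (Primrec.list_tail.comp h0) (hu.comp Primrec.snd)
    exact Primrec.eq.comp (Primrec.list_head?.comp h0) (Primrec.const (some true))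
  have hbne : Primrec₂ (fun a b : Bool => a != b) := Primrec.dom_bool₂ _
  have h5 : Primrec (fun p : (ℕ × ℕ × ℕ) × W => (cK p.2 != cA (rv u p.1.1 p.1.2.2 p.2))) :=
    hbne.comp (hK.comp Primrec.snd) (hA.comp h4)
  exact Primrec.and.comp h1 (Primrec.or.comp h3 h5)

/-- the family of the first case -/
def AS1 {V : ℕ × ℕ × ℕ → W → Bool} (w : PWindows V) (A : Set W) (P : Set ℕ) : Set W :=
  {x | (∃ m y, x = false :: st m y ∧ (m ∈ P ∧ m ≤ y.length ∧ w.X m y.length = true) ∧ y ∈ KU) ∨
    ∃ y, x = true :: y ∧ y ∈ A}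

section

variable {V : ℕ × ℕ × ℕ → W → Bool} (w : PWindows V) {A : Set W}

theorem true_mem_AS1 (P : Set ℕ) (y : W) : y ∈ A ↔ true :: y ∈ AS1 w A P := by
  constructor
  · exact fun h => Or.inr ⟨y, rfl, h⟩
  · rintro (⟨m, x, h, _⟩ | ⟨x, h, h1⟩)
    · exact absurd (List.cons.inj h).1 (by decide)
    · rwa [(List.cons.inj h).2]

theorem false_mem_AS1 (P : Set ℕ) (y : W) :
    false :: y ∈ AS1 w A P ↔ w.PWord P y ∧ arg y ∈ KU := by
  constructor
  · rintro (⟨m, x, h, h1, h2⟩ | ⟨x, h, _⟩)
    · rw [(List.cons.inj h).2]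
      exact ⟨(w.pword_st).2 h1, by rw [arg_st]; exact h2⟩
    · exact absurd (List.cons.inj h).1 (by decide)
  · rintro ⟨⟨m, x, rfl, h1⟩, h2⟩
    rw [arg_st] at h2
    exact Or.inl ⟨m, x, rfl, h1, h2⟩

theorem nil_notMem_AS1 (P : Set ℕ) : [] ∉ AS1 w A P := by
  rintro (⟨m, x, h, _⟩ | ⟨x, h, _⟩) <;> simp at h

theorem complete_AS1 (hA : Complete NEXP A) {P : Set ℕ} {N : ℕ} {S : List ℕ}
    (hP : ∀ m, m ∈ P ↔ m % N ∈ S) : Complete NEXP (AS1 w A P) := by
  constructor
  · obtain ⟨a0, ha0⟩ := hA.exists_notMem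
    obtain ⟨r, hr, hrK⟩ := hA.2 _ nexp_KU'
    have hR : FP (fun x : W => if x.head? = some true then x.tail else
        if x.head? = some false ∧ w.pwb N S x.tail = true then r (arg x.tail) else a0) := by
      rw [fp_iff] at hr ⊢
      have h1 : PolyF (fun x : W => x.tail) := PolyF.id.tail
      have h2 : PolyF (fun x : W => decide (x.head? = some true)) := PolyF.id.head?.eqConst _
      have h3 : PolyF (fun x : W => decide (x.head? = some false)) := PolyF.id.head?.eqConst _
      have h4 : PolyF (fun x : W => decide (w.pwb N S x.tail = true)) :=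
        PolyF.decide_bool ((w.polyF_pwb N S).comp h1)
      exact PolyF.ite h2 h1 (PolyF.ite (PolyF.decide_and h3 h4) (hr.comp (polyF_arg.comp h1))
        (PolyF.const a0))
    have h := hA.1.preimage hR
    convert h using 1
    ext x
    show x ∈ AS1 w A P ↔ (if x.head? = some true then x.tail else
        if x.head? = some false ∧ w.pwb N S x.tail = true then r (arg x.tail) else a0) ∈ A
    match x with
    | [] => simp [nil_notMem_AS1, ha0]
    | true :: y => simp [← true_mem_AS1]
    | false :: y =>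
      rw [false_mem_AS1, ← w.pwb_iff hP]
      simp only [List.head?_cons, Option.some.injEq, Bool.false_eq_true, if_false, List.tail_cons,
        true_and]
      split_ifs with h
      · rw [← hrK]
        simp [h]
      · simp [h, ha0]
  · intro B hB
    obtain ⟨f, hf, hfB⟩ := hA.2 B hB
    refine ⟨fun x => true :: f x, ?_, fun x => ?_⟩
    · rw [fp_iff] at hf ⊢
      exact (PolyF.const true).cons hf
    · rw [hfB, true_mem_AS1 w P]

/-- the positive part -/
theorem red_AS1 {P Q : Set ℕ} (hPQ : P ⊆ Q) {N : ℕ} {S : List ℕ}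
    (hP : ∀ m, m ∈ P ↔ m % N ∈ S) : HonestRed (AS1 w A P) (AS1 w A Q) := by
  refine ⟨fun x => if x.head? = some true ∨ w.pwb N S x.tail = true then x else
    false :: x.map (fun _ => true), ?_, ⟨Polynomial.X, fun x => ?_⟩, fun x => ?_⟩
  · rw [fp_iff]
    have h2 : PolyF (fun x : W => decide (x.head? = some true)) := PolyF.id.head?.eqConst _
    have h4 : PolyF (fun x : W => decide (w.pwb N S x.tail = true)) :=
      PolyF.decide_bool ((w.polyF_pwb N S).comp PolyF.id.tail)
    exact PolyF.ite (PolyF.decide_or h2 h4) PolyF.id ((PolyF.const false).cons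
      (PolyF.id.map (h := fun _ _ => true) (PolyF.const true)))
  · dsimp only
    split_ifs <;> simp
  · dsimp only
    match x with
    | [] =>
      have h1 : ¬ (w.pwb N S ([] : W) = true) := by
        rw [w.pwb_iff hP]
        exact w.not_pword_ones []
      simp only [List.head?_nil, List.tail_nil, h1, List.map_nil]
      rw [if_neg (by simp)]
      refine iff_of_false (nil_notMem_AS1 w P) fun h => ?_
      rw [false_mem_AS1] at h
      exact w.not_pword_ones [] h.1
    | true :: y => simp [← true_mem_AS1]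
    | false :: y =>
      simp only [List.head?_cons, Option.some.injEq, Bool.false_eq_true, List.tail_cons, false_or]
      split_ifs with h
      · rw [w.pwb_iff hP] at h
        rw [false_mem_AS1, false_mem_AS1]
        simp [h, h.mono hPQ]
      · rw [w.pwb_iff hP] at h
        rw [false_mem_AS1, false_mem_AS1]
        exact iff_of_false (fun h1 => h h1.1) (fun h1 => w.not_pword_ones _ h1.1)

end

/-- the negative part -/
theorem not_red_AS1 {A : Set W} {cK cA : W → Bool} (hK : ∀ x, cK x = true ↔ x ∈ KU)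
    (hA : ∀ x, cA x = true ↔ x ∈ A) {u : W → W} (hu : ∀ x, u x ∉ A)
    (w : PWindows (V1 cK cA u)) {P Q : Set ℕ} {n : ℕ} (hnP : n ∈ P) (hnQ : n ∉ Q) :
    ¬ HonestRed (AS1 w A P) (AS1 w A Q) := by
  rintro ⟨f, hf, ⟨q, hq⟩, hfA⟩
  obtain ⟨j, rfl⟩ := exists_F hf
  obtain ⟨e, he⟩ := hf.length_le_pow
  obtain ⟨d, hd⟩ := MHon.poly_le q
  have hhon : ∀ x : W, x.length ≤ ((F j x).length + 2) ^ d := fun x => (hq x).trans (hd _)
  obtain ⟨s, hreq, _, hs⟩ := w.exists_late hnQ j d e hhon he
  obtain ⟨x, hx1, hx2, hv⟩ := w.viol s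
  rw [hreq] at hv
  unfold V1 at hv
  simp only [Bool.and_eq_true, Bool.or_eq_true, decide_eq_true_eq, bne_iff_ne, ne_eq] at hv
  obtain ⟨hnx, hv⟩ := hv
  have hX : w.X n x.length = true := (w.iff _ _).2 ⟨s, by rw [hreq], hx1, hx2⟩
  rcases hv with hv | hv
  · have h1 := hhon (false :: st n x)
    have h2 : x.length ≤ (false :: st n x).length := by
      rw [List.length_cons, length_st]
      omega
    omega
  · apply hv
    rw [Bool.eq_iff_iff, hK, hA]
    have h1 : x ∈ KU ↔ false :: st n x ∈ AS1 w A P := by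
      rw [false_mem_AS1, arg_st, w.pword_st]
      simp [hnP, hnx, hX]
    rw [h1, hfA]
    unfold rv
    cases hF : F j (false :: st n x) with
    | nil =>
      simp only [List.head?_nil]
      rw [if_neg (by simp)]
      exact iff_of_false (nil_notMem_AS1 w Q) (hu x)
    | cons b y =>
      cases b with
      | false =>
        simp only [List.head?_cons]
        rw [if_neg (by simp)]
        refine iff_of_false (fun h => ?_) (hu x)
        rw [false_mem_AS1] at h
        exact hs x hx1 hx2 hnx y hF h.1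
      | true =>
        simp only [List.head?_cons]
        rw [if_pos trivial, List.tail_cons, ← true_mem_AS1]

/-- the violations are unbounded -/
theorem unbounded_V1 {A : Set W} {cK cA : W → Bool} (hK : ∀ x, cK x = true ↔ x ∈ KU)
    (hA : ∀ x, cA x = true ↔ x ∈ A) {u : W → W} (hu : FP u) (huh : Honest u)
    (hno : ¬ HonestRed KU A) (q : ℕ × ℕ × ℕ) (a : ℕ) :
    ∃ x : W, a ≤ x.length ∧ V1 cK cA u q x = true := by
  by_contra hcon
  push Not at hcon
  obtain ⟨j, d, n⟩ := q
  have h0 : ∀ x : W, a ≤ x.length → n ≤ x.length →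
      x.length ≤ ((F j (false :: st n x)).length + 2) ^ d ∧ (x ∈ KU ↔ rv u j n x ∈ A) := by
    intro x hax hnx
    have h1 := hcon x hax
    unfold V1 at h1
    simp only [Bool.and_eq_true, Bool.or_eq_true, decide_eq_true_eq, bne_iff_ne, ne_eq,
      not_and, not_or, not_lt, not_not] at h1
    obtain ⟨h2, h3⟩ := h1 hnx
    refine ⟨h2, ?_⟩
    rw [← hK, ← hA, h3]
  obtain ⟨p, hp⟩ := huh
  obtain ⟨g, hg, _, hlen, hgK⟩ := padded_KU nexp_KU' (a + n + 1)
  have hlen' : ∀ z : W, z.length + a + n < (g z).length := by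
    intro z
    have h1 := hlen z
    have h2 : z.length + (a + n + 1) ≤ (z.length + (a + n + 1)) ^ (a + n + 1) :=
      Nat.le_self_pow (by omega) _
    omega
  have hrv : FP (rv u j n) := by
    have h1 := fp_iff.1 (fp_F j)
    have h2 : PolyF (fun x : W => F j (false :: st n x)) :=
      h1.comp ((PolyF.const false).cons (polyF_st.comp ((PolyF.const n).pair PolyF.id)))
    rw [fp_iff]
    exact PolyF.ite (h2.head?.eqConst _) h2.tail (fp_iff.1 hu)
  refine hno ⟨fun z => rv u j n (g z), FP.comp hrv hg,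
    ⟨(Polynomial.X + 3) ^ d + p, fun z => ?_⟩, fun z => ?_⟩
  · have h1 := hlen' z
    have h2 := (h0 (g z) (by omega) (by omega)).1
    simp only [Polynomial.eval_add, Polynomial.eval_pow, Polynomial.eval_X,
      Polynomial.eval_ofNat]
    unfold rv
    split_ifs with h3
    · have h4 : (F j (false :: st n (g z))).length =
          ((F j (false :: st n (g z))).tail).length + 1 := by
        cases hF : F j (false :: st n (g z)) with
        | nil => rw [hF] at h3; simp at h3
        | cons b y => simp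
      rw [h4] at h2
      have h5 : ((F j (false :: st n (g z))).tail).length + 1 + 2 =
          ((F j (false :: st n (g z))).tail).length + 3 := by omega
      rw [h5] at h2
      omega
    · have h4 := hp (g z)
      omega
  · rw [hgK]
    have h1 := hlen' z
    exact (h0 (g z) (by omega) (by omega)).2

/-- the first case -/
theorem case1 {A : Set W} (hA : Complete NEXP A) (hno : ¬ HonestRed KU A) {u : W → W}
    (hu : FP u) (huh : Honest u) (huA : ∀ x, u x ∉ A) : AllOrders NEXP := by
  intro α _ _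
  obtain ⟨cK, hcK, hcK2⟩ := prim_KU
  obtain ⟨cA, hcA, hcA2⟩ := hA.1.prim
  have hup : Primrec u := by
    obtain ⟨i, rfl⟩ := exists_F hu
    exact prim_F.comp (Primrec.const i) Primrec.id
  obtain ⟨w⟩ := exists_pwindows (prim_V1 hcK hcA hup)
    (unbounded_V1 hcK2 hcA2 hu huh hno)
  obtain ⟨φ, hφ, hφ2⟩ := MHon.Anti.exists_sets α
  refine ⟨fun a => AS1 w A (φ a), fun a => ?_, fun a b => ⟨fun h => ?_, fun hab => ?_⟩⟩
  · obtain ⟨N, S, hS⟩ := hφ a
    exact complete_AS1 w hA hS
  · by_contra hab
    rw [← hφ2, Set.not_subset] at hab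
    obtain ⟨n, hn, hnb⟩ := hab
    exact not_red_AS1 hcK2 hcA2 huA w hn hnb h
  · obtain ⟨N, S, hS⟩ := hφ a
    exact red_AS1 w ((hφ2 a b).2 hab) hS

end MHE
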