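import Pool.Agent.Lib.MP_1a14d4_he.DGap
import Pool.Agent.Lib.MP_1a14d4_he.DKU
import Pool.Agent.Lib.MP_1a14d4_he.AntiOrder

/-!
# Second case: no honest function of FP has all its values outside the complete set
-/

namespace MHE

open Pool.Agent.Lib.PolyTime

/-- the violations of the second case -/
def V2 (cA : W → Bool) (q : ℕ × ℕ × ℕ) (x : W) : Bool :=
  decide (q.2.2 ≤ x.length) &&
    (decide (((F q.1 (false :: st q.2.2 x)).length + 2) ^ q.2.1 < x.length) ||
      !(decide ((F q.1 (false :: st q.2.2 x)).head? = some true) &&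
        !cA (F q.1 (false :: st q.2.2 x)).tail))

private theorem prim_val : Primrec (fun p : (ℕ × ℕ × ℕ) × W => F p.1.1 (false :: st p.1.2.2 p.2)) :=
  prim_F.comp (Primrec.fst.comp Primrec.fst)
    (Primrec.list_cons.comp (Primrec.const false)
      (prim_st.comp (Primrec.snd.comp (Primrec.snd.comp Primrec.fst)) Primrec.snd))

theorem prim_V2 {cA : W → Bool} (hA : Primrec cA) : Primrec₂ (V2 cA) := by
  have h0 : Primrec (fun p : (ℕ × ℕ × ℕ) × W => F p.1.1 (false :: st p.1.2.2 p.2)) := prim_val
  have h1 : Primrec (fun p : (ℕ × ℕ × ℕ) × W => decide (p.1.2.2 ≤ p.2.length)) :=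
    (Primrec.nat_le.comp (Primrec.snd.comp (Primrec.snd.comp Primrec.fst))
      (Primrec.list_length.comp Primrec.snd)).decide
  have h2 : Primrec (fun p : (ℕ × ℕ × ℕ) × W =>
      ((F p.1.1 (false :: st p.1.2.2 p.2)).length + 2) ^ p.1.2.1) :=
    prim_pow.comp (Primrec.nat_add.comp (Primrec.list_length.comp h0) (Primrec.const 2))
      (Primrec.fst.comp (Primrec.snd.comp Primrec.fst))
  have h3 : Primrec (fun p : (ℕ × ℕ × ℕ) × W =>
      decide (((F p.1.1 (false :: st p.1.2.2 p.2)).length + 2) ^ p.1.2.1 < p.2.length)) :=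
    (Primrec.nat_lt.comp h2 (Primrec.list_length.comp Primrec.snd)).decide
  have h4 : Primrec (fun p : (ℕ × ℕ × ℕ) × W =>
      decide ((F p.1.1 (false :: st p.1.2.2 p.2)).head? = some true)) :=
    (Primrec.eq.comp (Primrec.list_head?.comp h0) (Primrec.const (some true))).decide
  have h5 : Primrec (fun p : (ℕ × ℕ × ℕ) × W => cA (F p.1.1 (false :: st p.1.2.2 p.2)).tail) :=
    hA.comp (Primrec.list_tail.comp h0)
  exact Primrec.and.comp h1 (Primrec.or.comp h3 (Primrec.not.comp (Primrec.and.comp h4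
    (Primrec.not.comp h5))))

/-- the family of the second case -/
def AS2 {V : ℕ × ℕ × ℕ → W → Bool} (w : PWindows V) (A : Set W) (P : Set ℕ) : Set W :=
  {x | (∃ y, x = false :: y ∧ ¬ w.PWord P y) ∨ ∃ y, x = true :: y ∧ y ∈ A}

section

variable {V : ℕ × ℕ × ℕ → W → Bool} (w : PWindows V) {A : Set W}

theorem true_mem_AS2 (P : Set ℕ) (y : W) : y ∈ A ↔ true :: y ∈ AS2 w A P := by
  constructor
  · exact fun h => Or.inr ⟨y, rfl, h⟩
  · rintro (⟨x, h, _⟩ | ⟨x, h, h1⟩)
    · exact absurd (List.cons.inj h).1 (by decide)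
    · rwa [(List.cons.inj h).2]

theorem false_mem_AS2 (P : Set ℕ) (y : W) : false :: y ∈ AS2 w A P ↔ ¬ w.PWord P y := by
  constructor
  · rintro (⟨x, h, h1⟩ | ⟨x, h, _⟩)
    · rwa [(List.cons.inj h).2]
    · exact absurd (List.cons.inj h).1 (by decide)
  · exact fun h => Or.inl ⟨y, rfl, h⟩

theorem nil_notMem_AS2 (P : Set ℕ) : [] ∉ AS2 w A P := by
  rintro (⟨x, h, _⟩ | ⟨x, h, _⟩) <;> simp at h

theorem complete_AS2 (hA : Complete NEXP A) {P : Set ℕ} {N : ℕ} {S : List ℕ}
    (hP : ∀ m, m ∈ P ↔ m % N ∈ S) : Complete NEXP (AS2 w A P) := by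
  constructor
  · obtain ⟨a0, ha0⟩ := hA.exists_notMem
    obtain ⟨a1, ha1⟩ := hA.exists_mem
    have hR : FP (fun x : W => if x.head? = some true then x.tail else
        if x.head? = some false ∧ ¬ (w.pwb N S x.tail = true) then a1 else a0) := by
      rw [fp_iff]
      have h1 : PolyF (fun x : W => x.tail) := PolyF.id.tail
      have h2 : PolyF (fun x : W => decide (x.head? = some true)) := PolyF.id.head?.eqConst _
      have h3 : PolyF (fun x : W => decide (x.head? = some false)) := PolyF.id.head?.eqConst _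
      have h4 : PolyF (fun x : W => decide (w.pwb N S x.tail = true)) :=
        PolyF.decide_bool ((w.polyF_pwb N S).comp h1)
      exact PolyF.ite h2 h1 (PolyF.ite (PolyF.decide_and h3 (PolyF.decide_not h4))
        (PolyF.const a1) (PolyF.const a0))
    have h := hA.1.preimage hR
    convert h using 1
    ext x
    show x ∈ AS2 w A P ↔ (if x.head? = some true then x.tail else
        if x.head? = some false ∧ ¬ (w.pwb N S x.tail = true) then a1 else a0) ∈ A
    match x with
    | [] => simp [nil_notMem_AS2, ha0]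
    | true :: y => simp [← true_mem_AS2]
    | false :: y =>
      rw [false_mem_AS2, ← w.pwb_iff hP]
      simp only [List.head?_cons, Option.some.injEq, Bool.false_eq_true, if_false, List.tail_cons,
        true_and]
      split_ifs with h
      · exact iff_of_false (fun h1 => h1 h) ha0
      · exact iff_of_true h ha1
  · intro B hB
    obtain ⟨f, hf, hfB⟩ := hA.2 B hB
    refine ⟨fun x => true :: f x, ?_, fun x => ?_⟩
    · rw [fp_iff] at hf ⊢
      exact (PolyF.const true).cons hf
    · rw [hfB, true_mem_AS2 w P]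

/-- the positive part -/
theorem red_AS2 {P Q : Set ℕ} (hPQ : P ⊆ Q) {N : ℕ} {S : List ℕ}
    (hP : ∀ m, m ∈ P ↔ m % N ∈ S) : HonestRed (AS2 w A P) (AS2 w A Q) := by
  refine ⟨fun x => if x.head? = some false ∧ ¬ (w.pwb N S x.tail = true) then
    false :: x.map (fun _ => true) else x, ?_, ⟨Polynomial.X, fun x => ?_⟩, fun x => ?_⟩
  · rw [fp_iff]
    have h2 : PolyF (fun x : W => decide (x.head? = some false)) := PolyF.id.head?.eqConst _
    have h4 : PolyF (fun x : W => decide (w.pwb N S x.tail = true)) :=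
      PolyF.decide_bool ((w.polyF_pwb N S).comp PolyF.id.tail)
    exact PolyF.ite (PolyF.decide_and h2 (PolyF.decide_not h4)) ((PolyF.const false).cons
      (PolyF.id.map (h := fun _ _ => true) (PolyF.const true))) PolyF.id
  · dsimp only
    split_ifs <;> simp
  · dsimp only
    match x with
    | [] => simp [nil_notMem_AS2]
    | true :: y => simp [← true_mem_AS2]
    | false :: y =>
      simp only [List.head?_cons, List.tail_cons, true_and]
      split_ifs with h
      · rw [w.pwb_iff hP] at h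
        rw [false_mem_AS2, false_mem_AS2]
        exact iff_of_false (fun h1 => h1 h) (fun h1 => h1 (h.mono hPQ))
      · rw [w.pwb_iff hP] at h
        rw [false_mem_AS2, false_mem_AS2]
        exact iff_of_true h (w.not_pword_ones _)

end

/-- the negative part -/
theorem not_red_AS2 {A : Set W} {cA : W → Bool} (hA : ∀ x, cA x = true ↔ x ∈ A)
    (w : PWindows (V2 cA)) {P Q : Set ℕ} {n : ℕ} (hnP : n ∈ P) (hnQ : n ∉ Q) :
    ¬ HonestRed (AS2 w A P) (AS2 w A Q) := by
  rintro ⟨f, hf, ⟨q, hq⟩, hfA⟩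
  obtain ⟨j, rfl⟩ := exists_F hf
  obtain ⟨e, he⟩ := hf.length_le_pow
  obtain ⟨d, hd⟩ := MHon.poly_le q
  have hhon : ∀ x : W, x.length ≤ ((F j x).length + 2) ^ d := fun x => (hq x).trans (hd _)
  obtain ⟨s, hreq, hda, hs⟩ := w.exists_late hnQ j d e hhon he
  obtain ⟨x, hx1, hx2, hv⟩ := w.viol s
  rw [hreq] at hv
  unfold V2 at hv
  simp only [Bool.and_eq_true, Bool.or_eq_true, decide_eq_true_eq] at hv
  obtain ⟨hnx, hv⟩ := hv
  have hX : w.X n x.length = true := (w.iff _ _).2 ⟨s, by rw [hreq], hx1, hx2⟩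
  have h1 := hhon (false :: st n x)
  have h2 : x.length ≤ (false :: st n x).length := by
    rw [List.length_cons, length_st]
    omega
  have h3 : false :: st n x ∉ AS2 w A P := by
    rw [false_mem_AS2, not_not, w.pword_st]
    exact ⟨hnP, hnx, hX⟩
  rw [hfA] at h3
  rcases hv with hv | hv
  · omega
  · cases hF : F j (false :: st n x) with
    | nil =>
      rw [hF] at h1
      simp only [List.length_nil, Nat.zero_add] at h1
      omega
    | cons b y =>
      cases b with
      | false =>
        rw [hF, false_mem_AS2, not_not] at h3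
        exact hs x hx1 hx2 hnx y hF h3
      | true =>
        rw [hF, ← true_mem_AS2] at h3
        rw [← hA] at h3
        rw [hF] at hv
        simp [h3] at hv

/-- the violations are unbounded -/
theorem unbounded_V2 {A : Set W} {cA : W → Bool} (hA : ∀ x, cA x = true ↔ x ∈ A)
    (hno : ¬ ∃ u, FP u ∧ Honest u ∧ ∀ x, u x ∉ A) (q : ℕ × ℕ × ℕ) (a : ℕ) :
    ∃ x : W, a ≤ x.length ∧ V2 cA q x = true := by
  by_contra hcon
  push Not at hcon
  obtain ⟨j, d, n⟩ := q
  have h0 : ∀ x : W, a ≤ x.length → n ≤ x.length →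
      x.length ≤ ((F j (false :: st n x)).length + 2) ^ d ∧
        ∃ y, F j (false :: st n x) = true :: y ∧ y ∉ A := by
    intro x hax hnx
    have h1 := hcon x hax
    unfold V2 at h1
    simp only [Bool.and_eq_true, Bool.or_eq_true, decide_eq_true_eq, ne_eq, not_and, not_or,
      not_lt] at h1
    obtain ⟨h2, h3⟩ := h1 hnx
    refine ⟨h2, ?_⟩
    cases hF : F j (false :: st n x) with
    | nil => rw [hF] at h3; simp at h3
    | cons b y =>
      cases b with
      | false => rw [hF] at h3; simp at h3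
      | true =>
        refine ⟨y, rfl, ?_⟩
        rw [hF] at h3
        simp only [List.head?_cons, decide_true, Bool.true_and, List.tail_cons] at h3
        rw [← hA]
        simpa using h3
  have hc : ∀ z : W, (st (a + n) z).length = a + n + z.length + 1 := fun z => length_st _ _
  refine hno ⟨fun z => (F j (false :: st n (st (a + n) z))).tail, ?_,
    ⟨(Polynomial.X + 3) ^ d, fun z => ?_⟩, fun z => ?_⟩
  · rw [fp_iff]
    have h1 := fp_iff.1 (fp_F j)
    have h2 : PolyF (fun z : W => st (a + n) z) := polyF_st.comp ((PolyF.const _).pair PolyF.id)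
    have h3 : PolyF (fun z : W => st n (st (a + n) z)) := polyF_st.comp ((PolyF.const _).pair h2)
    exact (h1.comp ((PolyF.const false).cons h3)).tail
  · obtain ⟨h1, y, hy, _⟩ := h0 (st (a + n) z) (by rw [hc]; omega) (by rw [hc]; omega)
    rw [hc, hy] at h1
    simp only [hy, List.tail_cons, Polynomial.eval_pow, Polynomial.eval_add, Polynomial.eval_X,
      Polynomial.eval_ofNat]
    rw [List.length_cons, show y.length + 1 + 2 = y.length + 3 by omega] at h1
    omega
  · obtain ⟨h1, y, hy, h2⟩ := h0 (st (a + n) z) (by rw [hc]; omega) (by rw [hc]; omega)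
    simp only [hy, List.tail_cons]
    exact h2

/-- the second case -/
theorem case2 {A : Set W} (hA : Complete NEXP A)
    (hno : ¬ ∃ u, FP u ∧ Honest u ∧ ∀ x, u x ∉ A) : AllOrders NEXP := by
  intro α _ _
  obtain ⟨cA, hcA, hcA2⟩ := hA.1.prim
  obtain ⟨w⟩ := exists_pwindows (prim_V2 hcA) (unbounded_V2 hcA2 hno)
  obtain ⟨φ, hφ, hφ2⟩ := MHon.Anti.exists_sets α
  refine ⟨fun a => AS2 w A (φ a), fun a => ?_, fun a b => ⟨fun h => ?_, fun hab => ?_⟩⟩
  · obtain ⟨N, S, hS⟩ := hφ a
    exact complete_AS2 w hA hS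
  · by_contra hab
    rw [← hφ2, Set.not_subset] at hab
    obtain ⟨n, hn, hnb⟩ := hab
    exact not_red_AS2 hcA2 w hn hnb h
  · obtain ⟨N, S, hS⟩ := hφ a
    exact red_AS2 w ((hφ2 a b).2 hab) hS

end MHE
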