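import Pool.Agent.Lib.MP_1a14d4_he.Slow1
import Pool.Agent.Lib.MP_1a14d4_he.NumW
import Pool.Agent.Lib.MP_1a14d4_he.FPrim
import Pool.Agent.Lib.MP_1a14d4_he.AntiWin

/-!
# Sparse windows of lengths, decidable in polynomial time, each with a violation

The windows and the gaps are the stages of a state machine: a stage ends when a slow search for a
violation, respectively for the value of `b + 2 ^ b`, succeeds.
-/

namespace MHE

open Pool.Agent.Lib.PolyTime

/-- windows of lengths; the window number `s` contains a word `x` with `V (req s) x` -/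
structure PWindows (V : ℕ × ℕ × ℕ → W → Bool) where
  /-- the left ends -/
  a : ℕ → ℕ
  /-- the right ends -/
  b : ℕ → ℕ
  /-- the lengths in the windows of the number `n` -/
  X : ℕ → ℕ → Bool
  hX : PolyF (fun p : ℕ × ℕ => X p.1 p.2)
  le : ∀ s, a s ≤ b s
  gap : ∀ s, b s + 2 ^ b s ≤ a (s + 1)
  iff : ∀ n l, X n l = true ↔ ∃ s, (MHon.Anti.req s).2.2 = n ∧ a s ≤ l ∧ l ≤ b s
  viol : ∀ s, ∃ x : W, a s ≤ x.length ∧ x.length ≤ b s ∧ V (MHon.Anti.req s) x = true

private theorem dwin_natPair {α : Type*} [TEnc α] {f g : α → ℕ} (hf : PolyF f) (hg : PolyF g) :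
    PolyF (fun x => Nat.pair (f x) (g x)) := by
  refine (PolyF.ite (p := fun x => f x < g x) (PolyF.natLt hf hg)
    (PolyF.natAdd (PolyF.natMul hg hg) hf)
    (PolyF.natAdd (PolyF.natAdd (PolyF.natMul hf hf) hf) hg)).congr fun x => ?_
  rfl

private theorem dwin_unpair : PolyF (fun a : ℕ => Nat.unpair a) := by
  have h1 : PolyF (fun a : ℕ => List.range (a + 1) ×ˢ List.range (a + 1)) :=
    PolyF.product (PolyF.range (PolyF.succ PolyF.id)) (PolyF.range (PolyF.succ PolyF.id))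
  have h2 : PolyF (fun q : ℕ × (ℕ × ℕ) => decide (Nat.pair q.2.1 q.2.2 = q.1)) :=
    PolyF.natEq (dwin_natPair PolyF.snd'.fst PolyF.snd'.snd) PolyF.fst'
  have h3 := PolyF.getD (PolyF.find? (p := fun (a : ℕ) (b : ℕ × ℕ) => decide (Nat.pair b.1 b.2 = a))
    h1 h2) (PolyF.const ((0, 0) : ℕ × ℕ))
  refine h3.congr fun a => ?_
  have hmem : Nat.unpair a ∈ List.range (a + 1) ×ˢ List.range (a + 1) := by
    have e1 := Nat.unpair_left_le a
    have e2 := Nat.unpair_right_le a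
    rw [← Prod.mk.eta (p := Nat.unpair a), List.mem_product, List.mem_range, List.mem_range]
    omega
  obtain ⟨b, hb⟩ : ∃ b, (List.range (a + 1) ×ˢ List.range (a + 1)).find?
      (fun b => decide (Nat.pair b.1 b.2 = a)) = some b := by
    rw [← Option.isSome_iff_exists, List.find?_isSome]
    exact ⟨_, hmem, by simp⟩
  have h4 := List.find?_some hb
  simp only [decide_eq_true_eq] at h4
  rw [hb]
  simp only [Option.getD_some]
  rw [← h4, Nat.unpair_pair]

/-- the search of the stage `s` with the left end `a` succeeds at `l` -/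
private def dwT1 (s1 : ℕ × ℕ → Option ℕ) (s a l : ℕ) : Bool :=
  (List.range (l + 1)).any fun b' => decide (s1 (Nat.pair (Nat.pair s a) b', l) = some 1)

/-- one step of the state machine -/
private def dwStep (s1 s2 : ℕ × ℕ → Option ℕ) (l : ℕ) (q : Bool × ℕ × ℕ) : Bool × ℕ × ℕ :=
  bif q.1 then (bif dwT1 s1 q.2.1 q.2.2 l then (false, q.2.1, l) else q)
  else (bif (s2 (q.2.2, l)).isSome then (true, q.2.1 + 1, l + 1) else q)

/-- the states -/
private def dwSt (s1 s2 : ℕ × ℕ → Option ℕ) : ℕ → Bool × ℕ × ℕ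
  | 0 => (true, 0, 0)
  | l + 1 => dwStep s1 s2 l (dwSt s1 s2 l)

private theorem dwSt_le (s1 s2 : ℕ × ℕ → Option ℕ) (l : ℕ) :
    (dwSt s1 s2 l).2.1 ≤ l ∧ (dwSt s1 s2 l).2.2 ≤ l := by
  induction l with
  | zero => exact ⟨le_rfl, le_rfl⟩
  | succ l ih =>
    obtain ⟨h1, h2⟩ := ih
    show (dwStep s1 s2 l (dwSt s1 s2 l)).2.1 ≤ l + 1 ∧ (dwStep s1 s2 l (dwSt s1 s2 l)).2.2 ≤ l + 1
    generalize dwSt s1 s2 l = q at h1 h2 ⊢
    obtain ⟨act, s, c⟩ := q
    simp only at h1 h2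
    unfold dwStep
    cases act with
    | true =>
      simp only [cond_true]
      cases dwT1 s1 s c l with
      | true => simp only [cond_true]; omega
      | false => simp only [cond_false]; omega
    | false =>
      simp only [cond_false]
      cases (s2 (c, l)).isSome with
      | true => simp only [cond_true]; omega
      | false => simp only [cond_false]; omega

private theorem dwSt_polyF {s1 s2 : ℕ × ℕ → Option ℕ} (h1 : PolyF s1) (h2 : PolyF s2) :
    PolyF (dwSt s1 s2) := by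
  have hT : PolyF (fun p : ℕ × (Bool × ℕ × ℕ) => dwT1 s1 p.2.2.1 p.2.2.2 p.1) := by
    unfold dwT1
    refine PolyF.any (l := fun p : ℕ × (Bool × ℕ × ℕ) => List.range (p.1 + 1))
      (p := fun p b' => decide (s1 (Nat.pair (Nat.pair p.2.2.1 p.2.2.2) b', p.1) = some 1))
      (PolyF.range (PolyF.succ PolyF.fst')) ?_
    have h3 : PolyF (fun q : (ℕ × (Bool × ℕ × ℕ)) × ℕ =>
        s1 (Nat.pair (Nat.pair q.1.2.2.1 q.1.2.2.2) q.2, q.1.1)) :=
      h1.comp ((dwin_natPair (dwin_natPair PolyF.fst'.snd.snd.fst PolyF.fst'.snd.snd.snd)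
        PolyF.snd').pair PolyF.fst'.fst)
    exact PolyF.eqConst (some 1) h3
  have hS : PolyF (fun p : ℕ × (Bool × ℕ × ℕ) => dwStep s1 s2 p.1 p.2) := by
    unfold dwStep
    refine PolyF.cond (c := fun p : ℕ × (Bool × ℕ × ℕ) => p.2.1) PolyF.snd'.fst ?_ ?_
    · exact PolyF.cond hT ((PolyF.const false).pair (PolyF.snd'.snd.fst.pair PolyF.fst'))
        PolyF.snd'
    · exact PolyF.cond (h2.comp (PolyF.snd'.snd.snd.pair PolyF.fst')).isSome
        ((PolyF.const true).pair ((PolyF.succ PolyF.snd'.snd.fst).pair (PolyF.succ PolyF.fst')))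
        PolyF.snd'
  have key : ∀ n : ℕ, (fun p : ℕ × (Bool × ℕ × ℕ) => (p.1 + 1, dwStep s1 s2 p.1 p.2))^[n]
      (0, (true, 0, 0)) = (n, dwSt s1 s2 n) := by
    intro n
    induction n with
    | zero => rfl
    | succ n ih =>
      rw [Function.iterate_succ_apply', ih]
      rfl
  refine (PolyF.natIterate (n := fun n : ℕ => n)
    (f := fun (_ : ℕ) (p : ℕ × (Bool × ℕ × ℕ)) => (p.1 + 1, dwStep s1 s2 p.1 p.2))
    (g := fun _ => ((0, (true, 0, 0)) : ℕ × (Bool × ℕ × ℕ))) PolyF.id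
    ((PolyF.succ PolyF.snd'.fst).pair (hS.comp PolyF.snd')) (PolyF.const _) ?_).snd.congr
    fun n => by rw [key]
  refine ⟨3 * Polynomial.X + 4, fun n i hi => ?_⟩
  rw [key]
  obtain ⟨e1, e2⟩ := dwSt_le s1 s2 i
  have e3 := sz_bool_le (dwSt s1 s2 i).1
  rw [sz_prod, sz_prod, sz_prod, sz_nat, sz_nat, sz_nat]
  simp only [sz_nat, Polynomial.eval_add, Polynomial.eval_mul, Polynomial.eval_ofNat,
    Polynomial.eval_X]
  omega

/-- the state does not change as long as the test fails -/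
private theorem dwSt_const {s1 s2 : ℕ × ℕ → Option ℕ} {a b : ℕ} {q : Bool × ℕ × ℕ}
    (ha : dwSt s1 s2 a = q) (h : ∀ l, a ≤ l → l < b → dwStep s1 s2 l q = q) :
    ∀ l, a ≤ l → l ≤ b → dwSt s1 s2 l = q := by
  intro l hal
  induction l, hal using Nat.le_induction with
  | base => exact fun _ => ha
  | succ l hl ih =>
    intro hlb
    show dwStep s1 s2 l (dwSt s1 s2 l) = q
    rw [ih (by omega)]
    exact h l hl (by omega)

/-- the stage and the gap after it -/
private theorem dwSt_stage {V : ℕ × ℕ × ℕ → W → Bool}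
    {h1 : ℕ → ℕ} (hh1 : ∀ s a b', h1 (Nat.pair (Nat.pair s a) b') = 1 ↔
      ∃ x : W, a ≤ x.length ∧ x.length ≤ b' ∧ V (MHon.Anti.req s) x = true)
    (hunb : ∀ q a, ∃ x : W, a ≤ x.length ∧ V q x = true)
    {s1 s2 : ℕ × ℕ → Option ℕ} (c1 : ∀ a t b, s1 (a, t) = some b → b = h1 a ∧ b ≤ t)
    (l1 : ∀ a, ∃ T, ∀ t ≥ T, s1 (a, t) = some (h1 a))
    (c2 : ∀ a t b, s2 (a, t) = some b → b = a + 2 ^ a ∧ b ≤ t)
    (l2 : ∀ a, ∃ T, ∀ t ≥ T, s2 (a, t) = some (a + 2 ^ a))
    (s a : ℕ) (ha : dwSt s1 s2 a = (true, s, a)) :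
    ∃ b a' : ℕ, a ≤ b ∧ b + 2 ^ b ≤ a' ∧ (∀ l, a ≤ l → l ≤ b → dwSt s1 s2 l = (true, s, a)) ∧
      (∀ l, b < l → l < a' → dwSt s1 s2 l = (false, s, b)) ∧ dwSt s1 s2 a' = (true, s + 1, a') ∧
      ∃ x : W, a ≤ x.length ∧ x.length ≤ b ∧ V (MHon.Anti.req s) x = true := by
  classical
  obtain ⟨x0, hx0, hV0⟩ := hunb (MHon.Anti.req s) a
  obtain ⟨T1, hT1⟩ := l1 (Nat.pair (Nat.pair s a) x0.length)
  have hex : ∃ l, a ≤ l ∧ dwT1 s1 s a l = true := by
    refine ⟨max T1 x0.length, hx0.trans (le_max_right _ _), ?_⟩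
    unfold dwT1
    rw [List.any_eq_true]
    refine ⟨x0.length, List.mem_range.2 (Nat.lt_succ_of_le (le_max_right _ _)), ?_⟩
    rw [decide_eq_true_eq, hT1 _ (le_max_left _ _), (hh1 s a x0.length).2 ⟨x0, hx0, le_rfl, hV0⟩]
  obtain ⟨b, ⟨hab, hb⟩, hbmin⟩ : ∃ b, (a ≤ b ∧ dwT1 s1 s a b = true) ∧
      ∀ l, a ≤ l → l < b → dwT1 s1 s a l = false := by
    refine ⟨Nat.find hex, Nat.find_spec hex, fun l hl hlb => ?_⟩
    have := Nat.find_min hex hlb
    rw [not_and, Bool.not_eq_true] at this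
    exact this hl
  have hst1 : ∀ l, a ≤ l → l ≤ b → dwSt s1 s2 l = (true, s, a) := by
    refine dwSt_const ha fun l hl hlb => ?_
    unfold dwStep
    simp only [hbmin l hl hlb, cond_true, cond_false]
  have hst2 : dwSt s1 s2 (b + 1) = (false, s, b) := by
    show dwStep s1 s2 b (dwSt s1 s2 b) = _
    rw [hst1 b hab le_rfl]
    unfold dwStep
    simp only [hb, cond_true]
  obtain ⟨T2, hT2⟩ := l2 b
  have hex2 : ∃ l, b + 1 ≤ l ∧ (s2 (b, l)).isSome = true :=
    ⟨max T2 (b + 1), le_max_right _ _, by rw [hT2 _ (le_max_left _ _)]; rfl⟩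
  obtain ⟨e, ⟨hbe, he⟩, hemin⟩ : ∃ e, (b + 1 ≤ e ∧ (s2 (b, e)).isSome = true) ∧
      ∀ l, b + 1 ≤ l → l < e → (s2 (b, l)).isSome = false := by
    refine ⟨Nat.find hex2, Nat.find_spec hex2, fun l hl hlb => ?_⟩
    have := Nat.find_min hex2 hlb
    rw [not_and, Bool.not_eq_true] at this
    exact this hl
  have hst3 : ∀ l, b + 1 ≤ l → l ≤ e → dwSt s1 s2 l = (false, s, b) := by
    refine dwSt_const hst2 fun l hl hlb => ?_
    unfold dwStep
    simp only [hemin l hl hlb, cond_false]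
  have hst4 : dwSt s1 s2 (e + 1) = (true, s + 1, e + 1) := by
    show dwStep s1 s2 e (dwSt s1 s2 e) = _
    rw [hst3 e hbe le_rfl]
    unfold dwStep
    simp only [he, cond_true, cond_false]
  refine ⟨b, e + 1, hab, ?_, hst1, fun l hl hle => hst3 l hl (by omega), hst4, ?_⟩
  · obtain ⟨v, hv⟩ := Option.isSome_iff_exists.1 he
    obtain ⟨rfl, hv2⟩ := c2 _ _ _ hv
    omega
  · unfold dwT1 at hb
    rw [List.any_eq_true] at hb
    obtain ⟨b', hb', hs⟩ := hb
    rw [decide_eq_true_eq] at hs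
    rw [List.mem_range] at hb'
    obtain ⟨x, hx1, hx2, hx3⟩ := (hh1 s a b').1 (c1 _ _ _ hs).1.symm
    exact ⟨x, hx1, by omega, hx3⟩

open Classical in
private theorem dwin_h1 {V : ℕ × ℕ × ℕ → W → Bool} (hV : Primrec₂ V) :
    ∃ h1 : ℕ → ℕ, Nat.Primrec h1 ∧ ∀ s a b', h1 (Nat.pair (Nat.pair s a) b') = 1 ↔
      ∃ x : W, a ≤ x.length ∧ x.length ≤ b' ∧ V (MHon.Anti.req s) x = true := by
  have hreq : Primrec MHon.Anti.req := by
    have hu : Primrec Nat.unpair := Primrec.unpair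
    have h1 : Primrec (fun s : ℕ => s.unpair.1.unpair) := hu.comp (Primrec.fst.comp hu)
    have h2 : Primrec (fun s : ℕ => s.unpair.1.unpair.2.unpair) := hu.comp (Primrec.snd.comp h1)
    exact (Primrec.fst.comp h1).pair ((Primrec.fst.comp h2).pair (Primrec.snd.comp h2))
  have hs : Primrec (fun p : ℕ × ℕ => p.2.unpair.1.unpair.1) :=
    Primrec.fst.comp (Primrec.unpair.comp (Primrec.fst.comp (Primrec.unpair.comp Primrec.snd)))
  have ha : Primrec (fun p : ℕ × ℕ => p.2.unpair.1.unpair.2) :=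
    Primrec.snd.comp (Primrec.unpair.comp (Primrec.fst.comp (Primrec.unpair.comp Primrec.snd)))
  have hb : Primrec (fun p : ℕ × ℕ => p.2.unpair.2) :=
    Primrec.snd.comp (Primrec.unpair.comp Primrec.snd)
  have hw : Primrec (fun p : ℕ × ℕ => wordOf p.1) := prim_wordOf.comp Primrec.fst
  have hlen : Primrec (fun p : ℕ × ℕ => (wordOf p.1).length) := Primrec.list_length.comp hw
  have hR : PrimrecRel (fun (m c : ℕ) => V (MHon.Anti.req c.unpair.1.unpair.1) (wordOf m) = true ∧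
      c.unpair.1.unpair.2 ≤ (wordOf m).length ∧ (wordOf m).length ≤ c.unpair.2) := by
    have h1 : PrimrecPred (fun p : ℕ × ℕ =>
        V (MHon.Anti.req p.2.unpair.1.unpair.1) (wordOf p.1) = true) :=
      Primrec.eq.comp (hV.comp (hreq.comp hs) hw) (Primrec.const true)
    have h2 : PrimrecPred (fun p : ℕ × ℕ => p.2.unpair.1.unpair.2 ≤ (wordOf p.1).length) :=
      Primrec.nat_le.comp ha hlen
    have h3 : PrimrecPred (fun p : ℕ × ℕ => (wordOf p.1).length ≤ p.2.unpair.2) :=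
      Primrec.nat_le.comp hlen hb
    exact (h1.and (h2.and h3)).primrecRel
  have hpow : Primrec (fun c : ℕ => 2 ^ (c.unpair.2 + 1)) :=
    prim_pow.comp (Primrec.const 2) (Primrec.succ.comp (Primrec.snd.comp Primrec.unpair))
  have hP : PrimrecPred (fun c : ℕ => ∃ m < 2 ^ (c.unpair.2 + 1),
      V (MHon.Anti.req c.unpair.1.unpair.1) (wordOf m) = true ∧
      c.unpair.1.unpair.2 ≤ (wordOf m).length ∧ (wordOf m).length ≤ c.unpair.2) :=
    hR.exists_lt.comp hpow Primrec.id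
  refine ⟨fun c => if ∃ m < 2 ^ (c.unpair.2 + 1),
      V (MHon.Anti.req c.unpair.1.unpair.1) (wordOf m) = true ∧
      c.unpair.1.unpair.2 ≤ (wordOf m).length ∧ (wordOf m).length ≤ c.unpair.2 then 1 else 0,
    Primrec.nat_iff.1 (Primrec.ite hP (Primrec.const 1) (Primrec.const 0)), fun s a b' => ?_⟩
  simp only [Nat.unpair_pair]
  constructor
  · intro h
    split_ifs at h with hc
    · obtain ⟨m, -, h1, h2, h3⟩ := hc
      exact ⟨wordOf m, h2, h3, h1⟩
  · rintro ⟨x, h1, h2, h3⟩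
    rw [if_pos]
    refine ⟨num x, ?_, ?_⟩
    · have e1 := num_lt x
      have e2 : 2 ^ (x.length + 1) ≤ 2 ^ (b' + 1) := Nat.pow_le_pow_right (by norm_num) (by omega)
      omega
    · rw [wordOf_num]
      exact ⟨h3, h1, h2⟩

theorem exists_pwindows {V : ℕ × ℕ × ℕ → W → Bool} (hV : Primrec₂ V)
    (hunb : ∀ q a, ∃ x : W, a ≤ x.length ∧ V q x = true) : Nonempty (PWindows V) := by
  classical
  obtain ⟨h1, hp1, hh1⟩ := dwin_h1 hV
  have hp2 : Nat.Primrec (fun b => b + 2 ^ b) :=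
    Primrec.nat_iff.1 (Primrec.nat_add.comp Primrec.id (prim_pow.comp (Primrec.const 2) Primrec.id))
  obtain ⟨s1, q1, c1, l1⟩ := exists_budget hp1
  obtain ⟨s2, q2, c2, l2⟩ := exists_budget hp2
  have hstage := dwSt_stage hh1 hunb c1 l1 c2 l2
  choose B A' g1 g2 g3 g4 g5 g6 using hstage
  let A : (s : ℕ) → {a : ℕ // dwSt s1 s2 a = (true, s, a)} := fun s =>
    Nat.rec (motive := fun s => {a : ℕ // dwSt s1 s2 a = (true, s, a)}) ⟨0, rfl⟩
      (fun s a => ⟨A' s a.1 a.2, g5 s a.1 a.2⟩) s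
  have hA : ∀ s, (A (s + 1)).1 = A' s (A s).1 (A s).2 := fun s => rfl
  have hlt : ∀ s, (A s).1 < (A (s + 1)).1 := by
    intro s
    have e1 := g1 s (A s).1 (A s).2
    have e2 := g2 s (A s).1 (A s).2
    rw [hA]
    have e3 : 0 < 2 ^ B s (A s).1 (A s).2 := by positivity
    omega
  have hloc : ∀ l, ∃ s, (A s).1 ≤ l ∧ l < (A (s + 1)).1 := by
    intro l
    induction l with
    | zero =>
      refine ⟨0, le_rfl, ?_⟩
      have := hlt 0
      omega
    | succ l ih =>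
      obtain ⟨s, h2, h3⟩ := ih
      rcases Nat.lt_or_ge (l + 1) (A (s + 1)).1 with h4 | h4
      · exact ⟨s, by omega, h4⟩
      · refine ⟨s + 1, h4, ?_⟩
        have := hlt (s + 1)
        omega
  refine ⟨{
    a := fun s => (A s).1
    b := fun s => B s (A s).1 (A s).2
    X := fun n l => (dwSt s1 s2 l).1 && decide ((MHon.Anti.req (dwSt s1 s2 l).2.1).2.2 = n)
    hX := ?_
    le := fun s => g1 s _ _
    gap := fun s => g2 s (A s).1 (A s).2
    iff := ?_
    viol := fun s => g6 s (A s).1 (A s).2 }⟩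
  · have h2 : PolyF (fun p : ℕ × ℕ => dwSt s1 s2 p.2) := (dwSt_polyF q1 q2).comp PolyF.snd'
    have h3 : PolyF (fun s : ℕ => s.unpair.1.unpair.2.unpair.2) :=
      (dwin_unpair.comp (dwin_unpair.comp dwin_unpair.fst).snd).snd
    have h4 : PolyF (fun s : ℕ => (MHon.Anti.req s).2.2) := h3
    exact h2.fst.and ((h4.comp h2.snd.fst).natEq PolyF.fst')
  · intro n l
    rw [Bool.and_eq_true, decide_eq_true_eq]
    constructor
    · rintro ⟨h2, h3⟩
      obtain ⟨s, h4, h5⟩ := hloc l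
      rcases Nat.lt_or_ge (B s (A s).1 (A s).2) l with h6 | h6
      · have h7 := g4 s (A s).1 (A s).2 l h6 (by rw [← hA]; exact h5)
        rw [h7] at h2
        cases h2
      · have h7 := g3 s (A s).1 (A s).2 l h4 h6
        rw [h7] at h3
        exact ⟨s, h3, h4, h6⟩
    · rintro ⟨s, h2, h3, h4⟩
      have h7 := g3 s (A s).1 (A s).2 l h3 h4
      rw [h7]
      exact ⟨rfl, h2⟩

end MHE
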