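import Pool.Agent.Lib.MP_1a14d4_he.DPre
import Pool.Agent.Lib.MP_1a14d4_he.DWin
import Pool.Agent.Lib.MP_1a14d4_he.StOps

/-!
# The words of a set of columns, and the gaps between the windows
-/

namespace MHE

open Pool.Agent.Lib.PolyTime

namespace PWindows

variable {V : ℕ × ℕ × ℕ → W → Bool} (w : PWindows V)

theorem lt_succ (s : ℕ) : w.b s < w.a (s + 1) := by
  have h1 := w.gap s
  have : 1 ≤ 2 ^ w.b s := Nat.one_le_two_pow
  omega

theorem le_a (s : ℕ) : s ≤ w.a s := by
  induction s with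
  | zero => exact Nat.zero_le _
  | succ s ih =>
    have h1 := w.le s
    have h2 := w.lt_succ s
    omega

theorem a_mono : Monotone w.a := by
  refine monotone_nat_of_le_succ fun s => ?_
  have h1 := w.le s
  have h2 := w.lt_succ s
  omega

theorem b_mono : Monotone w.b := by
  refine monotone_nat_of_le_succ fun s => ?_
  have h1 := w.le (s + 1)
  have h2 := w.lt_succ s
  omega

/-- `y = st m x` with `m ∈ P`, `m ≤ |x|`, and `|x|` in the windows of `m` -/
def PWord (P : Set ℕ) (y : W) : Prop :=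
  ∃ m x, y = st m x ∧ m ∈ P ∧ m ≤ x.length ∧ w.X m x.length = true

theorem pword_st {P : Set ℕ} {m : ℕ} {x : W} :
    w.PWord P (st m x) ↔ m ∈ P ∧ m ≤ x.length ∧ w.X m x.length = true := by
  constructor
  · rintro ⟨m', x', h, h1⟩
    obtain ⟨rfl, rfl⟩ := st_inj h
    exact h1
  · intro h
    exact ⟨m, x, rfl, h⟩

theorem PWord.mono {w : PWindows V} {P Q : Set ℕ} (hPQ : P ⊆ Q) {y : W} (h : w.PWord P y) :
    w.PWord Q y := by
  obtain ⟨m, x, h0, h1, h2⟩ := h
  exact ⟨m, x, h0, hPQ h1, h2⟩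

theorem not_pword_ones {P : Set ℕ} (y : W) : ¬ w.PWord P (y.map fun _ => true) := by
  rintro ⟨m, x, h, _⟩
  have h2 : false ∈ y.map (fun _ => true) := by
    rw [h, st]
    simp
  simp at h2

/-- the test for the words of `P`, if `P` is a union of residue classes modulo `N` -/
def pwb (N : ℕ) (S : List ℕ) (y : W) : Bool :=
  decide (idx y % N ∈ S) && (decide (idx y ≤ (arg y).length) &&
    (w.X (idx y) (arg y).length && decide (y = st (idx y) (arg y))))

theorem pwb_iff {P : Set ℕ} {N : ℕ} {S : List ℕ} (hP : ∀ m, m ∈ P ↔ m % N ∈ S) (y : W) :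
    w.pwb N S y = true ↔ w.PWord P y := by
  simp only [pwb, Bool.and_eq_true, decide_eq_true_eq]
  constructor
  · rintro ⟨h1, h2, h3, h4⟩
    exact ⟨idx y, arg y, h4, (hP _).2 h1, h2, h3⟩
  · rintro ⟨m, x, rfl, h1, h2, h3⟩
    rw [idx_st, arg_st]
    exact ⟨(hP _).1 h1, h2, h3, rfl⟩

theorem polyF_pwb (N : ℕ) (S : List ℕ) : PolyF (w.pwb N S) := by
  have h1 : PolyF (fun y : W => idx y % N) := polyF_idx.natMod (PolyF.const N)
  have h2 : PolyF (fun y : W => decide (idx y % N ∈ S)) := h1.mem (PolyF.const S)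
  have h3 : PolyF (fun y : W => (arg y).length) := polyF_arg.length
  have h4 : PolyF (fun y : W => w.X (idx y) (arg y).length) :=
    w.hX.comp (polyF_idx.pair h3)
  have h5 : PolyF (fun y : W => st (idx y) (arg y)) := polyF_st.comp (polyF_idx.pair polyF_arg)
  have h6 : PolyF (fun y : W => decide (y = st (idx y) (arg y))) := PolyF.id.eq h5
  exact h2.and ((polyF_idx.natLe h3).and (h4.and h6))

/-- The gap lemma: in a late window of `n` an honest function does not move the words of the column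
`n` to the words of a set of columns without `n`. -/
theorem exists_late {Q : Set ℕ} {n : ℕ} (hnQ : n ∉ Q) {f : W → W} (j d e : ℕ)
    (hhon : ∀ x : W, x.length ≤ ((f x).length + 2) ^ d)
    (hlen : ∀ x : W, (f x).length ≤ (x.length + 2) ^ e) :
    ∃ s, MHon.Anti.req s = (j, d, n) ∧ 2 ^ d < w.a s ∧
      ∀ x : W, w.a s ≤ x.length → x.length ≤ w.b s → n ≤ x.length →
        ∀ y, f (false :: st n x) = false :: y → ¬ w.PWord Q y := by
  obtain ⟨N, hN⟩ : ∃ N, ∀ b ≥ N, (2 * b + 4) ^ d < 2 ^ b ∧ (2 * b + 4) ^ e < 2 ^ b := by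
    have h1 := MHon.subexp_poly (2 * Polynomial.X + 4)
    have h2 := (h1 d).and (h1 e)
    obtain ⟨N, hN⟩ := Filter.eventually_atTop.1 h2
    refine ⟨N, fun b hb => ?_⟩
    have h3 := hN b hb
    simpa using h3
  have h2d : 0 < 2 ^ d := by positivity
  obtain ⟨s, hs, hreq⟩ := MHon.Anti.req_often (j, d, n) (N + 2 ^ d + 1)
  obtain ⟨s', rfl⟩ : ∃ s', s = s' + 1 := ⟨s - 1, by omega⟩
  have hbs' : N ≤ w.b s' := by
    have h1 := w.le_a s'
    have h2 := w.le s'
    omega
  have hbs : N ≤ w.b (s' + 1) := hbs'.trans (w.b_mono (Nat.le_succ s'))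
  refine ⟨s' + 1, hreq, ?_, ?_⟩
  · have := w.le_a (s' + 1)
    omega
  rintro x hx1 hx2 hnx y hy ⟨m, x', rfl, hmQ, hmx, hXm⟩
  obtain ⟨t, ht, ht1, ht2⟩ := (w.iff _ _).1 hXm
  have hFl : (f (false :: st n x)).length = x'.length + m + 2 := by
    rw [hy, List.length_cons, length_st]
    omega
  have hcl : (false :: st n x).length = x.length + n + 2 := by
    rw [List.length_cons, length_st]
    omega
  have hlow : x.length ≤ (2 * x'.length + 4) ^ d := by
    have h4 := hhon (false :: st n x)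
    rw [hcl, hFl] at h4
    have h5 : (x'.length + m + 2 + 2) ^ d ≤ (2 * x'.length + 4) ^ d :=
      Nat.pow_le_pow_left (by omega) _
    omega
  have hupp : x'.length ≤ (2 * x.length + 4) ^ e := by
    have h4 := hlen (false :: st n x)
    rw [hcl, hFl] at h4
    have h5 : (x.length + n + 2 + 2) ^ e ≤ (2 * x.length + 4) ^ e :=
      Nat.pow_le_pow_left (by omega) _
    omega
  rcases lt_trichotomy t (s' + 1) with h4 | h4 | h4
  · have h5 : x'.length ≤ w.b s' := ht2.trans (w.b_mono (by omega))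
    have h6 : (2 * x'.length + 4) ^ d ≤ (2 * w.b s' + 4) ^ d :=
      Nat.pow_le_pow_left (by omega) _
    have h7 := (hN (w.b s') hbs').1
    have h8 := w.gap s'
    omega
  · subst h4
    rw [hreq] at ht
    have h5 : n = m := ht
    rw [h5] at hnQ
    exact hnQ hmQ
  · have h5 : w.a (s' + 1 + 1) ≤ x'.length := (w.a_mono (by omega)).trans ht1
    have h6 : (2 * x.length + 4) ^ e ≤ (2 * w.b (s' + 1) + 4) ^ e :=
      Nat.pow_le_pow_left (by omega) _
    have h7 := (hN (w.b (s' + 1)) hbs).2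
    have h8 := w.gap (s' + 1)
    omega

end PWindows

end MHE
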