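import Pool.Agent.Lib.MP_1a14d4_he.DCase1
import Pool.Agent.Lib.MP_1a14d4_he.DCase2

/-!
# The dichotomy for NEXP

If two sets in the complete m-degree of NEXP are not honestly equivalent then every countable
partial order embeds into the m-honest degrees of the complete sets.
-/

namespace MHE

theorem nexp_allOrders (h : TwoSets NEXP) : AllOrders NEXP := by
  obtain ⟨A, hA, hno⟩ := exists_not_honestRed_KU h
  by_cases hu : ∃ u, FP u ∧ Honest u ∧ ∀ x, u x ∉ A
  · obtain ⟨u, hu, huh, huA⟩ := hu
    exact case1 hA hno hu huh huA
  · exact case2 hA hu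

end MHE
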