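import Pool.Agent.Lib.MP_1a14d4_he.TSpec

/-!
# The truncated predicates are correct if `N` is large

The values, the least words and the padded words of the truncated predicates agree with the values
without truncation for all words of length `≤ n` of the columns `i ≤ n`.
-/

namespace MHE

private theorem rr_le {i k n : ℕ} (hi : i ≤ n) (hk : k ≤ n) : rr i k ≤ rr n n := by
  unfold rr
  gcongr

private theorem FT_pad {ks : ℕ → ℕ → ℕ} (hks : ∀ i n, ks i n ≤ n) {n N i : ℕ} (hB : Big n N)
    (hi : i ≤ n) {w z : W} (hw : w.length ≤ n) (hz : z.length ≤ w.length) :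
    FT (ks i w.length).unpair.1
      (st (min ((z.length + 2) ^ rr i (ks i w.length)) N) z) N =
    F (ks i w.length).unpair.1 (pad (rr i (ks i w.length)) z) := by
  have hk : ks i w.length ≤ n := (hks i w.length).trans hw
  have h1 : (z.length + 2) ^ rr i (ks i w.length) ≤ (n + 2) ^ rr n n :=
    (Nat.pow_le_pow_left (by omega) _).trans (Nat.pow_le_pow_right (by omega) (rr_le hi hk))
  rw [min_eq_left (h1.trans hB.h3)]
  refine FT_eq ?_
  rw [length_st]
  have h2 : (ks i w.length).unpair.1.unpair.2 ≤ n :=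
    ((Nat.unpair_right_le _).trans (Nat.unpair_left_le _)).trans hk
  calc ((z.length + 2) ^ rr i (ks i w.length) + z.length + 1 + 2) ^
        (ks i w.length).unpair.1.unpair.2
      ≤ ((n + 2) ^ rr n n + n + 3) ^ (ks i w.length).unpair.1.unpair.2 :=
        Nat.pow_le_pow_left (by omega) _
    _ ≤ ((n + 2) ^ rr n n + n + 3) ^ n := Nat.pow_le_pow_right (by omega) h2
    _ ≤ N := hB.h4

theorem EVT_iff {ks : ℕ → ℕ → ℕ} (hks : ∀ i n, ks i n ≤ n) {n N i : ℕ} (hB : Big n N) (hi : i ≤ n)
    {w g : W} (hw : w.length ≤ n) : EVT ks i w g N = true ↔ EV ks i w g := by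
  have hn : n < 2 ^ n := Nat.lt_two_pow_self
  have hyw : yT i w N = yv i w := yT_eq hB hi (by omega)
  have hpz : ∀ z : W, z.length ≤ w.length → 2 ^ z.length ≤ N := fun z hz =>
    (Nat.pow_le_pow_right (by norm_num) (by omega)).trans hB.h1
  have hnum : ∀ z : W, z.length ≤ w.length → num z < N := by
    intro z hz
    have h1 := num_lt z
    have h2 : 2 ^ (z.length + 1) ≤ 2 ^ (n + 1) := Nat.pow_le_pow_right (by norm_num) (by omega)
    have h3 := hB.h1
    omega
  unfold EVT EV
  simp only [Bool.and_eq_true, Bool.or_eq_true, decide_eq_true_eq, List.any_eq_true,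
    List.mem_range, hyw]
  refine and_congr_right fun hg => ?_
  have hyg : yT i g N = yv i g :=
    yT_eq hB hi (hg.trans (Nat.pow_le_pow_right (by norm_num) hw))
  rw [hyg]
  refine or_congr Iff.rfl ?_
  constructor
  · rintro ⟨m, _, hm1, hm2, hm3, hm4⟩
    refine ⟨wordOf m, hm1, ?_, hm3, ?_⟩
    · rw [← FT_pad hks hB hi hw hm1]
      exact hm2
    · rw [← UK_eq (hpz _ hm1)]
      exact hm4
  · rintro ⟨z, hz1, hz2, hz3, hz4⟩
    refine ⟨num z, hnum z hz1, ?_⟩
    rw [wordOf_num]
    refine ⟨hz1, ?_, hz3, ?_⟩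
    · rw [FT_pad hks hB hi hw hz1]
      exact hz2
    · rw [UK_eq (hpz z hz1)]
      exact hz4

theorem PNT_iff {ks : ℕ → ℕ → ℕ} (hks : ∀ i n, ks i n ≤ n) {n N i : ℕ} (hB : Big n N) (hi : i ≤ n)
    {w : W} (hw : w.length ≤ n) :
    (∃ g : W, g.length ≤ 2 ^ n ∧ PNT ks i w g N = true) ↔ PN ks i w := by
  have hw0 : (w0 i w).length ≤ n := (length_w0_le i w).trans hw
  unfold PNT PN
  rw [w0T_eq hB hi hw]
  by_cases h : w0 i w = w
  · simp only [h, if_true, true_and, ne_eq, not_true_eq_false, false_and, or_false]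
    constructor
    · rintro ⟨g, _, hg⟩
      exact ⟨g, (EVT_iff hks hB hi hw).1 hg⟩
    · rintro ⟨g, hg⟩
      exact ⟨g, hg.1.trans (Nat.pow_le_pow_right (by norm_num) hw),
        (EVT_iff hks hB hi hw).2 hg⟩
  · simp only [h, if_false, false_and, false_or, ne_eq, not_false_eq_true, true_and,
      Bool.and_eq_true, decide_eq_true_eq, List.all_eq_true, List.mem_range,
      Bool.not_eq_true']
    constructor
    · rintro ⟨_, _, h1, h2⟩
      refine ⟨h1, ?_⟩
      rintro ⟨g, hg⟩
      have hgl : g.length ≤ 2 ^ (w0 i w).length := hg.1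
      have h3 : num g < N := by
        have h4 := num_lt g
        have h5 : 2 ^ (g.length + 1) ≤ 2 ^ (n + 1) := Nat.pow_le_pow_right (by norm_num) (by omega)
        have h6 := hB.h1
        omega
      have h7 := h2 (num g) h3
      rw [wordOf_num, Bool.eq_false_iff] at h7
      exact h7 ((EVT_iff hks hB hi hw0).2 hg)
    · rintro ⟨h1, h2⟩
      refine ⟨[], by simp, h1, fun m _ => ?_⟩
      rw [Bool.eq_false_iff]
      intro hm
      exact h2 ⟨_, (EVT_iff hks hB hi hw0).1 hm⟩

/-- a witness can be replaced by a short one -/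
theorem PNT_short {ks : ℕ → ℕ → ℕ} {n N i : ℕ} {w g : W} (hw : w.length ≤ n)
    (h : PNT ks i w g N = true) : ∃ g : W, g.length ≤ 2 ^ n ∧ PNT ks i w g N = true := by
  by_cases h0 : w0T i w N = w
  · refine ⟨g, ?_, h⟩
    simp only [PNT, if_pos h0, EVT, Bool.and_eq_true, decide_eq_true_eq] at h
    exact h.1.trans (Nat.pow_le_pow_right (by norm_num) hw)
  · refine ⟨[], by simp, ?_⟩
    simp only [PNT, if_neg h0] at h ⊢
    exact h

end MHE
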