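import Pool.Agent.Lib.MP_1a14d4_he.Defs
import Pool.Agent.Lib.MP_1a14d4_lc.Words
import Pool.Agent.Lib.MP_1a14d4_lc.Pow
import Pool.Agent.Lib.MP_1a14d4_lc.Bridge
import Pool.Agent.Lib.PolyTime.Bridge
import Pool.Agent.Lib.PolyTime.EqOps

/-!
# Sets of NEXP from predicates which are polynomial in a unary number `2 ^ p(|x|)`

The witness is the word `1 ^ N 0 g` with `N = 2 ^ p(|x|)`.
-/

namespace MHE

open Pool.Agent.Lib.PolyTime

/-- The number `N` of the word `1 ^ N 0 g`. -/
private def nm (G : W) : ℕ := (G.takeWhile (fun b => b)).length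

/-- The part `g` of the word `1 ^ N 0 g`. -/
private def gp (G : W) : W := (G.dropWhile (fun b => b)).tail

private theorem nm_mk (N : ℕ) (g : W) : nm (List.replicate N true ++ false :: g) = N := by
  unfold nm
  rw [List.takeWhile_append]
  simp

private theorem gp_mk (N : ℕ) (g : W) : gp (List.replicate N true ++ false :: g) = g := by
  unfold gp
  rw [List.dropWhile_append]
  simp

private theorem polyF_nm : PolyF nm := by
  unfold nm
  exact (PolyF.id.takeWhile (p := fun _ b => b) PolyF.snd').length

private theorem polyF_gp : PolyF gp := by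
  unfold gp
  exact (PolyF.id.dropWhile (p := fun _ b => b) PolyF.snd').tail

private theorem polyF_pev {α : Type*} [TEnc α] (P : Polynomial ℕ) {n : α → ℕ} (hn : PolyF n) :
    PolyF (fun x => P.eval (n x)) := by
  induction P using Polynomial.induction_on with
  | C a => exact (PolyF.const a).congr fun x => by rw [Polynomial.eval_C]
  | add p q hp hq => exact (hp.natAdd hq).congr fun x => by rw [Polynomial.eval_add]
  | monomial k a h =>
    refine (h.natMul hn).congr fun x => ?_
    simp only [Polynomial.eval_mul, Polynomial.eval_C, Polynomial.eval_pow, Polynomial.eval_X]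
    ring

/-- the new predicate -/
private def V' (p : Polynomial ℕ) (V : W × W × ℕ → Bool) (q : W × W) : Bool :=
  decide (nm q.2 = 2 ^ p.eval q.1.length) &&
    (decide ((gp q.2).length ≤ nm q.2) && V (q.1, gp q.2, nm q.2))

private theorem polyF_V' (p : Polynomial ℕ) {V : W × W × ℕ → Bool} (hV : PolyF V) :
    PolyF (V' p V) := by
  unfold V'
  have h1 : PolyF (fun q : W × W => nm q.2) := polyF_nm.comp PolyF.snd'
  have h2 : PolyF (fun q : W × W => gp q.2) := polyF_gp.comp PolyF.snd'
  have h3 : PolyF (fun q : W × W => p.eval q.1.length) := polyF_pev p PolyF.fst'.length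
  exact (MHon.polyF_eq_two_pow h1 h3).and ((h2.length.natLe h1).and
    (hV.comp (PolyF.fst'.pair (h2.pair h1))))

theorem nexp_of_polyF {A : Set W} (p : Polynomial ℕ) {V : W × W × ℕ → Bool} (hV : PolyF V)
    (h : ∀ x, x ∈ A ↔ ∃ g : W, g.length ≤ 2 ^ p.eval x.length ∧
      V (x, g, 2 ^ p.eval x.length) = true) : NEXP A := by
  refine ⟨p + 2, V' p V, ?_, fun x => ?_⟩
  · have h1 : PolyF (fun u : List (Option Bool) =>
        ((MHon.brFst u, (MHon.brSnd u).filterMap (fun o => o)) : W × W)) :=
      MHon.polyF_brFst.pair (MHon.polyF_brSnd.filterMap (h := fun _ o => o) PolyF.snd')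
    refine PolyF.tm2_bool ((polyF_V' p hV).comp h1) ?_
    rintro ⟨x, a⟩
    have h2 : MHon.brFst (pairWord (x, a)) = x := MHon.brFst_append x _
    have h3 : (MHon.brSnd (pairWord (x, a))).filterMap (fun o => o) = a := by
      unfold pairWord
      rw [MHon.brSnd_append]
      induction a with
      | nil => rfl
      | cons b a ih => simp
    simp only [h2, h3]
  · rw [h x]
    constructor
    · rintro ⟨g, hg, hv⟩
      refine ⟨List.replicate (2 ^ p.eval x.length) true ++ false :: g, ?_, ?_⟩
      · rw [Polynomial.eval_add, pow_add]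
        have e1 : (Polynomial.eval x.length (2 : Polynomial ℕ)) = 2 := by
          exact Polynomial.eval_ofNat 2 _
        rw [e1]
        have : 0 < 2 ^ p.eval x.length := by positivity
        simp only [List.length_append, List.length_replicate, List.length_cons]
        omega
      · unfold V'
        simp only [nm_mk, gp_mk, decide_true, Bool.true_and, hv, Bool.and_true, decide_eq_true_eq]
        exact hg
    · rintro ⟨G, _, hv⟩
      unfold V' at hv
      simp only [Bool.and_eq_true, decide_eq_true_eq] at hv
      obtain ⟨h1, h2, h3⟩ := hv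
      refine ⟨gp G, ?_, ?_⟩
      · rw [← h1]
        exact h2
      · rw [← h1]
        exact h3

end MHE
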