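import Pool.Agent.Lib.MP_1a14d4_he.BaseN
import Pool.Agent.Lib.MP_1a14d4_lc.VKPoly

/-!
# The universal predicate for NEXP is computable in polynomial time in `N` (unary)

The exponent `n` is at most the length of `z`, so the value does not depend on `N` if
`2 ^ |z| ≤ N`.
-/

namespace MHE

open Pool.Agent.Lib.PolyTime

theorem polyF_UK : PolyF (fun p : W × W × ℕ => UK p.1 p.2.1 p.2.2) := by
  have hl : PolyF (fun p : W × W × ℕ => List.range (p.2.2 + 1)) :=
    PolyF.range PolyF.snd'.snd.succ
  have hz : PolyF (fun q : (W × W × ℕ) × ℕ => MHon.parseT q.1.1) :=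
    MHon.polyF_parseT.comp PolyF.fst'.fst
  have hg : PolyF (fun q : (W × W × ℕ) × ℕ => q.1.2.1) := PolyF.fst'.snd.fst
  have hm : PolyF (fun q : (W × W × ℕ) × ℕ => q.2) := PolyF.snd'
  have hr : PolyF (fun q : (W × W × ℕ) × ℕ => (MHon.parseT q.1.1).right) := PolyF.right.comp hz
  have hrr : PolyF (fun q : (W × W × ℕ) × ℕ => (MHon.parseT q.1.1).right.right) :=
    PolyF.right.comp hr
  have hn : PolyF (fun q : (W × W × ℕ) × ℕ => MHon.decN (MHon.parseT q.1.1).right.right.right) :=
    MHon.polyF_decN.comp (PolyF.right.comp hrr)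
  have hs : PolyF (fun q : (W × W × ℕ) × ℕ => MHon.decN (MHon.parseT q.1.1).right.right.left) :=
    MHon.polyF_decN.comp (PolyF.left.comp hrr)
  have hx : PolyF (fun q : (W × W × ℕ) × ℕ => MHon.decW (MHon.parseT q.1.1).right.left) :=
    MHon.polyF_decW.comp (PolyF.left.comp hr)
  have he : PolyF (fun q : (W × W × ℕ) × ℕ => (MHon.parseT q.1.1).left) := PolyF.left.comp hz
  have hrw : PolyF (fun q : (W × W × ℕ) × ℕ =>
      pairWord (MHon.decW (MHon.parseT q.1.1).right.left, q.1.2.1)) :=
    (MHon.polyF_pairWord.comp (hx.pair hg)).congr fun _ => rfl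
  have hu : PolyF (fun q : (W × W × ℕ) × ℕ => MHon.univ (MHon.parseT q.1.1).left
      (pairWord (MHon.decW (MHon.parseT q.1.1).right.left, q.1.2.1)) q.2) :=
    MHon.polyF_univ.comp (he.pair (hrw.pair hm))
  exact PolyF.any (l := fun p : W × W × ℕ => List.range (p.2.2 + 1))
    (p := fun p m => decide (m = 2 ^ MHon.decN (MHon.parseT p.1).right.right.right) &&
      (decide (p.2.1.length ≤ 2 ^ MHon.decN (MHon.parseT p.1).right.right.left) &&
        decide (MHon.univ (MHon.parseT p.1).left
          (pairWord (MHon.decW (MHon.parseT p.1).right.left, p.2.1)) m = [true]))) hl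
    ((MHon.polyF_eq_two_pow hm hn).and ((MHon.polyF_le_two_pow hg.length hs).and
      (PolyF.eqConst [true] hu)))

private theorem size_right_le (p : T) : p.right.size ≤ p.size := by
  cases p with
  | nil => exact le_rfl
  | node l r =>
    show r.size ≤ _
    simp only [T.size_node]
    omega

private theorem uk_exp_le (z : W) :
    MHon.decN (MHon.parseT z).right.right.right ≤ z.length :=
  (MHon.decN_le _).trans ((size_right_le _).trans ((size_right_le _).trans
    ((size_right_le _).trans (MHon.size_parseT z))))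

private theorem uk_iff {z g : W} {N : ℕ} (h : 2 ^ z.length ≤ N) : UK z g N = true ↔
    (g.length ≤ 2 ^ MHon.decN (MHon.parseT z).right.right.left ∧
      MHon.univ (MHon.parseT z).left (pairWord (MHon.decW (MHon.parseT z).right.left, g))
        (2 ^ MHon.decN (MHon.parseT z).right.right.right) = [true]) := by
  unfold UK
  simp only [List.any_eq_true, List.mem_range, Bool.and_eq_true, decide_eq_true_eq]
  constructor
  · rintro ⟨m, _, rfl, h1, h2⟩
    exact ⟨h1, h2⟩
  · rintro ⟨h1, h2⟩
    refine ⟨_, ?_, rfl, h1, h2⟩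
    have := (Nat.pow_le_pow_right (by norm_num : 0 < 2) (uk_exp_le z)).trans h
    omega

theorem UK_eq {z g : W} {N : ℕ} (h : 2 ^ z.length ≤ N) : UK z g N = UK z g (2 ^ z.length) := by
  rw [Bool.eq_iff_iff, uk_iff h, uk_iff le_rfl]

end MHE
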