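import Pool.Agent.Lib.MP_1a14d4_he.FTPoly
import Pool.Agent.Lib.MP_1a14d4_he.UKPoly

/-!
# The truncated diagonal predicate is computable in polynomial time (numbers in unary)

All the ingredients are computable in polynomial time; the functions are compositions of them.
-/

namespace MHE

open Pool.Agent.Lib.PolyTime

section Aux

variable {α : Type*} [TEnc α]

private theorem pf_FT {i : α → ℕ} {w : α → W} {N : α → ℕ} (hi : PolyF i) (hw : PolyF w)
    (hN : PolyF N) : PolyF (fun x => FT (i x) (w x) (N x)) := by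
  have h := polyF_FT.comp (hi.pair (hw.pair hN))
  exact h

private theorem pf_st {i : α → ℕ} {w : α → W} (hi : PolyF i) (hw : PolyF w) :
    PolyF (fun x => st (i x) (w x)) := by
  have h := polyF_st.comp (hi.pair hw)
  exact h

private theorem pf_yT {i : α → ℕ} {w : α → W} {N : α → ℕ} (hi : PolyF i) (hw : PolyF w)
    (hN : PolyF N) : PolyF (fun x => yT (i x) (w x) (N x)) := by
  unfold yT
  exact pf_FT hi (pf_st hi hw) hN

private theorem pf_word {n : α → ℕ} (hn : PolyF n) : PolyF (fun x => wordOf (n x)) :=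
  polyF_wordOf.comp hn

private theorem pf_rr {i k : α → ℕ} (hi : PolyF i) (hk : PolyF k) :
    PolyF (fun x => rr (i x) (k x)) := by
  unfold rr
  exact (((PolyF.const 2).natMul hi.succ.succ).natMul hk.succ).succ

private theorem pf_minPow {a k N : α → ℕ} (ha : PolyF a) (hk : PolyF k) (hN : PolyF N) :
    PolyF (fun x => min ((a x + 2) ^ k x) (N x)) :=
  (polyF_minPow.comp (ha.succ.pair (hk.pair hN))).congr fun _ => rfl

private theorem pf_UK {z g : α → W} {N : α → ℕ} (hz : PolyF z) (hg : PolyF g) (hN : PolyF N) :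
    PolyF (fun x => UK (z x) (g x) (N x)) := by
  have h := polyF_UK.comp (hz.pair (hg.pair hN))
  exact h

/-- the clause of `EVT` for a word `z` -/
private theorem pf_inner {i k N : α → ℕ} {w g z : α → W} (hi : PolyF i) (hk : PolyF k)
    (hN : PolyF N) (hw : PolyF w) (hg : PolyF g) (hz : PolyF z) :
    PolyF (fun x => decide ((z x).length ≤ (w x).length) &&
      (decide (FT (k x).unpair.1 (st (min (((z x).length + 2) ^ rr (i x) (k x)) (N x)) (z x)) (N x)
          = yT (i x) (w x) (N x)) &&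
        (decide ((g x).length ≤ 2 ^ (z x).length) && UK (z x) (g x) (N x)))) := by
  have h1 : PolyF (fun x => (k x).unpair.1) := polyF_unpair1.comp hk
  have h2 : PolyF (fun x => min (((z x).length + 2) ^ rr (i x) (k x)) (N x)) :=
    pf_minPow hz.length (pf_rr hi hk) hN
  have h3 := pf_FT h1 (pf_st h2 hz) hN
  have h4 := h3.eq (pf_yT hi hw hN)
  exact (hz.length.natLe hw.length).and (h4.and ((MHon.polyF_le_two_pow hg.length hz.length).and
    (pf_UK hz hg hN)))

private theorem pf_w0T {i N : α → ℕ} {w : α → W} (hi : PolyF i) (hw : PolyF w) (hN : PolyF N) :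
    PolyF (fun x => w0T (i x) (w x) (N x)) := by
  have h1 : PolyF (fun q : α × ℕ =>
      decide (yT (i q.1) (wordOf q.2) (N q.1) = yT (i q.1) (w q.1) (N q.1))) :=
    (pf_yT (hi.comp PolyF.fst') (pf_word PolyF.snd') (hN.comp PolyF.fst')).eq
      (pf_yT (hi.comp PolyF.fst') (hw.comp PolyF.fst') (hN.comp PolyF.fst'))
  have h2 : PolyF (fun x => (List.range (N x)).find? fun m =>
      decide (yT (i x) (wordOf m) (N x) = yT (i x) (w x) (N x))) := hN.range.find? h1
  have h3 := (h2.optionMap (h := fun _ m => wordOf m) (pf_word PolyF.snd')).getD hw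
  unfold w0T
  exact h3

private theorem pf_EVT {ks : ℕ → ℕ → ℕ} (hks : PolyF (fun p : ℕ × ℕ => ks p.1 p.2))
    {i N : α → ℕ} {w g : α → W} (hi : PolyF i) (hw : PolyF w) (hg : PolyF g) (hN : PolyF N) :
    PolyF (fun x => EVT ks (i x) (w x) (g x) (N x)) := by
  have hk : PolyF (fun x => ks (i x) (w x).length) := by
    have h := hks.comp (hi.pair hw.length)
    exact h
  have h1 := pf_inner (hi.comp (PolyF.fst' (β := ℕ))) (hk.comp PolyF.fst') (hN.comp PolyF.fst')
    (hw.comp PolyF.fst') (hg.comp PolyF.fst') (pf_word PolyF.snd')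
  have h2 : PolyF (fun x => (List.range (N x)).any fun m =>
      decide ((wordOf m).length ≤ (w x).length) &&
        (decide (FT (ks (i x) (w x).length).unpair.1
            (st (min (((wordOf m).length + 2) ^ rr (i x) (ks (i x) (w x).length)) (N x))
              (wordOf m)) (N x) = yT (i x) (w x) (N x)) &&
          (decide ((g x).length ≤ 2 ^ (wordOf m).length) && UK (wordOf m) (g x) (N x)))) :=
    hN.range.any h1
  have h3 : PolyF (fun x => decide (g x ≠ w x)) :=
    PolyF.decide_not (p := fun x => g x = w x) (hg.eq hw)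
  have h4 := (MHon.polyF_le_two_pow hg.length hw.length).and
    ((h3.and ((pf_yT hi hg hN).eq (pf_yT hi hw hN))).or h2)
  unfold EVT
  exact h4

end Aux

theorem polyF_w0T : PolyF (fun p : ℕ × W × ℕ => w0T p.1 p.2.1 p.2.2) :=
  pf_w0T PolyF.fst' (PolyF.fst'.comp PolyF.snd') (PolyF.snd'.comp PolyF.snd')

theorem polyF_EVT {ks : ℕ → ℕ → ℕ} (hks : PolyF (fun p : ℕ × ℕ => ks p.1 p.2)) :
    PolyF (fun p : ℕ × W × W × ℕ => EVT ks p.1 p.2.1 p.2.2.1 p.2.2.2) :=
  pf_EVT hks PolyF.fst' (PolyF.fst'.comp PolyF.snd') (PolyF.fst'.comp (PolyF.snd'.comp PolyF.snd'))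
    (PolyF.snd'.comp (PolyF.snd'.comp PolyF.snd'))

theorem polyF_PNT {ks : ℕ → ℕ → ℕ} (hks : PolyF (fun p : ℕ × ℕ => ks p.1 p.2)) :
    PolyF (fun p : ℕ × W × W × ℕ => PNT ks p.1 p.2.1 p.2.2.1 p.2.2.2) := by
  have hi : PolyF (fun p : ℕ × W × W × ℕ => p.1) := PolyF.fst'
  have hw : PolyF (fun p : ℕ × W × W × ℕ => p.2.1) := PolyF.fst'.comp PolyF.snd'
  have hN : PolyF (fun p : ℕ × W × W × ℕ => p.2.2.2) :=
    PolyF.snd'.comp (PolyF.snd'.comp PolyF.snd')
  have h0 : PolyF (fun p : ℕ × W × W × ℕ => w0T p.1 p.2.1 p.2.2.2) := pf_w0T hi hw hN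
  have h1 := (pf_EVT hks (hi.comp (PolyF.fst' (β := ℕ))) (h0.comp PolyF.fst')
    (pf_word PolyF.snd') (hN.comp PolyF.fst')).not
  have h2 : PolyF (fun p : ℕ × W × W × ℕ => (List.range p.2.2.2).all fun m =>
      !EVT ks p.1 (w0T p.1 p.2.1 p.2.2.2) (wordOf m) p.2.2.2) := hN.range.all h1
  have h3 : PolyF (fun p : ℕ × W × W × ℕ =>
      decide (2 ^ (w0T p.1 p.2.1 p.2.2.2).length < p.2.1.length)) :=
    ((MHon.polyF_le_two_pow hw.length h0.length).not).congr fun p => by
      rw [Bool.eq_iff_iff]; simp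
  have h4 := PolyF.ite (p := fun p : ℕ × W × W × ℕ => w0T p.1 p.2.1 p.2.2.2 = p.2.1) (h0.eq hw)
    (polyF_EVT hks) (h3.and h2)
  unfold PNT
  exact h4

end MHE
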