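import Pool.Agent.Lib.MP_1a14d4_he.BigP
import Pool.Agent.Lib.MP_1a14d4_he.ESpec
import Pool.Agent.Lib.MP_1a14d4_he.PNTPoly
import Pool.Agent.Lib.MP_1a14d4_he.NexpOf

/-!
# The diagonal set is in NEXP

A witness is a word `g` with `PNT ks (idx x) (arg x) g N` for `N = 2 ^ ((|x| + 4) ^ 6)`; this number is
large enough for the truncated predicate to be correct.
-/

namespace MHE

open Pool.Agent.Lib.PolyTime

theorem nexp_DN {ks : ℕ → ℕ → ℕ} (hks : PolyF (fun p : ℕ × ℕ => ks p.1 p.2))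
    (hle : ∀ i n, ks i n ≤ n) : NEXP (DN ks) := by
  have hV : PolyF (fun t : W × W × ℕ => PNT ks (idx t.1) (arg t.1) t.2.1 t.2.2) :=
    (polyF_PNT hks).comp
      (g := fun t : W × W × ℕ => ((idx t.1, arg t.1, t.2.1, t.2.2) : ℕ × W × W × ℕ))
      ((polyF_idx.comp PolyF.fst').pair ((polyF_arg.comp PolyF.fst').pair
        (PolyF.snd'.fst.pair PolyF.snd'.snd)))
  refine nexp_of_polyF ((Polynomial.X + 4) ^ 6) hV fun x => ?_
  have hev : ((Polynomial.X + 4) ^ 6 : Polynomial ℕ).eval x.length = (x.length + 4) ^ 6 := by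
    simp
  rw [hev]
  have hadd := idx_add_arg_le x
  have hi : idx x ≤ x.length := by omega
  have hw : (arg x).length ≤ x.length := by omega
  have hpow : 2 ^ x.length ≤ 2 ^ (x.length + 4) ^ 6 := by
    refine Nat.pow_le_pow_right (by norm_num) ?_
    calc x.length ≤ x.length + 4 := Nat.le_add_right _ _
      _ ≤ (x.length + 4) ^ 6 := Nat.le_self_pow (by norm_num) _
  constructor
  · intro hx
    obtain ⟨g, hg, hP⟩ := (PNT_iff hle (big_pow x.length) hi hw).2 hx
    exact ⟨g, hg.trans hpow, hP⟩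
  · rintro ⟨g, -, hP⟩
    exact (PNT_iff hle (big_pow x.length) hi hw).1 (PNT_short hw hP)

end MHE
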