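import Pool.Agent.Lib.MP_1a14d4_he.UKPoly
import Pool.Agent.Lib.MP_1a14d4_he.NexpOf
import Pool.Agent.Lib.MP_1a14d4_he.KUComplete

/-!
# NEXP: preimages under functions of FP, the universal set, trivial sets
-/

namespace MHE

open Pool.Agent.Lib.PolyTime

theorem FP.length_le_eval {f : W → W} (hf : FP f) :
    ∃ P : Polynomial ℕ, ∀ x, (f x).length ≤ P.eval x.length := by
  obtain ⟨i, rfl⟩ := exists_F hf
  refine ⟨Polynomial.X + (Polynomial.X + 2) ^ i.unpair.2 + 1, fun x => (length_F i x).trans ?_⟩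
  simp

theorem FP.length_le_pow {f : W → W} (hf : FP f) :
    ∃ e : ℕ, ∀ x, (f x).length ≤ (x.length + 2) ^ e := by
  obtain ⟨i, rfl⟩ := exists_F hf
  refine ⟨i.unpair.2 + 1, fun x => (length_F i x).trans ?_⟩
  rw [pow_succ]
  have h1 : 1 ≤ (x.length + 2) ^ i.unpair.2 := Nat.one_le_pow _ _ (by omega)
  nlinarith

theorem NEXP.preimage {A : Set W} (hA : NEXP A) {R : W → W} (hR : FP R) :
    NEXP {x | R x ∈ A} := by
  obtain ⟨r, hr, _, _, hrA⟩ := padded_KU hA 0
  have hh : FP (fun x => r (R x)) := FP.comp hr hR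
  obtain ⟨P, hP⟩ := hh.length_le_eval
  have hpr : PolyF (fun x => r (R x)) := fp_iff.1 hh
  refine nexp_of_polyF P (V := fun q : W × W × ℕ =>
    decide (q.2.1.length ≤ 2 ^ (r (R q.1)).length) && UK (r (R q.1)) q.2.1 q.2.2) ?_ fun x => ?_
  · have h1 : PolyF (fun q : W × W × ℕ => r (R q.1)) := hpr.comp PolyF.fst'
    have h2 : PolyF (fun q : W × W × ℕ => q.2.1) := PolyF.snd'.fst
    have h3 : PolyF (fun q : W × W × ℕ => q.2.2) := PolyF.snd'.snd
    exact (MHon.polyF_le_two_pow h2.length h1.length).and (polyF_UK.comp (h1.pair (h2.pair h3)))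
  · have hle : 2 ^ (r (R x)).length ≤ 2 ^ P.eval x.length :=
      Nat.pow_le_pow_right (by norm_num) (hP x)
    have h1 : x ∈ {x | R x ∈ A} ↔ r (R x) ∈ KU := hrA (R x)
    rw [h1]
    constructor
    · rintro ⟨g, hg, hu⟩
      refine ⟨g, hg.trans hle, ?_⟩
      simp only [Bool.and_eq_true, decide_eq_true_eq]
      exact ⟨hg, by rw [UK_eq hle]; exact hu⟩
    · rintro ⟨g, _, hu⟩
      simp only [Bool.and_eq_true, decide_eq_true_eq] at hu
      exact ⟨g, hu.1, by rw [← UK_eq hle]; exact hu.2⟩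

theorem nexp_KU' : NEXP KU := by
  refine nexp_of_polyF Polynomial.X (V := fun q : W × W × ℕ => UK q.1 q.2.1 q.2.2) polyF_UK
    fun x => ?_
  rw [Polynomial.eval_X]
  exact Iff.rfl

theorem nexp_empty : NEXP (∅ : Set W) := by
  refine nexp_of_polyF 0 (V := fun _ : W × W × ℕ => false) (PolyF.const false) fun x => ?_
  simp

theorem nexp_univ : NEXP (Set.univ : Set W) := by
  refine nexp_of_polyF 0 (V := fun _ : W × W × ℕ => true) (PolyF.const true) fun x => ?_
  simp only [Set.mem_univ, and_true, true_iff]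
  exact ⟨[], by simp⟩

/-- a complete set has a member and a nonmember -/
theorem Complete.exists_mem {A : Set W} (hA : Complete NEXP A) : ∃ a, a ∈ A := by
  obtain ⟨f, _, hf⟩ := hA.2 _ nexp_univ
  exact ⟨f [], (hf []).1 (Set.mem_univ _)⟩

theorem Complete.exists_notMem {A : Set W} (hA : Complete NEXP A) : ∃ a, a ∉ A := by
  obtain ⟨f, _, hf⟩ := hA.2 _ nexp_empty
  exact ⟨f [], fun h => Set.notMem_empty _ ((hf []).2 h)⟩

theorem HonestRed.trans' {A B C : Set W} (h1 : HonestRed A B) (h2 : HonestRed B C) :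
    HonestRed A C := by
  obtain ⟨f, hf, ⟨p, hp⟩, hfA⟩ := h1
  obtain ⟨g, hg, ⟨q, hq⟩, hgB⟩ := h2
  obtain ⟨d, hd⟩ := MHon.poly_le p
  refine ⟨fun x => g (f x), FP.comp hg hf, ⟨(q + 2) ^ d, fun x => ?_⟩, fun x => ?_⟩
  · have h3 : x.length ≤ ((f x).length + 2) ^ d := (hp x).trans (hd _)
    have h4 : ((f x).length + 2) ^ d ≤ (q.eval (g (f x)).length + 2) ^ d :=
      Nat.pow_le_pow_left (Nat.add_le_add_right (hq _) _) _
    simpa using h3.trans h4
  · rw [hfA, hgB]

/-- a set of NEXP is reducible to `KU` by an honest function -/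
theorem honestRed_KU {A : Set W} (hA : NEXP A) : HonestRed A KU := by
  obtain ⟨g, hg, _, hlen, hgA⟩ := padded_KU hA 1
  refine ⟨g, hg, ⟨Polynomial.X, fun x => ?_⟩, hgA⟩
  have := hlen x
  rw [Polynomial.eval_X]
  simp only [pow_one] at this
  omega

/-- If the complete sets of NEXP are not all honestly equivalent then `KU` is not honestly reducible
to some complete set. -/
theorem exists_not_honestRed_KU (h : TwoSets NEXP) : ∃ A, Complete NEXP A ∧ ¬ HonestRed KU A := by
  obtain ⟨A, B, hA, hB, hAB⟩ := h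
  by_contra hcon
  push Not at hcon
  exact hAB ⟨(honestRed_KU hA.1).trans' (hcon B hB), (honestRed_KU hB.1).trans' (hcon A hA)⟩

end MHE
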