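import Pool.Agent.Lib.MP_1a14d4_he.KPrim
import Pool.Agent.Lib.MP_1a14d4_he.StOps
import Pool.Agent.Lib.MP_1a14d4_lc.ReEx

/-!
# The diagonal set is RE

`DR K` is the projection of the conjunction of a primitive recursive predicate and of the predicate
`t = false ∨ z ∈ K` of the pair `(t, z)`.
-/

namespace MHE

/-- the predicate `t = false ∨ z ∈ K` -/
private theorem re_or_mem {K : Set W} (hK : RE K) :
    REPred (fun p : Bool × W => p.1 = false ∨ p.2 ∈ K) := by
  have h1 : Partrec (fun p : Bool × W => Part.assert (p.2 ∈ K) fun _ => Part.some ()) :=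
    Partrec.comp hK Computable.snd
  have h2 : Partrec (fun _ : Bool × W => (Part.some () : Part Unit)) :=
    (Computable.const ()).partrec
  have h3 := Partrec.cond (c := fun p : Bool × W => p.1) Computable.fst h1 h2
  refine h3.dom_re.of_eq fun p => ?_
  rcases p with ⟨t, z⟩
  cases t
  · simp
  · simp [Part.assert]

/-- the primitive recursive part -/
private def PD (q : W × (Bool × W)) : Prop :=
  w0 (idx q.1) (arg q.1) = arg q.1 ∧
    ((q.2.1 = false ∧ q.2.2 ≠ arg q.1 ∧ yv (idx q.1) q.2.2 = yv (idx q.1) (arg q.1)) ∨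
      (q.2.1 = true ∧ F (kk (idx q.1) (arg q.1).length).unpair.1 q.2.2 =
        yv (idx q.1) (arg q.1)))

private theorem prim_PD : PrimrecPred PD := by
  have hi : Primrec (fun q : W × (Bool × W) => idx q.1) := prim_idx.comp Primrec.fst
  have ha : Primrec (fun q : W × (Bool × W) => arg q.1) := prim_arg.comp Primrec.fst
  have ht : Primrec (fun q : W × (Bool × W) => q.2.1) := Primrec.fst.comp Primrec.snd
  have hz : Primrec (fun q : W × (Bool × W) => q.2.2) := Primrec.snd.comp Primrec.snd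
  have hw : Primrec (fun q : W × (Bool × W) => w0 (idx q.1) (arg q.1)) := prim_w0.comp hi ha
  have hy : Primrec (fun q : W × (Bool × W) => yv (idx q.1) (arg q.1)) := prim_yv.comp hi ha
  have hyz : Primrec (fun q : W × (Bool × W) => yv (idx q.1) q.2.2) := prim_yv.comp hi hz
  have hk : Primrec (fun q : W × (Bool × W) => kk (idx q.1) (arg q.1).length) :=
    prim_kk.comp hi (Primrec.list_length.comp ha)
  have hF : Primrec (fun q : W × (Bool × W) =>
      F (kk (idx q.1) (arg q.1).length).unpair.1 q.2.2) :=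
    prim_F.comp (Primrec.fst.comp (Primrec.unpair.comp hk)) hz
  exact (Primrec.eq.comp hw ha).and
    (((Primrec.eq.comp ht (Primrec.const false)).and
      ((Primrec.eq.comp hz ha).not.and (Primrec.eq.comp hyz hy))).or
      ((Primrec.eq.comp ht (Primrec.const true)).and (Primrec.eq.comp hF hy)))

theorem re_DR {K : Set W} (hK : RE K) : RE (DR K) := by
  have h1 : REPred PD := prim_PD.computablePred.to_re
  have h2 : REPred (fun q : W × (Bool × W) => q.2.1 = false ∨ q.2.2 ∈ K) :=
    MHon.re_comp (re_or_mem hK) Computable.snd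
  have h3 := MHon.re_exists (MHon.re_and h1 h2)
  refine h3.of_eq fun x => ?_
  change (∃ b : Bool × W, PD (x, b) ∧ (b.1 = false ∨ b.2 ∈ K)) ↔ PR K (idx x) (arg x)
  unfold PD PR DefR
  constructor
  · rintro ⟨⟨t, z⟩, ⟨h0, h | h⟩, h'⟩
    · exact ⟨h0, Or.inl ⟨z, h.2.1, h.2.2⟩⟩
    · refine ⟨h0, Or.inr ⟨z, ?_, h.2⟩⟩
      rcases h' with h' | h'
      · exact absurd (h.1.symm.trans h') (by simp)
      · exact h'
  · rintro ⟨h0, ⟨v, hv, hv'⟩ | ⟨z, hz, hz'⟩⟩
    · exact ⟨(false, v), ⟨h0, Or.inl ⟨rfl, hv, hv'⟩⟩, Or.inl rfl⟩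
    · exact ⟨(true, z), ⟨h0, Or.inr ⟨rfl, hz'⟩⟩, Or.inr hz⟩

end MHE
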