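import Mathlib

/-!
# Polynomial-time reductions, RE, NEXP, honest equivalence (definitions of the problem)

Words are lists of bits.
-/

namespace MHE

open Turing

/-- words over the alphabet of the two bits -/
abbrev W := List Bool

/-- `f` is computable in polynomial time (by one of Mathlib's Turing machines) -/
def FP (f : W → W) : Prop :=
  Nonempty (TM2ComputableInPolyTime (fun x : W => x) (fun y : W => y) f)

/-- `f` is honest: `|x| ≤ q(|f x|)` for a polynomial `q` -/
def Honest (f : W → W) : Prop := ∃ q : Polynomial ℕ, ∀ x : W, x.length ≤ q.eval (f x).length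

/-- recursively enumerable sets of words -/
def RE (A : Set W) : Prop := REPred (fun x => x ∈ A)

/-- the word `x # w` -/
def pairWord (p : W × W) : List (Option Bool) := p.1.map some ++ none :: p.2.map some

/-- `A` belongs to NEXP: for a polynomial `p` and a polynomial-time predicate `V`, a word `x` is in
`A` if and only if `V (x, w)` for some word `w` of length at most `2 ^ p(|x|)`. -/
def NEXP (A : Set W) : Prop :=
  ∃ (p : Polynomial ℕ) (V : W × W → Bool),
    Nonempty (TM2ComputableInPolyTime pairWord Computability.encodeBool V) ∧
    ∀ x, x ∈ A ↔ ∃ w : W, w.length ≤ 2 ^ p.eval x.length ∧ V (x, w) = true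

/-- `B` is many-one reducible to `A` in polynomial time -/
def RedM (B A : Set W) : Prop := ∃ f, FP f ∧ ∀ x, x ∈ B ↔ f x ∈ A

/-- `A` belongs to the complete m-degree of the class `C` -/
def Complete (C : Set W → Prop) (A : Set W) : Prop := C A ∧ ∀ B, C B → RedM B A

/-- `B` is many-one reducible to `A` by an honest function computable in polynomial time -/
def HonestRed (B A : Set W) : Prop := ∃ f, FP f ∧ Honest f ∧ ∀ x, x ∈ B ↔ f x ∈ A

/-- `A` and `B` are m-honest-equivalent -/
def HonestEquiv (A B : Set W) : Prop := HonestRed A B ∧ HonestRed B A

/-- `B` is many-one reducible to `A` by a one-to-one and length-increasing function computable in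
polynomial time -/
def LIRed (B A : Set W) : Prop :=
  ∃ f, FP f ∧ Function.Injective f ∧ (∀ x : W, x.length < (f x).length) ∧ ∀ x, x ∈ B ↔ f x ∈ A

/-- The complete m-degree of the class `C` contains two sets that are not m-honest-equivalent
(Q1 for `C = RE`, Q2 for `C = NEXP`). -/
def TwoSets (C : Set W → Prop) : Prop :=
  ∃ A B, Complete C A ∧ Complete C B ∧ ¬ HonestEquiv A B

/-- The complete m-degree of the class `C` contains two sets that are not reducible to each other
by one-to-one length-increasing functions of FP (it is not a 1-li-degree). -/
def TwoLI (C : Set W → Prop) : Prop :=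
  ∃ A B, Complete C A ∧ Complete C B ∧ ¬ (LIRed A B ∧ LIRed B A)

/-- Every countable partial order embeds into the m-honest degrees inside the complete m-degree of
the class `C`. -/
def AllOrders (C : Set W → Prop) : Prop :=
  ∀ (P : Type) [PartialOrder P] [Countable P], ∃ A : P → Set W,
    (∀ a, Complete C (A a)) ∧ ∀ a b, HonestRed (A a) (A b) ↔ a ≤ b

/-- the range of `f` contains the range of a one-to-one honest function computable in polynomial
time -/
def HasHonest (f : W → W) : Prop :=
  ∃ h, FP h ∧ Function.Injective h ∧ Honest h ∧ Set.range h ⊆ Set.range f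

end MHE
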