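import Pool.Agent.Lib.MP_1a14d4_he.FPoly
import Pool.Agent.Lib.MP_1a14d4_he.FPrim
import Pool.Agent.Lib.MP_1a14d4_he.Univ0
import Pool.Agent.Lib.MP_1a14d4_lc.ReEx

/-!
# If any two RE-complete sets are m-honest-equivalent, then the range of a one-to-one function of FP
# contains the range of an honest one

The complete set `C` contains, besides a copy of the universal set, all words `1 (st j z)` such that
`F j` takes a value different from all values at the words `1 (st j z')` with `z'` of smaller number.
-/

namespace MHE

open Pool.Agent.Lib.PolyTime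

/-- the value of `F j` at `x = true :: st j z` differs from the values at the words with a smaller
number -/
private def NewVal (x : W) : Prop :=
  ∀ m < num (arg x.tail), F (idx x.tail) (true :: st (idx x.tail) (wordOf m)) ≠ F (idx x.tail) x

private theorem Dir1_prim : PrimrecPred NewVal := by
  have hF : Primrec (fun q : ℕ × W => F (idx q.2.tail) (true :: st (idx q.2.tail) (wordOf q.1))) := by
    have h1 : Primrec (fun q : ℕ × W => idx q.2.tail) :=
      prim_idx.comp (Primrec.list_tail.comp Primrec.snd)
    have h2 : Primrec (fun q : ℕ × W => wordOf q.1) := prim_wordOf.comp Primrec.fst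
    exact prim_F.comp h1 (Primrec.list_cons.comp (Primrec.const true) (prim_st.comp h1 h2))
  have hG : Primrec (fun q : ℕ × W => F (idx q.2.tail) q.2) :=
    prim_F.comp (prim_idx.comp (Primrec.list_tail.comp Primrec.snd)) Primrec.snd
  have hR : PrimrecRel (fun (m : ℕ) (x : W) =>
      F (idx x.tail) (true :: st (idx x.tail) (wordOf m)) ≠ F (idx x.tail) x) :=
    PrimrecPred.not (Primrec.eq.comp hF hG)
  have h1 : Primrec (fun x : W => num (arg x.tail)) :=
    prim_num.comp (prim_arg.comp Primrec.list_tail)
  have h2 : Primrec (fun x : W => x) := Primrec.id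
  have h3 : PrimrecRel (fun (l : List ℕ) (x : W) => ∀ m ∈ l,
      F (idx x.tail) (true :: st (idx x.tail) (wordOf m)) ≠ F (idx x.tail) x) :=
    hR.forall_mem_list
  refine (h3.comp (Primrec.list_range.comp h1) h2).of_eq fun x => ?_
  unfold NewVal
  simp only [List.mem_range]

/-- the complete set of the proof -/
private def CSet (K : Set W) : Set W :=
  {x | (x.head? = some false ∧ x.tail ∈ K) ∨ (x.head? ≠ some false ∧ NewVal x)}

private theorem Dir1_re {K : Set W} (hK : RE K) (a b : W) (ha : a ∈ K) (hb : b ∉ K) :
    RE (CSet K) := by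
  classical
  have ht : Primrec (fun x : W => if x.head? = some false then x.tail
      else if NewVal x then a else b) := by
    refine Primrec.ite (Primrec.eq.comp Primrec.list_head? (Primrec.const _)) Primrec.list_tail ?_
    exact Primrec.ite Dir1_prim (Primrec.const _) (Primrec.const _)
  have h := MHon.re_comp hK ht.to_comp
  refine h.of_eq fun x => ?_
  show (if x.head? = some false then x.tail else if NewVal x then a else b) ∈ K ↔
    (x.head? = some false ∧ x.tail ∈ K) ∨ (x.head? ≠ some false ∧ NewVal x)
  by_cases h1 : x.head? = some false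
  · rw [if_pos h1]
    exact ⟨fun h2 => Or.inl ⟨h1, h2⟩, fun h2 => h2.elim (fun h3 => h3.2) fun h3 => absurd h1 h3.1⟩
  · rw [if_neg h1]
    by_cases h2 : NewVal x
    · rw [if_pos h2]
      exact ⟨fun _ => Or.inr ⟨h1, h2⟩, fun _ => ha⟩
    · rw [if_neg h2]
      exact ⟨fun h3 => absurd h3 hb, fun h3 => h3.elim (fun h4 => absurd h4.1 h1)
        fun h4 => absurd h4.2 h2⟩

private theorem Dir1_cons (b : Bool) : FP (fun x : W => b :: x) :=
  fp_iff.2 (PolyF.cons (PolyF.const _) PolyF.id)

private theorem Dir1_true {K : Set W} {j : ℕ} {z : W} :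
    true :: st j z ∈ CSet K ↔
      ∀ m < num z, F j (true :: st j (wordOf m)) ≠ F j (true :: st j z) := by
  have h1 : idx (true :: st j z).tail = j := idx_st j z
  have h2 : arg (true :: st j z).tail = z := arg_st j z
  constructor
  · rintro (h | h)
    · exact absurd h.1 (by simp)
    · have h3 := h.2
      unfold NewVal at h3
      rw [h1, h2] at h3
      exact h3
  · intro h
    refine Or.inr ⟨by simp, ?_⟩
    unfold NewVal
    rw [h1, h2]
    exact h

theorem hasHonest_of_not_twoSets (h0 : ¬ TwoSets RE) {f : W → W} (hf : FP f)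
    (hi : Function.Injective f) : HasHonest f := by
  obtain ⟨K, hK, hpad⟩ := exists_universal
  -- an element and a non-element of `K`
  obtain ⟨a, ha⟩ : ∃ a, a ∈ K := by
    have hu : RE (Set.univ : Set W) := by
      have h : REPred (fun _ : W => True) :=
        (Computable.const (α := W) ()).partrec.dom_re.of_eq fun x => by simp
      exact h.of_eq fun x => by simp
    obtain ⟨g, _, _, _, hg⟩ := hpad _ hu 0
    exact ⟨g [], (hg []).1 trivial⟩
  obtain ⟨b, hb⟩ : ∃ b, b ∉ K := by
    have hu : RE (∅ : Set W) := by
      have h : REPred (fun _ : W => False) :=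
        (Partrec.none (α := W) (σ := Unit)).dom_re.of_eq fun x => by simp
      exact h.of_eq fun x => by simp
    obtain ⟨g, _, _, _, hg⟩ := hpad _ hu 0
    exact ⟨g [], fun h => (hg []).2 h⟩
  have hC : RE (CSet K) := Dir1_re hK a b ha hb
  have hCc : Complete RE (CSet K) := by
    refine ⟨hC, fun B hB => ?_⟩
    obtain ⟨g, hg, _, _, hgB⟩ := hpad B hB 0
    refine ⟨fun x => false :: g x, FP.comp (Dir1_cons false) hg, fun x => ?_⟩
    rw [hgB x]
    constructor
    · intro h
      exact Or.inl ⟨rfl, h⟩
    · rintro (h | h)
      · exact h.2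
      · exact absurd rfl h.1
  have hfA : ∀ x, x ∈ CSet K ↔ f x ∈ f '' CSet K := fun x => (hi.mem_set_image).symm
  have hfc : Computable f := by
    obtain ⟨i, rfl⟩ := exists_F hf
    exact (prim_F.comp (Primrec.const i) Primrec.id).to_comp
  have hA : RE (f '' CSet K) := by
    have h1 : REPred (fun q : W × W => q.2 ∈ CSet K ∧ f q.2 = q.1) := by
      refine MHon.re_and (MHon.re_comp hC Computable.snd) ?_
      have h2 : ComputablePred (fun q : W × W => f q.2 = q.1) := by
        refine ⟨fun _ => inferInstance, ?_⟩
        have h3 : PrimrecPred (fun p : W × W => p.1 = p.2) := Primrec.eq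
        have h4 : Primrec (fun p : W × W => decide (p.1 = p.2)) := h3.decide
        exact h4.to_comp.comp (Computable.pair (hfc.comp Computable.snd) Computable.fst)
      exact h2.to_re
    exact MHon.re_exists h1
  have hAc : Complete RE (f '' CSet K) := by
    refine ⟨hA, fun B hB => ?_⟩
    obtain ⟨g, hg, hgB⟩ := hCc.2 B hB
    exact ⟨fun x => f (g x), FP.comp hf hg, fun x => (hgB x).trans (hfA (g x))⟩
  -- the honest reduction
  have hEq : HonestEquiv (CSet K) (f '' CSet K) := by
    by_contra h
    exact h0 ⟨_, _, hCc, hAc, h⟩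
  obtain ⟨h, hh, ⟨q, hq⟩, hred⟩ := hEq.1
  obtain ⟨j, rfl⟩ := exists_F hh
  have hinj : Function.Injective (fun z : W => F j (true :: st j z)) := by
    intro z z' hzz
    by_contra hne
    -- the word with the least number in the fibre
    obtain ⟨v, hv, hmin⟩ : ∃ v, F j (true :: st j v) = F j (true :: st j z) ∧
        ∀ u, F j (true :: st j u) = F j (true :: st j z) → num v ≤ num u := by
      classical
      have hex : ∃ n, ∃ v, num v = n ∧ F j (true :: st j v) = F j (true :: st j z) :=
        ⟨num z, z, rfl, rfl⟩
      obtain ⟨v, hv1, hv2⟩ := Nat.find_spec hex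
      refine ⟨v, hv2, fun u hu => ?_⟩
      rw [hv1]
      exact Nat.find_min' hex ⟨u, rfl, hu⟩
    have hvC : true :: st j v ∈ CSet K := by
      rw [Dir1_true]
      intro m hm he
      have h1 := hmin (wordOf m) (he.trans hv)
      rw [num_wordOf] at h1
      omega
    have hvA := (hred _).1 hvC
    obtain ⟨u, hu, huv⟩ : ∃ u, F j (true :: st j u) = F j (true :: st j z) ∧ u ≠ v := by
      by_cases h1 : z = v
      · refine ⟨z', hzz.symm, ?_⟩
        rintro rfl
        exact hne h1
      · exact ⟨z, rfl, h1⟩
    have huC : true :: st j u ∉ CSet K := by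
      rw [Dir1_true]
      intro h1
      have h2 : num v < num u := by
        rcases lt_or_eq_of_le (hmin u hu) with h3 | h3
        · exact h3
        · exact absurd (num_inj h3).symm huv
      have h3 := h1 (num v) h2
      rw [wordOf_num] at h3
      exact h3 (hv.trans hu.symm)
    apply huC
    rw [hred]
    rw [hu, ← hv]
    exact hvA
  refine ⟨fun z => F j (true :: st j z), ?_, hinj, ⟨q, fun z => ?_⟩, ?_⟩
  · exact FP.comp (f := F j) hh (FP.comp (Dir1_cons true) (fp_st j))
  · refine le_trans ?_ (hq (true :: st j z))
    rw [List.length_cons, length_st]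
    omega
  · rintro _ ⟨z, rfl⟩
    have hzC : true :: st j z ∈ CSet K := by
      rw [Dir1_true]
      intro m hm he
      have h1 : wordOf m = z := hinj he
      rw [← h1, num_wordOf] at hm
      exact lt_irrefl _ hm
    obtain ⟨x, _, hx⟩ := (hred _).1 hzC
    exact ⟨x, hx⟩

end MHE
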