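import Pool.Agent.Lib.MP_1a14d4_he.NumW
import Pool.Agent.Lib.MP_1a14d4_he.StOps

/-!
# The truncated enumeration is computable in polynomial time (numbers in unary)

The components of `Nat.unpair` are computed from the integer square root. Truncated powers are
computed by iteration; all states are bounded by the truncation.
-/

namespace MHE

open Pool.Agent.Lib.PolyTime

private theorem FTPoly_filter_range (n k : ℕ) :
    ((List.range n).filter (fun m => decide (m < k))).length = min n k := by
  induction n with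
  | zero => simp
  | succ n ih =>
    rw [List.range_succ, List.filter_append, List.length_append, ih]
    by_cases h : n < k
    · simp [h]
      omega
    · simp [h]
      omega

private theorem FTPoly_sqrt_eq (n : ℕ) :
    ((List.range n).filter (fun m => decide ((m + 1) * (m + 1) ≤ n))).length = Nat.sqrt n := by
  have h : (fun m => decide ((m + 1) * (m + 1) ≤ n)) = (fun m => decide (m < Nat.sqrt n)) := by
    funext m
    rw [decide_eq_decide, ← Nat.le_sqrt]
    exact Nat.succ_le_iff
  rw [h, FTPoly_filter_range]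
  exact min_eq_right (Nat.sqrt_le_self n)

private theorem FTPoly_sqrt : PolyF (fun n : ℕ => Nat.sqrt n) := by
  have h1 : PolyF (fun q : ℕ × ℕ => decide ((q.2 + 1) * (q.2 + 1) ≤ q.1)) :=
    (PolyF.snd'.succ.natMul PolyF.snd'.succ).natLe PolyF.fst'
  have h2 : PolyF (fun n : ℕ => ((List.range n).filter
      (fun m => decide ((m + 1) * (m + 1) ≤ n))).length) :=
    (PolyF.filter (l := fun n : ℕ => List.range n)
      (p := fun n m => decide ((m + 1) * (m + 1) ≤ n)) PolyF.id.range h1).length
  exact h2.congr FTPoly_sqrt_eq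

theorem polyF_unpair1 : PolyF (fun n : ℕ => n.unpair.1) := by
  have hd : PolyF (fun n : ℕ => n - Nat.sqrt n * Nat.sqrt n) :=
    PolyF.id.natSub (FTPoly_sqrt.natMul FTPoly_sqrt)
  refine (PolyF.ite (p := fun n : ℕ => n - Nat.sqrt n * Nat.sqrt n < Nat.sqrt n)
    (hd.natLt FTPoly_sqrt) hd FTPoly_sqrt).congr fun n => ?_
  unfold Nat.unpair
  simp only
  split_ifs <;> rfl

theorem polyF_unpair2 : PolyF (fun n : ℕ => n.unpair.2) := by
  have hd : PolyF (fun n : ℕ => n - Nat.sqrt n * Nat.sqrt n) :=
    PolyF.id.natSub (FTPoly_sqrt.natMul FTPoly_sqrt)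
  refine (PolyF.ite (p := fun n : ℕ => n - Nat.sqrt n * Nat.sqrt n < Nat.sqrt n)
    (hd.natLt FTPoly_sqrt) FTPoly_sqrt (hd.natSub FTPoly_sqrt)).congr fun n => ?_
  unfold Nat.unpair
  simp only
  split_ifs <;> rfl

private theorem FTPoly_iter (a N i : ℕ) :
    (fun acc => min (acc * (a + 1)) N)^[i] (min 1 N) = min ((a + 1) ^ i) N := by
  induction i with
  | zero => simp
  | succ i ih =>
    rw [Function.iterate_succ_apply', ih, pow_succ]
    rcases le_total ((a + 1) ^ i) N with h | h
    · rw [min_eq_left h]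
    · rw [min_eq_right h]
      have h1 : N ≤ N * (a + 1) := Nat.le_mul_of_pos_right N (Nat.succ_pos a)
      have h2 : N ≤ (a + 1) ^ i * (a + 1) :=
        h.trans (Nat.le_mul_of_pos_right _ (Nat.succ_pos a))
      rw [min_eq_right h1, min_eq_right h2]

/-- truncated powers; the argument is `(a, κ, N)` -/
theorem polyF_minPow : PolyF (fun p : ℕ × ℕ × ℕ => min ((p.1 + 1) ^ p.2.1) p.2.2) := by
  refine (PolyF.natIterate (n := fun p : ℕ × ℕ × ℕ => p.2.1)
    (f := fun p acc => min (acc * (p.1 + 1)) p.2.2) (g := fun p => min 1 p.2.2)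
    PolyF.snd'.fst ?_ ?_ ⟨Polynomial.X, fun p i _ => ?_⟩).congr fun p => FTPoly_iter _ _ _
  · exact (PolyF.snd'.natMul PolyF.fst'.fst.succ).natMin PolyF.fst'.snd.snd
  · exact (PolyF.const 1).natMin PolyF.snd'.snd
  · rw [FTPoly_iter, sz_nat, Polynomial.eval_X, sz_prod, sz_prod, sz_nat, sz_nat, sz_nat]
    have := min_le_right ((p.1 + 1) ^ i) p.2.2
    omega

theorem polyF_FT : PolyF (fun p : ℕ × W × ℕ => FT p.1 p.2.1 p.2.2) := by
  have h1 : PolyF (fun p : ℕ × W × ℕ => MHon.parseT (wordOf p.1.unpair.1)) :=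
    MHon.polyF_parseT.comp (polyF_wordOf.comp (polyF_unpair1.comp PolyF.fst'))
  have h2 : PolyF (fun p : ℕ × W × ℕ => p.2.1.map some) :=
    PolyF.map (l := fun p : ℕ × W × ℕ => p.2.1) (h := fun _ b => some b) PolyF.snd'.fst
      PolyF.snd'.some
  have h3 : PolyF (fun p : ℕ × W × ℕ => min ((p.2.1.length + 1 + 1) ^ p.1.unpair.2) p.2.2) :=
    polyF_minPow.comp (PolyF.snd'.fst.length.succ.pair
      ((polyF_unpair2.comp PolyF.fst').pair PolyF.snd'.snd))
  exact (MHon.polyF_univ.comp (h1.pair (h2.pair h3))).congr fun p => rfl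

end MHE
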