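import Pool.Agent.Lib.MP_1a14d4_he.FPoly
import Pool.Agent.Lib.MP_1a14d4_he.StOps
import Pool.Agent.Lib.MP_1a14d4_lc.Pow

/-!
# `G i` is computable in polynomial time

For fixed `i` the function `yv i` of a column is in FP; the search over the numbers `c ≤ 2|v| + 2` is
a search in a list of polynomial length.
-/

namespace MHE

open Pool.Agent.Lib.PolyTime

theorem fp_G (i : ℕ) : FP (G i) := by
  have hF : PolyF (F i) := fp_iff.1 (fp_F i)
  have hst : PolyF (fun w : W => st i w) := polyF_st.comp ((PolyF.const i).pair PolyF.id)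
  have hyv : PolyF (yv i) := (hF.comp hst).congr fun w => rfl
  have h1 : PolyF (fun q : W × ℕ => yv i (st q.2 q.1)) :=
    hyv.comp (polyF_st.comp (PolyF.snd'.pair PolyF.fst'))
  have h2 : PolyF (fun q : W × ℕ => decide (q.1.length + 1 ≤ 2 ^ (yv i (st q.2 q.1)).length)) :=
    MHon.polyF_le_two_pow PolyF.fst'.length.succ h1.length
  have h3 : PolyF (fun v : W => List.range (2 * v.length + 3)) :=
    (((PolyF.const 2).natMul PolyF.id.length).natAdd (PolyF.const 3)).range
  have h4 : PolyF (uc i) := by
    refine (PolyF.getD (PolyF.find? (l := fun v : W => List.range (2 * v.length + 3))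
      (p := fun v c => decide (v.length + 1 ≤ 2 ^ (yv i (st c v)).length)) h3 h2)
      (PolyF.const 0)).congr fun v => ?_
    rfl
  rw [fp_iff]
  exact (hyv.comp (polyF_st.comp (h4.pair PolyF.id))).congr fun v => rfl

end MHE
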