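import Pool.Agent.Lib.MP_1a14d4_he.FPrim

/-!
# `w0`, `uc`, `G`, `Bad`, `kk` are primitive recursive

Searches in lists and bounded quantifiers with parameters.
-/

namespace MHE

theorem prim_find {α β : Type} [Primcodable α] [Primcodable β] {l : α → List β} {p : α → β → Bool}
    (hl : Primrec l) (hp : Primrec₂ p) : Primrec (fun a => (l a).find? (p a)) := by
  have h1 : Primrec₂ (fun (a : α) (b : β) => if p a b = true then some b else none) := by
    refine Primrec.ite (Primrec.eq.comp hp (Primrec.const true)) ?_ (Primrec.const none)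
    exact Primrec.option_some.comp Primrec.snd
  have h2 : Primrec (fun a => (l a).filterMap
      (fun b => if p a b = true then some b else none)) := Primrec.listFilterMap hl h1
  refine (Primrec.list_head?.comp h2).of_eq fun a => ?_
  induction l a with
  | nil => rfl
  | cons b t ih =>
    by_cases hb : p a b = true
    · simp [hb]
    · have hb' : p a b = false := by simpa using hb
      simp only [List.filterMap_cons, hb', List.find?_cons] at ih ⊢
      exact ih

private theorem bex {α : Type} [Primcodable α] {R : α → ℕ → Prop} {N : α → ℕ} (hN : Primrec N)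
    (hR : PrimrecPred (fun q : α × ℕ => R q.1 q.2)) :
    PrimrecPred (fun a => ∃ x < N a, R a x) := by
  have h1 : PrimrecRel (fun (x : ℕ) (a : α) => R a x) :=
    hR.comp (Primrec.pair Primrec.snd Primrec.fst)
  have h2 := PrimrecRel.comp h1.exists_mem_list (Primrec.list_range.comp hN) Primrec.id
  exact h2.of_eq fun a => by simp

private theorem ball {α : Type} [Primcodable α] {R : α → ℕ → Prop} {N : α → ℕ} (hN : Primrec N)
    (hR : PrimrecPred (fun q : α × ℕ => R q.1 q.2)) :
    PrimrecPred (fun a => ∀ x < N a, R a x) := by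
  have h1 : PrimrecRel (fun (x : ℕ) (a : α) => R a x) :=
    hR.comp (Primrec.pair Primrec.snd Primrec.fst)
  have h2 := PrimrecRel.comp h1.forall_mem_list (Primrec.list_range.comp hN) Primrec.id
  exact h2.of_eq fun a => by simp

theorem prim_w0 : Primrec₂ w0 := by
  have h1 : Primrec₂ (fun (q : ℕ × W) (m : ℕ) => decide (yv q.1 (wordOf m) = yv q.1 q.2)) := by
    refine PrimrecPred.decide (Primrec.eq.comp ?_ ?_)
    · exact prim_yv.comp (Primrec.fst.comp Primrec.fst) (prim_wordOf.comp Primrec.snd)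
    · exact prim_yv.comp (Primrec.fst.comp Primrec.fst) (Primrec.snd.comp Primrec.fst)
  have h2 : Primrec (fun q : ℕ × W => (List.range (num q.2)).find?
      (fun m => decide (yv q.1 (wordOf m) = yv q.1 q.2))) :=
    prim_find (Primrec.list_range.comp (prim_num.comp Primrec.snd)) h1
  exact prim_wordOf.comp (Primrec.option_getD.comp h2 (prim_num.comp Primrec.snd))

theorem prim_uc : Primrec₂ uc := by
  have h1 : Primrec₂ (fun (q : ℕ × W) (c : ℕ) =>
      decide (q.2.length < 2 ^ (yv q.1 (st c q.2)).length)) := by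
    refine PrimrecPred.decide (Primrec.nat_lt.comp ?_ ?_)
    · exact Primrec.list_length.comp (Primrec.snd.comp Primrec.fst)
    · refine prim_pow.comp (Primrec.const 2) (Primrec.list_length.comp ?_)
      exact prim_yv.comp (Primrec.fst.comp Primrec.fst)
        (prim_st.comp Primrec.snd (Primrec.snd.comp Primrec.fst))
  have hN : Primrec (fun q : ℕ × W => List.range (2 * q.2.length + 3)) := by
    refine Primrec.list_range.comp (Primrec.nat_add.comp ?_ (Primrec.const 3))
    exact Primrec.nat_mul.comp (Primrec.const 2) (Primrec.list_length.comp Primrec.snd)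
  have h2 : Primrec (fun q : ℕ × W => (List.range (2 * q.2.length + 3)).find?
      (fun c => decide (q.2.length < 2 ^ (yv q.1 (st c q.2)).length))) := prim_find hN h1
  exact Primrec.option_getD.comp h2 (Primrec.const 0)

theorem prim_G : Primrec₂ G :=
  prim_yv.comp Primrec.fst (prim_st.comp (prim_uc.comp Primrec.fst Primrec.snd) Primrec.snd)

theorem prim_bad : PrimrecPred (fun p : ℕ × ℕ × ℕ => Bad p.1 p.2.1 p.2.2) := by
  have hpow : Primrec (fun p : ℕ × ℕ × ℕ => 2 ^ p.2.2) :=
    prim_pow.comp (Primrec.const 2) (Primrec.snd.comp Primrec.snd)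
  have hk1 : Primrec (fun p : ℕ × ℕ × ℕ => p.2.1.unpair.1) :=
    Primrec.fst.comp (Primrec.unpair.comp (Primrec.fst.comp Primrec.snd))
  have hk2 : Primrec (fun p : ℕ × ℕ × ℕ => p.2.1.unpair.2) :=
    Primrec.snd.comp (Primrec.unpair.comp (Primrec.fst.comp Primrec.snd))
  have hFa : Primrec (fun q : (ℕ × ℕ × ℕ) × ℕ => F q.1.2.1.unpair.1 (wordOf q.2)) :=
    prim_F.comp (hk1.comp Primrec.fst) (prim_wordOf.comp Primrec.snd)
  refine PrimrecPred.or ?_ (PrimrecPred.or ?_ ?_)
  · refine bex (R := fun (p : ℕ × ℕ × ℕ) a => ∃ b < 2 ^ p.2.2, a ≠ b ∧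
      F p.2.1.unpair.1 (wordOf a) = F p.2.1.unpair.1 (wordOf b)) hpow ?_
    refine bex (R := fun (q : (ℕ × ℕ × ℕ) × ℕ) b => q.2 ≠ b ∧
      F q.1.2.1.unpair.1 (wordOf q.2) = F q.1.2.1.unpair.1 (wordOf b))
      (hpow.comp Primrec.fst) ?_
    refine PrimrecPred.and (PrimrecPred.not (Primrec.eq.comp
      (Primrec.snd.comp Primrec.fst) Primrec.snd)) (Primrec.eq.comp (hFa.comp Primrec.fst) ?_)
    exact hFa.comp (Primrec.pair (Primrec.fst.comp Primrec.fst) Primrec.snd)
  · refine bex (R := fun (p : ℕ × ℕ × ℕ) a =>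
      ((F p.2.1.unpair.1 (wordOf a)).length + 2) ^ p.2.1.unpair.2 < (wordOf a).length) hpow ?_
    refine Primrec.nat_lt.comp (prim_pow.comp (Primrec.nat_add.comp
      (Primrec.list_length.comp hFa) (Primrec.const 2)) (hk2.comp Primrec.fst)) ?_
    exact Primrec.list_length.comp (prim_wordOf.comp Primrec.snd)
  · refine bex (R := fun (p : ℕ × ℕ × ℕ) a =>
      ∀ v < 2 ^ 2 ^ (F p.2.1.unpair.1 (wordOf a)).length,
        G p.1 (wordOf v) ≠ F p.2.1.unpair.1 (wordOf a)) hpow ?_
    refine ball (R := fun (q : (ℕ × ℕ × ℕ) × ℕ) v =>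
      G q.1.1 (wordOf v) ≠ F q.1.2.1.unpair.1 (wordOf q.2)) ?_ ?_
    · exact prim_pow.comp (Primrec.const 2) (prim_pow.comp (Primrec.const 2)
        (Primrec.list_length.comp hFa))
    · refine PrimrecPred.not (Primrec.eq.comp ?_ (hFa.comp Primrec.fst))
      exact prim_G.comp (Primrec.fst.comp (Primrec.fst.comp Primrec.fst))
        (prim_wordOf.comp Primrec.snd)

theorem prim_kk : Primrec₂ kk := by
  classical
  have h0 : PrimrecPred (fun p : (ℕ × ℕ) × ℕ => ¬ Bad p.1.1 p.2 p.1.2) :=
    PrimrecPred.not (prim_bad.comp (Primrec.pair (Primrec.fst.comp Primrec.fst)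
      (Primrec.pair Primrec.snd (Primrec.snd.comp Primrec.fst))))
  have h1 : Primrec₂ (fun (q : ℕ × ℕ) (k : ℕ) => decide (¬ Bad q.1 k q.2)) :=
    PrimrecPred.decide h0
  have hN : Primrec (fun q : ℕ × ℕ => List.range (q.2 + 1)) :=
    Primrec.list_range.comp (Primrec.succ.comp Primrec.snd)
  have h2 : Primrec (fun q : ℕ × ℕ => (List.range (q.2 + 1)).find?
      (fun k => decide (¬ Bad q.1 k q.2))) := prim_find hN h1
  have h3 : Primrec (fun q : ℕ × ℕ => ((List.range (q.2 + 1)).find?
      (fun k => decide (¬ Bad q.1 k q.2))).getD 0) :=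
    Primrec.option_getD.comp h2 (Primrec.const 0)
  refine h3.of_eq fun q => ?_
  unfold kk
  congr

end MHE
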