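import Pool.Agent.Lib.MP_1a14d4_he.NumW
import Pool.Agent.Lib.MP_1a14d4_he.StOps

/-!
# The function `G i`

If `yv i` is one-to-one, then so is `G i`, and `|v| < 2 ^ |G i v|`: there are fewer than `2 |v|` words
`t` with `2 ^ |t| ≤ |v|`, so one of the `2 |v| + 3` words `yv i (st c v)` is not among them.
-/

namespace MHE

theorem exists_uc {i : ℕ} (hi : Function.Injective (yv i)) (v : W) :
    ∃ c < 2 * v.length + 3, v.length < 2 ^ (yv i (st c v)).length := by
  by_contra hcon
  push Not at hcon
  have hmaps : ∀ c ∈ Finset.range (2 * v.length + 3),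
      num (yv i (st c v)) ∈ Finset.range (2 * v.length) := by
    intro c hc
    rw [Finset.mem_range] at hc ⊢
    have h1 := hcon c hc
    have h2 := num_lt (yv i (st c v))
    rw [pow_succ] at h2
    omega
  obtain ⟨a, -, b, -, hab, he⟩ := Finset.exists_ne_map_eq_of_card_lt_of_maps_to
    (by simp only [Finset.card_range]; omega) hmaps
  exact hab (st_inj (hi (num_inj he))).1

theorem lt_two_pow_G {i : ℕ} (hi : Function.Injective (yv i)) (v : W) :
    v.length < 2 ^ (G i v).length := by
  obtain ⟨c, hc, hcv⟩ := exists_uc hi v
  unfold G uc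
  cases h : (List.range (2 * v.length + 3)).find? fun c =>
    decide (v.length < 2 ^ (yv i (st c v)).length) with
  | none =>
    rw [List.find?_eq_none] at h
    exact absurd (decide_eq_true hcv) (h c (List.mem_range.mpr hc))
  | some d =>
    have h1 := List.find?_some h
    simpa using h1

theorem G_injective {i : ℕ} (hi : Function.Injective (yv i)) : Function.Injective (G i) := by
  intro v w h
  exact (st_inj (hi h)).2

end MHE
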