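import Pool.Agent.Lib.MP_1a14d4_he.FPoly
import Pool.Agent.Lib.MP_1a14d4_he.Pigeon

/-!
# The limit of the candidates

If the range of `G i` contains the range of an honest injection, then from some stage on the current
candidate is the first one that is never refuted.
-/

namespace MHE

theorem bad_mono {i k m n : ℕ} (hmn : m ≤ n) (h : Bad i k m) : Bad i k n := by
  have hp : 2 ^ m ≤ 2 ^ n := Nat.pow_le_pow_right (by norm_num) hmn
  rcases h with ⟨a, ha, b, hb, h⟩ | ⟨a, ha, h⟩ | ⟨a, ha, h⟩
  · exact Or.inl ⟨a, by omega, b, by omega, h⟩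
  · exact Or.inr (Or.inl ⟨a, by omega, h⟩)
  · exact Or.inr (Or.inr ⟨a, by omega, h⟩)

theorem exists_never_bad {i : ℕ} (hi : Function.Injective (yv i)) (hS : HasHonest (G i)) :
    ∃ k, ∀ n, ¬ Bad i k n := by
  obtain ⟨h, hfp, hinj, ⟨q, hq⟩, hr⟩ := hS
  obtain ⟨j, rfl⟩ := exists_F hfp
  obtain ⟨d, hd⟩ := MHon.poly_le q
  refine ⟨Nat.pair j d, fun n hn => ?_⟩
  unfold Bad at hn
  simp only [Nat.unpair_pair] at hn
  rcases hn with ⟨a, -, b, -, hab, he⟩ | ⟨a, -, he⟩ | ⟨a, -, he⟩
  · apply hab
    rw [← num_wordOf a, ← num_wordOf b, hinj he]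
  · have h1 := hq (wordOf a)
    have h2 := hd (F j (wordOf a)).length
    omega
  · obtain ⟨v, hv⟩ := hr ⟨wordOf a, rfl⟩
    refine he (num v) ?_ (by rw [wordOf_num, hv])
    have h1 := lt_two_pow_G hi v
    rw [hv] at h1
    have h2 := num_lt v
    have h3 : 2 ^ (v.length + 1) ≤ 2 ^ 2 ^ (F j (wordOf a)).length :=
      Nat.pow_le_pow_right (by norm_num) h1
    omega

theorem exists_limit {i : ℕ} (hi : Function.Injective (yv i)) (hS : HasHonest (G i)) :
    ∃ k N, (∀ n ≥ N, kk i n = k) ∧ Function.Injective (F k.unpair.1) ∧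
      (∀ z : W, z.length ≤ ((F k.unpair.1 z).length + 2) ^ k.unpair.2) ∧
      ∀ z : W, ∃ w : W, yv i w = F k.unpair.1 z := by
  classical
  have hex := exists_never_bad hi hS
  set k := Nat.find hex with hk
  have hgood : ∀ n, ¬ Bad i k n := Nat.find_spec hex
  have hbad : ∀ m < k, ∃ n, Bad i m n := by
    intro m hm
    have := Nat.find_min hex hm
    push Not at this
    exact this
  choose! nn hnn using hbad
  refine ⟨k, (Finset.range k).sup nn + k, fun n hn => ?_, ?_, ?_, ?_⟩
  · have h1 : (List.range (n + 1)).find? (fun k => decide (¬ Bad i k n)) = some k := by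
      rw [List.find?_range_eq_some]
      refine ⟨by simpa using hgood n, by rw [List.mem_range]; omega, fun m hm => ?_⟩
      have h2 : nn m ≤ (Finset.range k).sup nn := Finset.le_sup (Finset.mem_range.2 hm)
      have h3 : Bad i m n := bad_mono (by omega) (hnn m hm)
      simpa using h3
    unfold kk
    rw [h1]
    rfl
  · intro a b hab
    by_contra hne
    apply hgood (a.length + b.length + 1)
    have ha := num_lt a
    have hb := num_lt b
    have h1 : 2 ^ (a.length + 1) ≤ 2 ^ (a.length + b.length + 1) :=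
      Nat.pow_le_pow_right (by norm_num) (by omega)
    have h2 : 2 ^ (b.length + 1) ≤ 2 ^ (a.length + b.length + 1) :=
      Nat.pow_le_pow_right (by norm_num) (by omega)
    refine Or.inl ⟨num a, by omega, num b, by omega, fun h => hne (num_inj h), ?_⟩
    rw [wordOf_num, wordOf_num]
    exact hab
  · intro z
    by_contra hz
    apply hgood (z.length + 1)
    have ha := num_lt z
    refine Or.inr (Or.inl ⟨num z, by omega, ?_⟩)
    rw [wordOf_num]
    omega
  · intro z
    by_contra hz
    push Not at hz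
    apply hgood (z.length + 1)
    have ha := num_lt z
    refine Or.inr (Or.inr ⟨num z, by omega, fun v _ => ?_⟩)
    rw [wordOf_num]
    exact hz _

end MHE
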