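import Pool.Agent.Lib.MP_1a14d4_he.FPoly

/-!
# From reductions which are correct up to finitely many words to length-increasing reductions

The padding of `B` into `K` avoids the finitely many exceptional words and makes the values long.
-/

namespace MHE

open Pool.Agent.Lib.PolyTime

theorem liRed_of_finite {B K A : Set W} {H : W → W} {d : ℕ} (hp : Padded B K) (hH : FP H)
    (hi : Function.Injective H) (hd : ∀ z : W, z.length ≤ ((H z).length + 2) ^ d)
    (hfin : {z | ¬ (z ∈ K ↔ H z ∈ A)}.Finite) : LIRed B A := by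
  obtain ⟨c, hc⟩ := (hfin.image List.length).bddAbove
  obtain ⟨g, hg, hgi, hgl, hgr⟩ := hp (max (c + 3) d)
  refine ⟨fun x => H (g x), hH.comp hg, hi.comp hgi, fun x => ?_, fun x => ?_⟩
  · have h1 : (x.length + 3) ^ d ≤ (x.length + max (c + 3) d) ^ max (c + 3) d :=
      (Nat.pow_le_pow_left (by omega) d).trans (Nat.pow_le_pow_right (by omega) (by omega))
    have h2 := lt_of_le_of_lt h1 (lt_of_lt_of_le (hgl x) (hd (g x)))
    have h3 : x.length + 3 < (H (g x)).length + 2 := by
      by_contra hcon
      exact absurd h2 (not_lt.mpr (Nat.pow_le_pow_left (not_lt.mp hcon) d))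
    show x.length < (H (g x)).length
    omega
  · have h1 : x.length + max (c + 3) d ≤ (x.length + max (c + 3) d) ^ max (c + 3) d :=
      Nat.le_self_pow (by omega) _
    have h2 := hgl x
    have h3 : g x ∉ {z | ¬ (z ∈ K ↔ H z ∈ A)} := by
      intro hmem
      have h4 : (g x).length ≤ c := hc ⟨g x, hmem, rfl⟩
      omega
    rw [hgr x]
    exact not_not.mp h3

theorem LIRed.honestRed {B A : Set W} (h : LIRed B A) : HonestRed B A := by
  obtain ⟨f, hf, _, hl, hr⟩ := h
  exact ⟨f, hf, ⟨Polynomial.X, fun x => by rw [Polynomial.eval_X]; exact (hl x).le⟩, hr⟩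

theorem HonestRed.redM {B A : Set W} (h : HonestRed B A) : RedM B A := by
  obtain ⟨f, hf, _, hr⟩ := h
  exact ⟨f, hf, hr⟩

/-- the words of length `< N` are finitely many -/
theorem finite_words (N : ℕ) : {w : W | w.length < N}.Finite :=
  List.finite_length_lt Bool N

end MHE
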