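import Pool.Agent.Lib.MP_1a14d4_he.Slow1

/-!
# Slowed down versions of primitive recursive functions are computable in polynomial time (in unary)

If `f i n` is constant for all large `n`, then the slowed down version has the same limit.
-/

namespace MHE

open Pool.Agent.Lib.PolyTime

private theorem slow_pair {α : Type} [TEnc α] {u v : α → ℕ} (hu : PolyF u) (hv : PolyF v) :
    PolyF (fun x => Nat.pair (u x) (v x)) := by
  refine (PolyF.ite (p := fun x => u x < v x) (f := fun x => v x * v x + u x)
    (g := fun x => u x * u x + u x + v x) (hu.natLt hv) ((hv.natMul hv).natAdd hu)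
    (((hu.natMul hu).natAdd hu).natAdd hv)).congr fun x => ?_
  rfl

theorem exists_slow {f : ℕ → ℕ → ℕ} (hf : Primrec₂ f) :
    ∃ g : ℕ → ℕ → ℕ, PolyF (fun p : ℕ × ℕ => g p.1 p.2) ∧ (∀ i n, g i n ≤ n) ∧
      ∀ i L N, (∀ n ≥ N, f i n = L) → ∃ M, ∀ n ≥ M, g i n = L := by
  have h0 : Nat.Primrec (fun c => f c.unpair.1 c.unpair.2) :=
    Primrec.nat_iff.1 (hf.comp (Primrec.fst.comp Primrec.unpair) (Primrec.snd.comp Primrec.unpair))
  obtain ⟨s, hs, hsound, hcomp⟩ := exists_budget h0
  refine ⟨fun i n => min (((List.range (n + 1)).reverse.findSome?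
    (fun m => s (Nat.pair i m, n))).getD 0) n, ?_, fun i n => min_le_right _ _, ?_⟩
  · have h1 : PolyF (fun q : (ℕ × ℕ) × ℕ => s (Nat.pair q.1.1 q.2, q.1.2)) :=
      hs.comp ((slow_pair PolyF.fst'.fst PolyF.snd').pair PolyF.fst'.snd)
    have h2 : PolyF (fun p : ℕ × ℕ => (List.range (p.2 + 1)).reverse) :=
      PolyF.snd'.succ.range.reverse
    exact ((h2.findSome? (h := fun p m => s (Nat.pair p.1 m, p.2)) h1).getD (PolyF.const 0)).natMin
      PolyF.snd'
  · intro i L N hL
    obtain ⟨T, hT⟩ := hcomp (Nat.pair i N)
    refine ⟨max (max N T) L, fun n hn => ?_⟩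
    have hn1 : N ≤ n := le_trans (le_trans (le_max_left _ _) (le_max_left _ _)) hn
    have hn2 : T ≤ n := le_trans (le_trans (le_max_right _ _) (le_max_left _ _)) hn
    have hn3 : L ≤ n := le_trans (le_max_right _ _) hn
    have key : ∀ k, N ≤ k → ((List.range (k + 1)).reverse.findSome?
        (fun m => s (Nat.pair i m, n))) = some L := by
      intro k hk
      induction k with
      | zero =>
        have hN : N = 0 := by omega
        subst hN
        have h1 := hT n hn2
        simp only [Nat.unpair_pair] at h1
        rw [hL 0 le_rfl] at h1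
        simp [List.range_succ, h1]
      | succ k ih =>
        rw [List.range_succ, List.reverse_append, List.reverse_singleton, List.singleton_append,
          List.findSome?_cons]
        cases hq : s (Nat.pair i (k + 1), n) with
        | some b =>
          have h1 := (hsound _ _ _ hq).1
          simp only [Nat.unpair_pair] at h1
          rw [h1, hL _ (by omega)]
        | none =>
          by_cases hkN : N = k + 1
          · subst hkN
            have h1 := hT n hn2
            rw [hq] at h1
            exact absurd h1 (by simp)
          · exact ih (by omega)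
    show min _ n = L
    rw [key n hn1]
    simpa using hn3

end MHE
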