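import Pool.Agent.Lib.MP_1a14d4_he.DNnexp
import Pool.Agent.Lib.MP_1a14d4_he.Slow
import Pool.Agent.Lib.MP_1a14d4_he.KPrim
import Pool.Agent.Lib.MP_1a14d4_he.LimitK
import Pool.Agent.Lib.MP_1a14d4_he.GFP
import Pool.Agent.Lib.MP_1a14d4_he.Patch
import Pool.Agent.Lib.MP_1a14d4_he.Univ0
import Pool.Agent.Lib.MP_1a14d4_he.KUComplete

/-!
# Reductions of sets in NEXP to NEXP-complete sets

If the range of each one-to-one `f` in FP with `|x| < 2 ^ |f x|` contains the range of an honest
one-to-one function of FP, then sets in NEXP are reducible to NEXP-complete sets by one-to-one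
length-increasing functions.
-/

namespace MHE

open Pool.Agent.Lib.PolyTime

theorem injN {ks : ℕ → ℕ → ℕ} {A : Set W} {i : ℕ} (h : ∀ w, PN ks i w ↔ yv i w ∈ A) :
    Function.Injective (yv i) := by
  intro a b hab
  by_contra hne
  have key : ∀ u, yv i u = yv i (w0 i a) → u = w0 i a := by
    intro u hu
    by_contra hu'
    have hv : w0 i (w0 i a) = w0 i a := w0_w0 i a
    have hu0 : w0 i u = w0 i a := by rw [w0_congr hu, w0_w0]
    have h1 : PN ks i (w0 i a) ↔ PN ks i u := by rw [h, h, hu]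
    have h2 : PN ks i (w0 i a) ↔ ∃ g, EV ks i (w0 i a) g := by
      unfold PN
      rw [hv]
      simp
    have h3 : PN ks i u ↔ 2 ^ (w0 i a).length < u.length ∧ ¬ ∃ g, EV ks i (w0 i a) g := by
      unfold PN
      rw [hu0]
      have : ¬ w0 i a = u := fun e => hu' e.symm
      simp [this]
    rw [h2, h3] at h1
    by_cases hl : 2 ^ (w0 i a).length < u.length
    · tauto
    · exact hl (h1.1 ⟨u, by omega, Or.inl ⟨hu', hu⟩⟩).1
  have ha : yv i a = yv i (w0 i a) := (yv_w0 i a).symm
  exact hne ((key a ha).trans (key b (hab.symm.trans ha)).symm)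

theorem pad_injective (r : ℕ) : Function.Injective (pad r) := fun _ _ h => (st_inj h).2

theorem fp_pad (r : ℕ) : FP (pad r) := by
  rw [fp_iff]
  exact polyF_st.comp (((PolyF.length PolyF.id).natAdd (PolyF.const 2)).natPow r |>.pair PolyF.id)

theorem lt_length_pad (r : ℕ) (z : W) : (z.length + 2) ^ r < (pad r z).length := by
  unfold pad
  rw [length_st]
  omega

theorem length_le_pad (r : ℕ) (z : W) : z.length ≤ (pad r z).length := by
  unfold pad
  rw [length_st]
  omega

/-- the inequality at the end of the proof -/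
theorem pad_bound {i k d m : ℕ} (hd : d ≤ k) {z w y : W} (hz : i + 6 ≤ z.length)
    (hy : y.length ≤ (st i w).length + ((st i w).length + 2) ^ m + 1) (hm : m ≤ i)
    (hp : (pad (rr i k) z).length ≤ (y.length + 2) ^ d) : z.length ≤ w.length := by
  by_contra hw
  rw [length_st] at hy
  set a := z.length + i + 2 with ha
  have h1 : (i + w.length + 1 + 2) ^ m ≤ a ^ i :=
    (Nat.pow_le_pow_left (by omega) m).trans (Nat.pow_le_pow_right (by omega) hm)
  have h2 : y.length + 2 ≤ a ^ (i + 2) := by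
    have h3 : a ^ (i + 2) = a ^ i * (a * a) := by ring
    have h4 : 1 ≤ a ^ i := Nat.one_le_pow _ _ (by omega)
    have h5 : a + 2 ≤ a * a := by nlinarith
    have h6 : a ^ i * (a + 2) ≤ a ^ i * (a * a) := Nat.mul_le_mul_left _ h5
    have h7 : a ^ i * (a + 2) = a ^ i * a + a ^ i * 2 := by ring
    have h8 : a ≤ a ^ i * a := Nat.le_mul_of_pos_left _ (by omega)
    omega
  have h3 : a ^ (i + 2) ≤ (z.length + 2) ^ (2 * (i + 2)) := by
    rw [pow_mul]
    refine Nat.pow_le_pow_left ?_ _
    nlinarith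
  have h4 : (y.length + 2) ^ d ≤ (z.length + 2) ^ (rr i k) := by
    refine (Nat.pow_le_pow_left (h2.trans h3) d).trans ?_
    rw [← pow_mul]
    refine Nat.pow_le_pow_right (by omega) ?_
    unfold rr
    nlinarith
  exact absurd (lt_length_pad (rr i k) z) (by omega)

/-- the slowed down sequence of candidates -/
theorem exists_ks : ∃ ks : ℕ → ℕ → ℕ, NEXP (DN ks) ∧
    ∀ i L N, (∀ n ≥ N, kk i n = L) → ∃ M, ∀ n ≥ M, ks i n = L := by
  obtain ⟨ks, hks, hle, hlim⟩ := exists_slow prim_kk
  exact ⟨ks, nexp_DN hks hle, hlim⟩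

theorem red_column {ks : ℕ → ℕ → ℕ} {A : Set W} {i : ℕ} (hfr : ∀ x, x ∈ DN ks ↔ F i x ∈ A) :
    ∀ w, PN ks i w ↔ yv i w ∈ A := by
  intro w
  have := hfr (st i w)
  rw [← show (st i w ∈ DN ks) ↔ PN ks i w by
    show PN ks (idx (st i w)) (arg (st i w)) ↔ _
    rw [idx_st, arg_st]]
  exact this

/-- the main step for NEXP -/
theorem liRed_of_column {ks : ℕ → ℕ → ℕ}
    (hlim : ∀ i L N, (∀ n ≥ N, kk i n = L) → ∃ M, ∀ n ≥ M, ks i n = L)
    {A B : Set W} {i : ℕ} (hred : ∀ w, PN ks i w ↔ yv i w ∈ A) (hG : HasHonest (G i))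
    (hB : NEXP B) : LIRed B A := by
  have hi := injN hred
  obtain ⟨k, N, hk, hinj, hd, hr⟩ := exists_limit hi hG
  obtain ⟨M, hM⟩ := hlim i k N hk
  choose wz hwz using fun z => hr (pad (rr i k) z)
  have hHi : Function.Injective fun z => F k.unpair.1 (pad (rr i k) z) :=
    hinj.comp (pad_injective _)
  refine liRed_of_finite (padded_KU hB) ((fp_F k.unpair.1).comp (fp_pad (rr i k))) hHi
    (d := k.unpair.2) (fun z => (length_le_pad _ _).trans (hd _)) ?_
  have hwi : Function.Injective wz := by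
    intro z z' hzz
    apply hHi
    show F _ _ = F _ _
    rw [← hwz, ← hwz, hzz]
  refine ((finite_words (i + 6)).union ((finite_words M).preimage hwi.injOn)).subset ?_
  intro z hz
  by_contra hn
  simp only [Set.mem_union, Set.mem_ofPred_eq, Set.mem_preimage, not_or, not_lt] at hn
  obtain ⟨hn1, hn2⟩ := hn
  have hlz : z.length ≤ (wz z).length := by
    refine pad_bound (Nat.unpair_right_le k) hn1 (length_F i (st i (wz z)))
      (Nat.unpair_right_le i) ?_
    have := hd (pad (rr i k) z)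
    rw [← hwz] at this
    exact this
  apply hz
  have hkz : ks i (wz z).length = k := hM _ hn2
  show z ∈ KU ↔ F k.unpair.1 (pad (rr i k) z) ∈ A
  rw [← hwz z, ← hred]
  have hw0 : w0 i (wz z) = wz z := w0_of_injective hi _
  constructor
  · rintro ⟨g, hg, hg'⟩
    refine Or.inl ⟨hw0, g, hg.trans (Nat.pow_le_pow_right (by norm_num) hlz),
      Or.inr ⟨z, hlz, ?_, hg, hg'⟩⟩
    rw [hkz, hwz]
  · rintro (⟨-, g, -, ⟨hv, hv'⟩ | ⟨z', -, he, hg, hg'⟩⟩ | ⟨hne, -⟩)
    · exact absurd (hi hv') hv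
    · rw [hkz, hwz] at he
      have : z' = z := hHi he
      subst this
      exact ⟨g, hg, hg'⟩
    · exact absurd hw0 hne

theorem liRed_NEXP
    (hS : ∀ f, FP f → Function.Injective f → (∀ x : W, x.length < 2 ^ (f x).length) → HasHonest f)
    {A B : Set W} (hA : Complete NEXP A) (hB : NEXP B) : LIRed B A := by
  obtain ⟨ks, hks, hlim⟩ := exists_ks
  obtain ⟨f, hf, hfr⟩ := hA.2 _ hks
  obtain ⟨i, rfl⟩ := exists_F hf
  have hred := red_column hfr
  have hi := injN hred
  exact liRed_of_column hlim hred (hS (G i) (fp_G i) (G_injective hi) (lt_two_pow_G hi)) hB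

/-- If all sets of NEXP are honestly reducible to `A`, then by one-to-one length-increasing
functions. -/
theorem liRed_of_honestRed {A : Set W} (hA : ∀ C, NEXP C → HonestRed C A) {B : Set W}
    (hB : NEXP B) : LIRed B A := by
  obtain ⟨ks, hks, hlim⟩ := exists_ks
  obtain ⟨f, hf, ⟨q, hq⟩, hfr⟩ := hA _ hks
  obtain ⟨i, rfl⟩ := exists_F hf
  have hred := red_column hfr
  have hi := injN hred
  refine liRed_of_column hlim hred ⟨G i, fp_G i, G_injective hi, ⟨q, fun v => ?_⟩, subset_rfl⟩ hB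
  have h1 := hq (st i (st (uc i v) v))
  rw [length_st, length_st] at h1
  show v.length ≤ q.eval (F i (st i (st (uc i v) v))).length
  omega

end MHE
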