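import Pool.Agent.Lib.MP_1a14d4_he.NumW

/-!
# The least word of a fibre of `yv i`

`w0 i w` is the word with the smallest number which has the same value as `w` under `yv i`.
-/

namespace MHE

/-- the number of the least word of the fibre: it has the same value, and it is the smallest one -/
private theorem hqLeast_spec (i : ℕ) (w : W) :
    ∃ m, w0 i w = wordOf m ∧ yv i (wordOf m) = yv i w ∧ m ≤ num w ∧
      ∀ j < m, yv i (wordOf j) ≠ yv i w := by
  rcases hf : (List.range (num w)).find? (fun m => decide (yv i (wordOf m) = yv i w)) with _ | m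
  · refine ⟨num w, ?_, ?_, le_refl _, ?_⟩
    · simp [w0, hf]
    · rw [wordOf_num]
    · intro j hj hc
      have h := List.find?_eq_none.1 hf j (List.mem_range.2 hj)
      simp [hc] at h
  · have h := List.find?_range_eq_some.1 hf
    refine ⟨m, ?_, ?_, ?_, ?_⟩
    · simp [w0, hf]
    · simpa using h.1
    · exact (List.mem_range.1 h.2.1).le
    · intro j hj hc
      have h' := h.2.2 j hj
      simp [hc] at h'

theorem yv_w0 (i : ℕ) (w : W) : yv i (w0 i w) = yv i w := by
  obtain ⟨m, h, h1, -, -⟩ := hqLeast_spec i w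
  rw [h, h1]

theorem num_w0_le {i : ℕ} {v w : W} (h : yv i v = yv i w) : num (w0 i w) ≤ num v := by
  obtain ⟨m, hm, -, -, h3⟩ := hqLeast_spec i w
  rw [hm, num_wordOf]
  by_contra hc
  refine h3 (num v) (not_le.1 hc) ?_
  rw [wordOf_num, h]

theorem w0_congr {i : ℕ} {v w : W} (h : yv i v = yv i w) : w0 i v = w0 i w := by
  apply num_inj
  apply le_antisymm
  · exact num_w0_le ((yv_w0 i w).trans h.symm)
  · exact num_w0_le ((yv_w0 i v).trans h)

theorem w0_w0 (i : ℕ) (w : W) : w0 i (w0 i w) = w0 i w :=
  w0_congr (yv_w0 i w)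

theorem w0_of_injective {i : ℕ} (hi : Function.Injective (yv i)) (w : W) : w0 i w = w :=
  hi (yv_w0 i w)

/-- if `yv i` is not one-to-one, there is a word which is not the least one of its fibre -/
theorem exists_not_least {i : ℕ} (hi : ¬ Function.Injective (yv i)) : ∃ w, w0 i w ≠ w := by
  by_contra hc
  push Not at hc
  refine hi fun a b hab => ?_
  rw [← hc a, ← hc b]
  exact w0_congr hab

end MHE
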