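import Pool.Agent.Lib.MP_1a14d4_he.DRre
import Pool.Agent.Lib.MP_1a14d4_he.Univ0
import Pool.Agent.Lib.MP_1a14d4_he.Least
import Pool.Agent.Lib.MP_1a14d4_he.LimitK
import Pool.Agent.Lib.MP_1a14d4_he.GFP
import Pool.Agent.Lib.MP_1a14d4_he.Patch

/-!
# Reductions of RE sets to RE-complete sets

If the range of each one-to-one `f` in FP with `|x| < 2 ^ |f x|` contains the range of an honest
one-to-one function of FP, then RE sets are reducible to RE-complete sets by one-to-one
length-increasing functions.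
-/

namespace MHE

theorem injR {K A : Set W} {i : ℕ} (h : ∀ w, PR K i w ↔ yv i w ∈ A) :
    Function.Injective (yv i) := by
  intro a b hab
  by_contra hne
  have key : ∀ u, yv i u = yv i (w0 i a) → u = w0 i a := by
    intro u hu
    by_contra hu'
    have h1 : PR K i (w0 i a) := ⟨w0_w0 i a, Or.inl ⟨u, hu', hu⟩⟩
    have h2 : yv i u ∈ A := by
      rw [hu]
      exact (h _).1 h1
    have h3 : w0 i u = u := ((h u).2 h2).1
    apply hu'
    rw [← h3, w0_congr hu, w0_w0]
  have ha : yv i a = yv i (w0 i a) := (yv_w0 i a).symm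
  exact hne ((key a ha).trans (key b (hab.symm.trans ha)).symm)

theorem liRed_RE
    (hS : ∀ f, FP f → Function.Injective f → (∀ x : W, x.length < 2 ^ (f x).length) → HasHonest f)
    {A B : Set W} (hA : Complete RE A) (hB : RE B) : LIRed B A := by
  obtain ⟨K, hK, hpad⟩ := exists_universal
  obtain ⟨f, hf, hfr⟩ := hA.2 _ (re_DR hK)
  obtain ⟨i, rfl⟩ := exists_F hf
  have hred : ∀ w, PR K i w ↔ yv i w ∈ A := by
    intro w
    have := hfr (st i w)
    rw [← show (st i w ∈ DR K) ↔ PR K i w by
      show PR K (idx (st i w)) (arg (st i w)) ↔ _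
      rw [idx_st, arg_st]]
    exact this
  have hi := injR hred
  obtain ⟨k, N, hk, hinj, hd, hr⟩ := exists_limit hi
    (hS (G i) (fp_G i) (G_injective hi) (lt_two_pow_G hi))
  choose wz hwz using hr
  refine liRed_of_finite (hpad B hB) (fp_F k.unpair.1) hinj hd ?_
  have hwi : Function.Injective wz := by
    intro z z' hzz
    apply hinj
    rw [← hwz, ← hwz, hzz]
  refine ((finite_words N).preimage hwi.injOn).subset ?_
  intro z hz
  show (wz z).length < N
  by_contra hN
  apply hz
  have hkz : kk i (wz z).length = k := hk _ (by omega)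
  rw [← hwz z, ← hred]
  constructor
  · intro hzK
    exact ⟨w0_of_injective hi _, Or.inr ⟨z, hzK, by rw [hkz, hwz]⟩⟩
  · rintro ⟨-, ⟨v, hv, hv'⟩ | ⟨z', hz', he⟩⟩
    · exact absurd (hi hv') hv
    · rw [hkz, hwz] at he
      rwa [← hinj he]

end MHE
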