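import Pool.Agent.Lib.MP_1a14d4_he.Patch

/-!
# Sets that are not m-honest-equivalent are not equivalent by one-to-one length-increasing functions
-/

namespace MHE

theorem twoLI_of_twoSets {C : Set W → Prop} (h : TwoSets C) : TwoLI C := by
  obtain ⟨A, B, hA, hB, hn⟩ := h
  exact ⟨A, B, hA, hB, fun h => hn ⟨h.1.honestRed, h.2.honestRed⟩⟩

end MHE
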