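import Pool.Agent.Lib.MP_1a14d4_he.Dir1
import Pool.Agent.Lib.MP_1a14d4_he.FinR
import Pool.Agent.Lib.MP_1a14d4_he.Anti
import Pool.Agent.Lib.MP_1a14d4_he.TwoLI

/-!
# The equivalence for RE
-/

namespace MHE

theorem main :
    [TwoSets RE, TwoLI RE, AllOrders RE,
      ∃ f, FP f ∧ Function.Injective f ∧ ¬ HasHonest f,
      ∃ f, FP f ∧ Function.Injective f ∧ (∀ x : W, x.length < 2 ^ (f x).length) ∧
        ¬ HasHonest f].TFAE := by
  tfae_have 1 → 2 := twoLI_of_twoSets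
  tfae_have 2 → 5 := by
    rintro ⟨A, B, hA, hB, hn⟩
    by_contra hc
    have hS : ∀ f, FP f → Function.Injective f → (∀ x : W, x.length < 2 ^ (f x).length) →
        HasHonest f := by
      intro f hf hi he
      by_contra hh
      exact hc ⟨f, hf, hi, he, hh⟩
    exact hn ⟨liRed_RE hS hB hA.1, liRed_RE hS hA hB.1⟩
  tfae_have 5 → 4 := fun ⟨f, hf, hi, _, hh⟩ => ⟨f, hf, hi, hh⟩
  tfae_have 4 → 1 := by
    rintro ⟨f, hf, hi, hh⟩
    by_contra hn
    exact hh (hasHonest_of_not_twoSets hn hf hi)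
  tfae_have 5 → 3 := exists_embedding
  tfae_have 3 → 1 := by
    intro h
    obtain ⟨A, hA, hA'⟩ := h Bool
    refine ⟨A true, A false, hA _, hA _, fun hn => ?_⟩
    exact absurd ((hA' _ _).1 hn.1) (by decide)
  tfae_finish

end MHE
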