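import Pool.Agent.Lib.MP_1a14d4_he.Dir1
import Pool.Agent.Lib.MP_1a14d4_he.FinN
import Pool.Agent.Lib.MP_1a14d4_he.TwoLI

/-!
# From NEXP to RE; honest equivalence and one-to-one length-increasing equivalence for NEXP
-/

namespace MHE

open Pool.Agent.Lib.PolyTime

theorem HonestRed.trans {A B C : Set W} (h : HonestRed A B) (h' : HonestRed B C) :
    HonestRed A C := by
  obtain ⟨f, hf, ⟨q, hq⟩, hfr⟩ := h
  obtain ⟨g, hg, ⟨r, hr⟩, hgr⟩ := h'
  refine ⟨fun x => g (f x), hg.comp hf, ⟨q.comp r, fun x => ?_⟩, fun x => (hfr x).trans (hgr _)⟩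
  rw [Polynomial.eval_comp]
  exact (hq x).trans (peval_mono q (hr (f x)))

theorem Padded.honestRed {B K : Set W} (h : Padded B K) : HonestRed B K := by
  obtain ⟨g, hg, -, hl, hr⟩ := h 1
  refine ⟨g, hg, ⟨Polynomial.X, fun x => ?_⟩, hr⟩
  have := hl x
  rw [pow_one] at this
  rw [Polynomial.eval_X]
  omega

theorem nexp_KU : NEXP KU := by
  refine nexp_of_polyF Polynomial.X (V := fun p => UK p.1 p.2.1 p.2.2) polyF_UK fun x => ?_
  rw [Polynomial.eval_X]
  rfl

theorem complete_KU : Complete NEXP KU :=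
  ⟨nexp_KU, fun _ hB => (padded_KU hB).honestRed.redM⟩

/-- For NEXP the two notions of equivalence give the same question. -/
theorem twoSets_NEXP_of_twoLI (h : TwoLI NEXP) : TwoSets NEXP := by
  obtain ⟨A, B, hA, hB, hn⟩ := h
  by_contra hc
  have key : ∀ A, Complete NEXP A → ∀ C, NEXP C → HonestRed C A := by
    intro A hA C hC
    have h1 : HonestEquiv KU A := by
      by_contra h2
      exact hc ⟨KU, A, complete_KU, hA, h2⟩
    exact (padded_KU hC).honestRed.trans h1.1
  exact hn ⟨liRed_of_honestRed (key B hB) hA.1, liRed_of_honestRed (key A hA) hB.1⟩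

theorem twoSets_of_twoLI_NEXP (h : TwoLI NEXP) : TwoSets RE := by
  obtain ⟨A, B, hA, hB, hn⟩ := h
  by_contra hc
  have hS : ∀ f, FP f → Function.Injective f → (∀ x : W, x.length < 2 ^ (f x).length) →
      HasHonest f := fun f hf hi _ => hasHonest_of_not_twoSets hc hf hi
  exact hn ⟨liRed_NEXP hS hB hA.1, liRed_NEXP hS hA hB.1⟩

end MHE
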