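import Pool.Agent.Lib.MP_1a14d4_he.DMain
import Pool.Agent.Lib.MP_1a14d4_he.MainN

/-!
# The equivalence for NEXP
-/

namespace MHE

theorem main_nexp : [TwoSets NEXP, TwoLI NEXP, AllOrders NEXP].TFAE := by
  tfae_have 1 → 3 := nexp_allOrders
  tfae_have 3 → 1 := by
    intro h
    obtain ⟨A, hA, hA'⟩ := h Bool
    refine ⟨A true, A false, hA _, hA _, fun hn => ?_⟩
    exact absurd ((hA' _ _).1 hn.1) (by decide)
  tfae_have 1 → 2 := twoLI_of_twoSets
  tfae_have 2 → 1 := twoSets_NEXP_of_twoLI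
  tfae_finish

end MHE
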