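import Pool.Agent.Lib.PolyTime.NatBin
import Pool.Agent.Lib.PolyTime.EqOps

/-!
# Primitive recursive functions with a budget (numbers in unary)

A primitive recursive function is the limit of a partial polynomial-time function with a budget: with
a large budget the value is found, and a value that is found is correct and at most the budget.
-/

namespace MHE

open Pool.Agent.Lib.PolyTime

private theorem polyF_natPair {α : Type*} [TEnc α] {f g : α → ℕ} (hf : PolyF f) (hg : PolyF g) :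
    PolyF (fun x => Nat.pair (f x) (g x)) := by
  refine (PolyF.ite (p := fun x => f x < g x) (PolyF.natLt hf hg)
    (PolyF.natAdd (PolyF.natMul hg hg) hf)
    (PolyF.natAdd (PolyF.natAdd (PolyF.natMul hf hf) hf) hg)).congr fun x => ?_
  rfl

private theorem polyF_unpair : PolyF (fun a : ℕ => Nat.unpair a) := by
  have h1 : PolyF (fun a : ℕ => List.range (a + 1) ×ˢ List.range (a + 1)) :=
    PolyF.product (PolyF.range (PolyF.succ PolyF.id)) (PolyF.range (PolyF.succ PolyF.id))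
  have h2 : PolyF (fun q : ℕ × (ℕ × ℕ) => decide (Nat.pair q.2.1 q.2.2 = q.1)) :=
    PolyF.natEq (polyF_natPair PolyF.snd'.fst PolyF.snd'.snd) PolyF.fst'
  have h3 := PolyF.getD (PolyF.find? (p := fun (a : ℕ) (b : ℕ × ℕ) => decide (Nat.pair b.1 b.2 = a))
    h1 h2) (PolyF.const ((0, 0) : ℕ × ℕ))
  refine h3.congr fun a => ?_
  have hmem : Nat.unpair a ∈ List.range (a + 1) ×ˢ List.range (a + 1) := by
    have e1 := Nat.unpair_left_le a
    have e2 := Nat.unpair_right_le a
    rw [← Prod.mk.eta (p := Nat.unpair a), List.mem_product, List.mem_range, List.mem_range]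
    omega
  obtain ⟨b, hb⟩ : ∃ b, (List.range (a + 1) ×ˢ List.range (a + 1)).find?
      (fun b => decide (Nat.pair b.1 b.2 = a)) = some b := by
    rw [← Option.isSome_iff_exists, List.find?_isSome]
    exact ⟨_, hmem, by simp⟩
  have h4 := List.find?_some hb
  simp only [decide_eq_true_eq] at h4
  rw [hb]
  simp only [Option.getD_some]
  rw [← h4, Nat.unpair_pair]

private def Bd (h : ℕ → ℕ) : Prop :=
  ∃ s : ℕ × ℕ → Option ℕ, PolyF s ∧ (∀ a t b, s (a, t) = some b → b = h a ∧ b ≤ t) ∧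
      ∀ a, ∃ T, ∀ t ≥ T, s (a, t) = some (h a)

private theorem Bd.of_polyF {h : ℕ → ℕ} (hh : PolyF h) : Bd h := by
  refine ⟨fun p => if h p.1 ≤ p.2 then some (h p.1) else none, ?_, ?_, ?_⟩
  · exact PolyF.ite (p := fun p : ℕ × ℕ => h p.1 ≤ p.2) (PolyF.natLe (hh.comp PolyF.fst') PolyF.snd')
      (PolyF.some (hh.comp PolyF.fst')) (PolyF.const _)
  · intro a t b hb
    dsimp only at hb
    split_ifs at hb with hc
    simp only [Option.some.injEq] at hb
    subst hb
    exact ⟨rfl, hc⟩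
  · intro a
    exact ⟨h a, fun t ht => if_pos ht⟩

private theorem Bd.comp {f g : ℕ → ℕ} (hf : Bd f) (hg : Bd g) : Bd (fun n => f (g n)) := by
  obtain ⟨sf, pf, cf, lf⟩ := hf
  obtain ⟨sg, pg, cg, lg⟩ := hg
  refine ⟨fun p => (sg p).bind (fun b => sf (b, p.2)), ?_, ?_, ?_⟩
  · exact PolyF.optionBind pg (h := fun (p : ℕ × ℕ) (b : ℕ) => sf (b, p.2))
      (pf.comp (PolyF.snd'.pair PolyF.fst'.snd))
  · intro a t b hb
    dsimp only at hb
    rw [Option.bind_eq_some_iff] at hb
    obtain ⟨c, hc, hb⟩ := hb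
    obtain ⟨rfl, -⟩ := cg _ _ _ hc
    exact cf _ _ _ hb
  · intro a
    obtain ⟨T1, h1⟩ := lg a
    obtain ⟨T2, h2⟩ := lf (g a)
    refine ⟨max T1 T2, fun t ht => ?_⟩
    dsimp only
    rw [h1 t (le_trans (le_max_left _ _) ht), Option.bind_some,
      h2 t (le_trans (le_max_right _ _) ht)]

private theorem Bd.pair {f g : ℕ → ℕ} (hf : Bd f) (hg : Bd g) :
    Bd (fun n => Nat.pair (f n) (g n)) := by
  obtain ⟨sf, pf, cf, lf⟩ := hf
  obtain ⟨sg, pg, cg, lg⟩ := hg
  refine ⟨fun p => (sf p).bind (fun u => (sg p).bind (fun v =>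
    if Nat.pair u v ≤ p.2 then some (Nat.pair u v) else none)), ?_, ?_, ?_⟩
  · have h1 : PolyF (fun q : ((ℕ × ℕ) × ℕ) × ℕ => Nat.pair q.1.2 q.2) :=
      polyF_natPair PolyF.fst'.snd PolyF.snd'
    have h2 : PolyF (fun q : ((ℕ × ℕ) × ℕ) × ℕ =>
        if Nat.pair q.1.2 q.2 ≤ q.1.1.2 then some (Nat.pair q.1.2 q.2) else none) :=
      PolyF.ite (p := fun q : ((ℕ × ℕ) × ℕ) × ℕ => Nat.pair q.1.2 q.2 ≤ q.1.1.2)
        (PolyF.natLe h1 PolyF.fst'.fst.snd) (PolyF.some h1) (PolyF.const _)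
    exact PolyF.optionBind pf (h := fun (p : ℕ × ℕ) (u : ℕ) => (sg p).bind (fun v =>
      if Nat.pair u v ≤ p.2 then some (Nat.pair u v) else none))
      (PolyF.optionBind (α := (ℕ × ℕ) × ℕ) (o := fun q => sg q.1)
        (h := fun (q : (ℕ × ℕ) × ℕ) (v : ℕ) =>
          if Nat.pair q.2 v ≤ q.1.2 then some (Nat.pair q.2 v) else none)
        (pg.comp PolyF.fst') h2)
  · intro a t b hb
    dsimp only at hb
    rw [Option.bind_eq_some_iff] at hb
    obtain ⟨u, hu, hb⟩ := hb
    rw [Option.bind_eq_some_iff] at hb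
    obtain ⟨v, hv, hb⟩ := hb
    obtain ⟨rfl, -⟩ := cf _ _ _ hu
    obtain ⟨rfl, -⟩ := cg _ _ _ hv
    split_ifs at hb with hc
    simp only [Option.some.injEq] at hb
    subst hb
    exact ⟨rfl, hc⟩
  · intro a
    obtain ⟨T1, h1⟩ := lf a
    obtain ⟨T2, h2⟩ := lg a
    refine ⟨max (max T1 T2) (Nat.pair (f a) (g a)), fun t ht => ?_⟩
    dsimp only
    rw [h1 t (by omega), Option.bind_some, h2 t (by omega), Option.bind_some,
      if_pos (by omega)]

private theorem Bd.prec {f g : ℕ → ℕ} (hf : Bd f) (hg : Bd g) :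
    Bd (fun a => Nat.rec (motive := fun _ => ℕ) (f a.unpair.1)
      (fun y IH => g (Nat.pair a.unpair.1 (Nat.pair y IH))) a.unpair.2) := by
  obtain ⟨sf, pf, cf, lf⟩ := hf
  obtain ⟨sg, pg, cg, lg⟩ := hg
  let step : ℕ × ℕ → ℕ × Option ℕ → ℕ × Option ℕ := fun p q =>
    (q.1 + 1, q.2.bind (fun IH => sg (Nat.pair p.1.unpair.1 (Nat.pair q.1 IH), p.2)))
  let init : ℕ × ℕ → ℕ × Option ℕ := fun p => (0, sf (p.1.unpair.1, p.2))
  let R : ℕ → ℕ → ℕ := fun z i => Nat.rec (motive := fun _ => ℕ) (f z)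
    (fun y IH => g (Nat.pair z (Nat.pair y IH))) i
  have hR : ∀ z i, R z (i + 1) = g (Nat.pair z (Nat.pair i (R z i))) := fun z i => rfl
  have key : ∀ (p : ℕ × ℕ) (i : ℕ), ((step p)^[i] (init p)).1 = i ∧
      ∀ b, ((step p)^[i] (init p)).2 = some b → b = R p.1.unpair.1 i ∧ b ≤ p.2 := by
    intro p i
    induction i with
    | zero => exact ⟨rfl, fun b hb => cf _ _ _ hb⟩
    | succ i ih =>
      obtain ⟨ih1, ih2⟩ := ih
      rw [Function.iterate_succ_apply']
      refine ⟨by simp only [step, ih1], fun b hb => ?_⟩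
      simp only [step] at hb
      rw [Option.bind_eq_some_iff] at hb
      obtain ⟨c, hc, hb⟩ := hb
      obtain ⟨rfl, -⟩ := ih2 c hc
      have := cg _ _ _ hb
      rw [hR]
      rwa [ih1] at this
  refine ⟨fun p => ((step p)^[p.1.unpair.2] (init p)).2, ?_, ?_, ?_⟩
  · have u1 : PolyF (fun q : ((ℕ × ℕ) × (ℕ × Option ℕ)) × ℕ => q.1.1.1.unpair.1) :=
      (polyF_unpair.comp PolyF.fst'.fst.fst).fst
    have u2 : PolyF (fun q : ((ℕ × ℕ) × (ℕ × Option ℕ)) × ℕ =>
        sg (Nat.pair q.1.1.1.unpair.1 (Nat.pair q.1.2.1 q.2), q.1.1.2)) :=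
      pg.comp ((polyF_natPair u1 (polyF_natPair PolyF.fst'.snd.fst PolyF.snd')).pair
        PolyF.fst'.fst.snd)
    have hstep : PolyF (fun q : (ℕ × ℕ) × (ℕ × Option ℕ) => step q.1 q.2) :=
      (PolyF.succ PolyF.snd'.fst).pair
        (PolyF.optionBind (α := (ℕ × ℕ) × (ℕ × Option ℕ)) (o := fun q => q.2.2)
          (h := fun (q : (ℕ × ℕ) × (ℕ × Option ℕ)) (IH : ℕ) =>
            sg (Nat.pair q.1.1.unpair.1 (Nat.pair q.2.1 IH), q.1.2))
          PolyF.snd'.snd u2)
    have hinit : PolyF init :=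
      (PolyF.const 0).pair (pf.comp ((polyF_unpair.comp PolyF.fst').fst.pair PolyF.snd'))
    refine (PolyF.natIterate (n := fun p : ℕ × ℕ => p.1.unpair.2) (f := step) (g := init)
      (polyF_unpair.comp PolyF.fst').snd hstep hinit ?_).snd
    refine ⟨2 + Polynomial.X + Polynomial.X, fun p i hi => ?_⟩
    obtain ⟨k1, k2⟩ := key p i
    have e1 := Nat.unpair_right_le p.1
    have e2 : sz p = 1 + p.1 + p.2 := by rw [sz_prod, sz_nat, sz_nat]
    have e3 : sz ((step p)^[i] (init p)).2 ≤ 1 + p.2 := by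
      rcases hb : ((step p)^[i] (init p)).2 with _ | b
      · simp
      · have := (k2 b hb).2
        simp only [sz_some, sz_nat]
        omega
    rw [sz_prod, k1, sz_nat, e2]
    simp only [Polynomial.eval_add, Polynomial.eval_ofNat, Polynomial.eval_X]
    omega
  · intro a t b hb
    exact (key (a, t) a.unpair.2).2 b hb
  · intro a
    have : ∀ i, ∃ T, ∀ t ≥ T, ((step (a, t))^[i] (init (a, t))).2 = some (R a.unpair.1 i) := by
      intro i
      induction i with
      | zero => exact lf a.unpair.1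
      | succ i ih =>
        obtain ⟨T1, h1⟩ := ih
        obtain ⟨T2, h2⟩ := lg (Nat.pair a.unpair.1 (Nat.pair i (R a.unpair.1 i)))
        refine ⟨max T1 T2, fun t ht => ?_⟩
        rw [Function.iterate_succ_apply']
        have k1 := (key (a, t) i).1
        simp only [step] at k1 ⊢
        have h1' := h1 t (le_trans (le_max_left _ _) ht)
        simp only [step] at h1'
        rw [h1', Option.bind_some, k1, h2 t (le_trans (le_max_right _ _) ht), hR]
    exact this a.unpair.2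

theorem exists_budget {h : ℕ → ℕ} (hh : Nat.Primrec h) :
    ∃ s : ℕ × ℕ → Option ℕ, PolyF s ∧ (∀ a t b, s (a, t) = some b → b = h a ∧ b ≤ t) ∧
      ∀ a, ∃ T, ∀ t ≥ T, s (a, t) = some (h a) := by
  change Bd h
  induction hh with
  | zero => exact Bd.of_polyF (PolyF.const 0)
  | succ => exact Bd.of_polyF (PolyF.succ PolyF.id)
  | left => exact Bd.of_polyF polyF_unpair.fst
  | right => exact Bd.of_polyF polyF_unpair.snd
  | pair _ _ ihf ihg => exact Bd.pair ihf ihg
  | comp _ _ ihf ihg => exact Bd.comp ihf ihg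
  | prec _ _ ihf ihg => exact Bd.prec ihf ihg

end MHE
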