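import Pool.Agent.Lib.MP_1a14d4_he.Base

/-!
# Primitive recursive functions on trees

`T` is in bijection with `ℕ`: `nil ↦ 0`, `node l r ↦ Nat.pair (code l) (code r) + 1`. The
operations on trees used by the universal simulation are primitive recursive.
-/

namespace MHE

open Pool.Agent.Lib.PolyTime

/-- the bijection between the trees and the numbers -/
def tcode : T → ℕ
  | .nil => 0
  | .node l r => Nat.pair (tcode l) (tcode r) + 1

theorem tcode_bijective : Function.Bijective tcode := by
  constructor
  · intro a
    induction a with
    | nil =>
      intro b h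
      cases b with
      | nil => rfl
      | node l r => simp [tcode] at h
    | node l r ihl ihr =>
      intro b h
      cases b with
      | nil => simp [tcode] at h
      | node l' r' =>
        simp only [tcode, Nat.add_right_cancel_iff, Nat.pair_eq_pair] at h
        rw [ihl h.1, ihr h.2]
  · intro n
    induction n using Nat.strong_induction_on with
    | _ n ih =>
      cases n with
      | zero => exact ⟨.nil, rfl⟩
      | succ m =>
        obtain ⟨l, hl⟩ := ih m.unpair.1 (Nat.lt_succ_of_le (Nat.unpair_left_le m))
        obtain ⟨r, hr⟩ := ih m.unpair.2 (Nat.lt_succ_of_le (Nat.unpair_right_le m))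
        exact ⟨.node l r, by simp [tcode, hl, hr]⟩

noncomputable instance : Primcodable T :=
  Primcodable.ofEquiv ℕ (Equiv.ofBijective tcode tcode_bijective)

theorem encode_T (t : T) : Encodable.encode t = tcode t := rfl

theorem prim_node : Primrec₂ T.node := by
  refine Primrec₂.encode_iff.1 ?_
  have h : Primrec₂ (fun a b : T => Nat.pair (Encodable.encode a) (Encodable.encode b) + 1) :=
    Primrec.succ.comp₂ (Primrec₂.natPair.comp₂ (Primrec.encode.comp₂ Primrec₂.left)
      (Primrec.encode.comp₂ Primrec₂.right))
  exact h

theorem prim_left : Primrec T.left := by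
  refine Primrec.encode_iff.1 ?_
  have h : Primrec (fun a : T => (Nat.pred (Encodable.encode a)).unpair.1) :=
    Primrec.fst.comp (Primrec.unpair.comp (Primrec.pred.comp Primrec.encode))
  refine h.of_eq (fun t => ?_)
  cases t with
  | nil => simp [encode_T, tcode, T.left]
  | node l r => simp [encode_T, tcode, T.left]

theorem prim_right : Primrec T.right := by
  refine Primrec.encode_iff.1 ?_
  have h : Primrec (fun a : T => (Nat.pred (Encodable.encode a)).unpair.2) :=
    Primrec.snd.comp (Primrec.unpair.comp (Primrec.pred.comp Primrec.encode))
  refine h.of_eq (fun t => ?_)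
  cases t with
  | nil => simp [encode_T, tcode, T.right]
  | node l r => simp [encode_T, tcode, T.right]

theorem prim_encNat : Primrec (fun n : ℕ => enc n) := by
  have h : Primrec (Nat.rec (motive := fun _ => T) T.nil (fun _ t => T.node T.nil t)) :=
    Primrec.nat_rec₁ T.nil (prim_node.comp₂ (Primrec.const T.nil).to₂ Primrec₂.right)
  refine h.of_eq (fun n => ?_)
  induction n with
  | zero => rfl
  | succ n ih => rw [enc_succ, ← ih]

/-- one step along the right spine -/
def spineStep (p : T × List T) : T × List T :=
  if p.1 = T.nil then p else (p.1.right, p.1.left :: p.2)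

theorem prim_spineStep : Primrec spineStep := by
  have hc : PrimrecPred (fun p : T × List T => p.1 = T.nil) :=
    Primrec.eq.comp Primrec.fst (Primrec.const T.nil)
  exact Primrec.ite hc Primrec.id
    (Primrec.pair (prim_right.comp Primrec.fst)
      (Primrec.list_cons.comp (prim_left.comp Primrec.fst) Primrec.snd))

theorem spineStep_iterate (t : T) : ∀ (n : ℕ) (acc : List T), tcode t ≤ n →
    (spineStep^[n] (t, acc)).2 = (MHon.toL t).reverse ++ acc := by
  induction t with
  | nil =>
    intro n acc _
    have h : spineStep (T.nil, acc) = (T.nil, acc) := by simp [spineStep]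
    rw [Function.iterate_fixed h]
    simp [MHon.toL]
  | node l r _ ihr =>
    intro n acc hn
    have h1 : tcode r ≤ Nat.pair (tcode l) (tcode r) := Nat.right_le_pair _ _
    simp only [tcode] at hn
    obtain ⟨m, rfl⟩ : ∃ m, n = m + 1 := ⟨n - 1, by omega⟩
    rw [Function.iterate_succ_apply]
    have h : spineStep (T.node l r, acc) = (r, l :: acc) := by simp [spineStep, T.left, T.right]
    rw [h, ihr m (l :: acc) (by omega)]
    simp [MHon.toL]

theorem prim_toL : Primrec MHon.toL := by
  have h : Primrec (fun t : T => (spineStep^[Encodable.encode t] (t, ([] : List T))).2.reverse) :=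
    Primrec.list_reverse.comp (Primrec.snd.comp
      (Primrec.nat_iterate Primrec.encode (Primrec.pair Primrec.id (Primrec.const []))
        (prim_spineStep.comp₂ Primrec₂.right)))
  refine h.of_eq (fun t => ?_)
  rw [spineStep_iterate t _ _ (le_of_eq (encode_T t).symm)]
  simp

theorem lookup_eq_foldr (key : T) (l : List T) :
    (l.map (fun p => (p.left, p.right))).lookup key =
      l.foldr (fun p acc => if key = p.left then some p.right else acc) none := by
  induction l with
  | nil => rfl
  | cons a l ih =>
    simp only [List.map_cons, List.lookup_cons, List.foldr_cons, ih]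
    by_cases h : key = a.left
    · simp [h]
    · have h2 : (key == a.left) = false := by simp [h]
      rw [h2, if_neg h]

theorem prim_tb : Primrec₂ MHon.tb := by
  have hc : PrimrecPred (fun q : (T × T) × (T × Option T) => q.1.2 = q.2.1.left) :=
    Primrec.eq.comp (Primrec.snd.comp Primrec.fst)
      (prim_left.comp (Primrec.fst.comp Primrec.snd))
  have hh : Primrec₂ (fun (p : T × T) (x : T × Option T) =>
      if p.2 = x.1.left then some x.1.right else x.2) :=
    Primrec.ite hc (Primrec.option_some.comp (prim_right.comp (Primrec.fst.comp Primrec.snd)))
      (Primrec.snd.comp Primrec.snd)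
  have h : Primrec (fun p : T × T => ((MHon.toL p.1).foldr
      (fun b s => if p.2 = b.left then some b.right else s) none).getD T.nil) :=
    Primrec.option_getD.comp
      (Primrec.list_foldr (prim_toL.comp Primrec.fst) (Primrec.const none) hh)
      (Primrec.const T.nil)
  show Primrec (fun p : T × T => MHon.tb p.1 p.2)
  refine h.of_eq (fun p => ?_)
  rw [MHon.tb, lookup_eq_foldr]

theorem prim_decOB : Primrec MHon.decOB := by
  have h : Primrec (fun t : T => if t = T.nil then (none : Option Bool) else
      if t.left = T.nil then some false else some true) :=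
    Primrec.ite (Primrec.eq.comp Primrec.id (Primrec.const T.nil)) (Primrec.const none)
      (Primrec.ite (Primrec.eq.comp prim_left (Primrec.const T.nil)) (Primrec.const (some false))
        (Primrec.const (some true)))
  refine h.of_eq (fun t => ?_)
  cases t with
  | nil => rfl
  | node l r => cases l <;> simp [MHon.decOB, T.left]

end MHE
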