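import Pool.Agent.Lib.MP_1a14d4_he.FPoly
import Pool.Agent.Lib.MP_1a14d4_he.StOps
import Pool.Agent.Lib.MP_1a14d4_he.Least
import Pool.Agent.Lib.MP_1a14d4_he.UKPoly

/-!
# The truncated values are correct if `N` is large

`Big n N`: `N` is large enough for all words of the columns `i ≤ n` with `|w| ≤ n`.
-/

namespace MHE

/-- `N` is large enough for the words of length `≤ n` of the columns `i ≤ n` -/
structure Big (n N : ℕ) : Prop where
  h1 : 2 ^ (n + 1) ≤ N
  h2 : (n + 2 ^ n + 3) ^ n ≤ N
  h3 : (n + 2) ^ rr n n ≤ N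
  h4 : ((n + 2) ^ rr n n + n + 3) ^ n ≤ N

theorem yT_eq {n N i : ℕ} (hB : Big n N) (hi : i ≤ n) {w : W} (hw : w.length ≤ 2 ^ n) :
    yT i w N = yv i w := by
  refine FT_eq (le_trans ?_ hB.h2)
  rw [length_st]
  have h1 : i.unpair.2 ≤ n := (Nat.unpair_right_le i).trans hi
  calc (i + w.length + 1 + 2) ^ i.unpair.2
      ≤ (n + 2 ^ n + 3) ^ i.unpair.2 := Nat.pow_le_pow_left (by omega) _
    _ ≤ (n + 2 ^ n + 3) ^ n := Nat.pow_le_pow_right (by omega) h1

theorem tspec_length_le {v w : W} (h : num v ≤ num w) : v.length ≤ w.length := by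
  have h1 := le_num v
  have h2 := num_lt w
  have h3 : 2 ^ v.length < 2 ^ (w.length + 1) := by omega
  have h4 := (Nat.pow_lt_pow_iff_right (by norm_num : 1 < 2)).1 h3
  omega

theorem length_w0_le (i : ℕ) (w : W) : (w0 i w).length ≤ w.length :=
  tspec_length_le (num_w0_le rfl)

theorem w0T_eq {n N i : ℕ} (hB : Big n N) (hi : i ≤ n) {w : W} (hw : w.length ≤ n) :
    w0T i w N = w0 i w := by
  have hn : n < 2 ^ n := Nat.lt_two_pow_self
  have hq : num (w0 i w) ≤ num w := num_w0_le rfl
  have hyw : yT i w N = yv i w := yT_eq hB hi (by omega)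
  have hsmall : ∀ m, m ≤ num w → yT i (wordOf m) N = yv i (wordOf m) := by
    intro m hm
    have h1 : (wordOf m).length ≤ w.length := tspec_length_le (by rw [num_wordOf]; exact hm)
    exact yT_eq hB hi (by omega)
  have hqN : num (w0 i w) < N := by
    have h1 := num_lt w
    have h2 : 2 ^ (w.length + 1) ≤ 2 ^ (n + 1) := Nat.pow_le_pow_right (by norm_num) (by omega)
    have h3 := hB.h1
    omega
  have hfind : (List.range N).find? (fun m => decide (yT i (wordOf m) N = yT i w N)) =
      some (num (w0 i w)) := by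
    rw [List.find?_range_eq_some]
    refine ⟨?_, by simpa using hqN, ?_⟩
    · rw [hsmall _ hq, wordOf_num, hyw, yv_w0]
      simp
    · intro j hj
      have h1 : yT i (wordOf j) N ≠ yT i w N := by
        rw [hsmall _ (by omega), hyw]
        intro h
        have h2 := num_w0_le h
        rw [num_wordOf] at h2
        omega
      simp [h1]
  simp only [w0T, hfind, Option.map_some, Option.getD_some, wordOf_num]

end MHE
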